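import Pool.Agent.W_MP_2cf721_co.Comb

set_option autoImplicit false

/-!
# The colouring, abstractly
-/

open Finset

namespace Pool.Agent.W_MP_2cf721_co

namespace Sys

variable {ι α : Type*} [DecidableEq ι] [DecidableEq α] {S : Sys ι α}

/-- the weight of the contact point `p` for `i` -/
noncomputable def w (S : Sys ι α) (F : Finset ι) (i : ι) (p : α) : ℚ :=
  1 + (S.e1 F i p : ℚ) - 3 / (S.deg F p : ℚ)

lemma sum_g (F : Finset ι) : ((∑ p ∈ S.P, S.g F p : ℤ) : ℚ) = ∑ i ∈ F, ∑ p ∈ S.Q i, S.w F i p := by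
  have h1 : ∀ p, ((S.g F p : ℤ) : ℚ) = ∑ i ∈ F with p ∈ S.Q i, S.w F i p := by
    intro p
    unfold g w
    rw [sum_sub_distrib]
    push_cast
    congr 1
    rw [sum_const, nsmul_eq_mul]
    change _ = (S.deg F p : ℚ) * _
    by_cases hd : S.deg F p = 0
    · rw [hd, if_neg]
      · simp
      · rintro ⟨i, hi, hp⟩
        unfold deg at hd
        rw [card_eq_zero, filter_eq_empty_iff] at hd
        exact hd hi hp
    · rw [if_pos]
      · have : (S.deg F p : ℚ) ≠ 0 := by exact_mod_cast hd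
        field_simp
      · obtain ⟨i, hi⟩ := card_pos.mp (Nat.pos_of_ne_zero hd)
        exact ⟨i, mem_filter.mp hi⟩
  push_cast
  rw [sum_congr rfl (fun p _ => h1 p)]
  apply sum_comm'
  intro p i
  simp only [mem_filter]
  constructor
  · rintro ⟨_, h2, h3⟩; exact ⟨h3, h2⟩
  · rintro ⟨h1, h2⟩; exact ⟨S.sub i h1, h2, h1⟩

section

variable {F : Finset ι} {i : ι} {p : α}

lemma deg_pos (hi : i ∈ F) (hp : p ∈ S.Q i) : 1 ≤ S.deg F p :=
  card_pos.mpr ⟨i, mem_filter.mpr ⟨hi, hp⟩⟩

lemma exists_other (hd : 2 ≤ S.deg F p) : ∃ j ∈ F, j ≠ i ∧ p ∈ S.Q j := by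
  obtain ⟨a, ha, b, hb, hab⟩ := one_lt_card.mp (show 1 < #{j ∈ F | p ∈ S.Q j} from hd)
  rw [mem_filter] at ha hb
  by_cases h : a = i
  · exact ⟨b, hb.1, fun h' => hab (h.trans h'.symm), hb.2⟩
  · exact ⟨a, ha.1, h, ha.2⟩

lemma deg_two (hi : i ∈ F) (hp : p ∈ S.Q i) {j : ι} (hj : j ∈ F) (hji : j ≠ i) (hpj : p ∈ S.Q j) :
    2 ≤ S.deg F p := by
  unfold deg
  have : ({i, j} : Finset ι) ⊆ {l ∈ F | p ∈ S.Q l} := by
    intro a ha
    simp only [mem_insert, mem_singleton] at ha
    rcases ha with rfl | rfl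
    · exact mem_filter.mpr ⟨hi, hp⟩
    · exact mem_filter.mpr ⟨hj, hpj⟩
  calc 2 = #({i, j} : Finset ι) := (card_pair hji.symm).symm
    _ ≤ _ := card_le_card this

lemma deg_three (hi : i ∈ F) (hp : p ∈ S.Q i) (h0 : S.e1 F i p = 0) : 3 ≤ S.deg F p := by
  unfold e1 at h0
  rw [card_eq_zero, filter_eq_empty_iff] at h0
  have h1 := h0 (mem_univ true)
  have h2 := h0 (mem_univ false)
  push Not at h1 h2
  obtain ⟨j, hj, hji, hpj, hsj⟩ := h1
  obtain ⟨k, hk, hki, hpk, hsk⟩ := h2
  have hjk : j ≠ k := by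
    rintro rfl
    rw [hsj] at hsk
    exact absurd hsk (by decide)
  unfold deg
  have : ({i, j, k} : Finset ι) ⊆ {l ∈ F | p ∈ S.Q l} := by
    intro a ha
    simp only [mem_insert, mem_singleton] at ha
    rcases ha with rfl | rfl | rfl
    · exact mem_filter.mpr ⟨hi, hp⟩
    · exact mem_filter.mpr ⟨hj, hpj⟩
    · exact mem_filter.mpr ⟨hk, hpk⟩
  calc 3 = #({i, j, k} : Finset ι) := (card_eq_three.mpr ⟨i, j, k, hji.symm, hki.symm, hjk, rfl⟩).symm
    _ ≤ _ := card_le_card this

lemma w_nonneg (hi : i ∈ F) (hp : p ∈ S.Q i) : 0 ≤ S.w F i p := by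
  unfold w
  have hd := deg_pos hi hp
  rcases Nat.eq_or_lt_of_le hd with h | h
  · have h2 : S.e1 F i p = 2 := by
      apply e1_eq_two
      intro j hj hji hpj
      have := deg_two hi hp hj hji hpj
      omega
    rw [h2, ← h]
    norm_num
  · by_cases h0 : S.e1 F i p = 0
    · have h3 : (3:ℚ) ≤ S.deg F p := by exact_mod_cast deg_three hi hp h0
      rw [h0]
      have : 3 / (S.deg F p : ℚ) ≤ 1 := (div_le_one (by linarith)).mpr h3
      push_cast
      linarith
    · have h3 : (2:ℚ) ≤ S.deg F p := by exact_mod_cast h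
      have h4 : (1:ℚ) ≤ S.e1 F i p := by exact_mod_cast Nat.pos_of_ne_zero h0
      have : 3 / (S.deg F p : ℚ) ≤ 2 := (div_le_iff₀ (by linarith)).mpr (by linarith)
      linarith

lemma w_half (hd : 2 ≤ S.deg F p) (he : 1 ≤ S.e1 F i p) : 1 / 2 ≤ S.w F i p := by
  unfold w
  have h3 : (2:ℚ) ≤ S.deg F p := by exact_mod_cast hd
  have h4 : (1:ℚ) ≤ S.e1 F i p := by exact_mod_cast he
  have : 3 / (S.deg F p : ℚ) ≤ 3 / 2 := (div_le_iff₀ (by linarith)).mpr (by linarith)
  linarith

lemma w_big (hd : 6 ≤ S.deg F p) (he : 1 ≤ S.e1 F i p) : 3 / 2 ≤ S.w F i p := by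
  unfold w
  have h3 : (6:ℚ) ≤ S.deg F p := by exact_mod_cast hd
  have h4 : (1:ℚ) ≤ S.e1 F i p := by exact_mod_cast he
  have : 3 / (S.deg F p : ℚ) ≤ 1 / 2 := (div_le_iff₀ (by linarith)).mpr (by linarith)
  linarith

lemma one_le_e1 {t : Bool} (h : ∀ j ∈ F, j ≠ i → p ∈ S.Q j → S.side i j ≠ t) :
    1 ≤ S.e1 F i p :=
  card_pos.mpr ⟨t, mem_filter.mpr ⟨mem_univ _, h⟩⟩

/-- the contact points of `i` in `F` -/
def Q' (S : Sys ι α) (F : Finset ι) (i : ι) : Finset α := {p ∈ S.Q i | 2 ≤ S.deg F p}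

lemma share_ineq {k : ℕ} (hk : ∀ p, S.deg F p ≤ k) (hi : i ∈ F)
    (hdeg : k + 19 ≤ ∑ p ∈ S.Q i, (S.deg F p - 1)) :
    6 * (S.e F i : ℚ) + S.tau F i ≤ 2 * ∑ p ∈ S.Q i, S.w F i p := by
  have hsub : S.Q' F i ⊆ S.Q i := filter_subset _ _
  have hQ' : ∀ p ∈ S.Q' F i, 2 ≤ S.deg F p := fun p hp => (mem_filter.mp hp).2
  have hle : ∑ p ∈ S.Q' F i, S.w F i p ≤ ∑ p ∈ S.Q i, S.w F i p :=
    sum_le_sum_of_subset_of_nonneg hsub (fun p hp _ => w_nonneg hi hp)
  have hdeg' : k + 19 ≤ ∑ p ∈ S.Q' F i, (S.deg F p - 1) := by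
    refine hdeg.trans (le_of_eq ?_)
    symm
    apply sum_subset hsub
    intro p hp hp'
    simp only [Q', mem_filter, not_and, not_le] at hp'
    have := hp' hp
    omega
  have hb : ∀ T ⊆ S.Q' F i, ∑ p ∈ T, (S.deg F p - 1) ≤ T.card * (k - 1) := by
    intro T _
    rw [← smul_eq_mul]
    apply sum_le_card_nsmul
    intro p _
    have := hk p
    omega
  have hc2 : 2 ≤ (S.Q' F i).card := by
    by_contra hcon
    have h1 := hb _ Subset.rfl
    have h2 : (S.Q' F i).card * (k - 1) ≤ 1 * (k - 1) := Nat.mul_le_mul_right _ (by omega)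
    omega
  have hk2 : 2 ≤ k := by
    obtain ⟨p, hp⟩ := card_pos.mp (by omega : 0 < (S.Q' F i).card)
    exact (hQ' p hp).trans (hk p)
  have hPsQ' : ∀ t, ∀ p ∈ S.Ps F i t, p ∈ S.Q' F i := by
    intro t p hp
    simp only [Ps, mem_filter] at hp
    obtain ⟨hp, j, hj, hji, hpj, -⟩ := hp
    exact mem_filter.mpr ⟨hp, deg_two hi hp hj hji hpj⟩
  have hQ'Ps : ∀ p ∈ S.Q' F i, ∃ t, p ∈ S.Ps F i t := by
    intro p hp
    obtain ⟨j, hj, hji, hpj⟩ := exists_other (i := i) (hQ' p hp)
    exact ⟨S.side i j, mem_filter.mpr ⟨hsub hp, j, hj, hji, hpj, rfl⟩⟩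
  obtain ⟨j0, hj0, hj0i⟩ : ∃ j ∈ F, j ≠ i := by
    obtain ⟨p, hp⟩ := card_pos.mp (by omega : 0 < (S.Q' F i).card)
    obtain ⟨j, hj, hji, -⟩ := exists_other (i := i) (hQ' p hp)
    exact ⟨j, hj, hji⟩
  rcases Nat.le_one_iff_eq_zero_or_eq_one.mp (e_le_one hj0 hj0i : S.e F i ≤ 1) with he | he
  · -- both sides nonempty
    rw [he]
    -- a point with one side locally empty
    have hq : ∀ t, (S.Ps F i t).card = 1 → ∀ q ∈ S.Ps F i t, ∀ p ∈ S.Q' F i, p ≠ q →
        1 / 2 ≤ S.w F i p := by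
      intro t ht q hq p hp hpq
      apply w_half (hQ' p hp)
      apply one_le_e1 (t := t)
      intro j hj hji hpj hs
      have : p ∈ S.Ps F i t := mem_filter.mpr ⟨hsub hp, j, hj, hji, hpj, hs⟩
      exact hpq (card_le_one.mp ht.le p this q hq)
    have hτ : S.tau F i = (if (S.Ps F i true).card = 1 then 1 else 0) +
        (if (S.Ps F i false).card = 1 then 1 else 0) := by
      unfold tau
      rw [card_filter]
      have : (univ : Finset Bool) = {true, false} := by decide
      rw [this, sum_pair (by decide)]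
    have hsum0 : ∀ T ⊆ S.Q' F i, 0 ≤ ∑ p ∈ S.Q' F i \ T, S.w F i p := fun T _ =>
      sum_nonneg fun p hp => w_nonneg hi (hsub (mem_sdiff.mp hp).1)
    have hone : ∀ t, (S.Ps F i t).card = 1 → 1 / 2 ≤ ∑ p ∈ S.Q' F i, S.w F i p := by
      intro t ht
      obtain ⟨q, hqe⟩ := card_eq_one.mp ht
      have hqm : q ∈ S.Ps F i t := by rw [hqe]; exact mem_singleton_self q
      obtain ⟨p, hp, hpq⟩ := exists_mem_ne (by omega : 1 < (S.Q' F i).card) q
      calc 1 / 2 ≤ S.w F i p := hq t ht q hqm p hp hpq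
        _ ≤ ∑ p ∈ S.Q' F i, S.w F i p :=
          single_le_sum (fun p hp => w_nonneg hi (hsub hp)) hp
    have hz : 0 ≤ ∑ p ∈ S.Q' F i, S.w F i p := sum_nonneg fun p hp => w_nonneg hi (hsub hp)
    rw [hτ]
    by_cases h1 : (S.Ps F i true).card = 1 <;> by_cases h2 : (S.Ps F i false).card = 1
    · rw [if_pos h1, if_pos h2]
      obtain ⟨q, hqe⟩ := card_eq_one.mp h1
      obtain ⟨q', hqe'⟩ := card_eq_one.mp h2
      have hqm : q ∈ S.Ps F i true := by rw [hqe]; exact mem_singleton_self q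
      have hqm' : q' ∈ S.Ps F i false := by rw [hqe']; exact mem_singleton_self q'
      have hne : q ≠ q' := by
        rintro rfl
        have : S.Q' F i ⊆ {q} := by
          intro p hp
          obtain ⟨t, ht⟩ := hQ'Ps p hp
          cases t
          · rwa [hqe'] at ht
          · rwa [hqe] at ht
        have := card_le_card this
        rw [card_singleton] at this
        omega
      have h3 := hq true h1 q hqm q' (hPsQ' _ _ hqm') hne.symm
      have h4 := hq false h2 q' hqm' q (hPsQ' _ _ hqm) hne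
      have h5 : ({q, q'} : Finset α) ⊆ S.Q' F i := by
        intro a ha
        simp only [mem_insert, mem_singleton] at ha
        rcases ha with rfl | rfl
        · exact hPsQ' _ _ hqm
        · exact hPsQ' _ _ hqm'
      have h6 : S.w F i q + S.w F i q' ≤ ∑ p ∈ S.Q' F i, S.w F i p := by
        rw [← sum_pair hne]
        exact sum_le_sum_of_subset_of_nonneg h5 (fun p hp _ => w_nonneg hi (hsub hp))
      push_cast
      linarith
    · rw [if_pos h1, if_neg h2]
      have := hone true h1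
      push_cast
      linarith
    · rw [if_neg h1, if_pos h2]
      have := hone false h2
      push_cast
      linarith
    · rw [if_neg h1, if_neg h2]
      push_cast
      linarith
  · -- one side empty
    rw [he]
    obtain ⟨t, ht⟩ := card_pos.mp (by unfold e at he; omega :
      0 < #{s : Bool | ∀ j ∈ F, j ≠ i → S.side i j ≠ s})
    rw [mem_filter] at ht
    have ht := ht.2
    have he1 : ∀ p, 1 ≤ S.e1 F i p := fun p => one_le_e1 (t := t) (fun j hj hji _ => ht j hj hji)
    have hPt : S.Ps F i t = ∅ := by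
      unfold Ps
      apply filter_false_of_mem
      rintro p - ⟨j, hj, hji, -, hs⟩
      exact ht j hj hji hs
    have hPt' : S.Ps F i (!t) = S.Q' F i := by
      apply Subset.antisymm (hPsQ' _)
      intro p hp
      obtain ⟨u, hu⟩ := hQ'Ps p hp
      have : u ≠ t := by
        rintro rfl
        rw [hPt] at hu
        exact absurd hu (notMem_empty _)
      have hut : u = !t := by revert this; cases u <;> cases t <;> simp
      rwa [hut] at hu
    have hτ : S.tau F i = 0 := by
      unfold tau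
      rw [card_eq_zero, filter_eq_empty_iff]
      intro u _ hu
      by_cases h : u = t
      · rw [h, hPt] at hu
        simp at hu
      · have hut : u = !t := by revert h; cases u <;> cases t <;> simp
        rw [hut, hPt'] at hu
        omega
    rw [hτ]
    have key : 3 ≤ ∑ p ∈ S.Q' F i, S.w F i p := by
      by_cases h6 : 6 ≤ (S.Q' F i).card
      · calc (3:ℚ) ≤ (S.Q' F i).card • (1/2 : ℚ) := by
              rw [nsmul_eq_mul]
              have : (6:ℚ) ≤ (S.Q' F i).card := by exact_mod_cast h6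
              linarith
          _ ≤ _ := card_nsmul_le_sum _ _ _ (fun p hp => w_half (hQ' p hp) (he1 p))
      · -- two big points
        have hB : 2 ≤ #{p ∈ S.Q' F i | 6 ≤ S.deg F p} := by
          by_contra hcon
          have h1 := sum_filter_add_sum_filter_not (S.Q' F i) (fun p => 6 ≤ S.deg F p)
            (fun p => S.deg F p - 1)
          have h2 := hb _ (filter_subset (fun p => 6 ≤ S.deg F p) (S.Q' F i))
          have h3 : ∑ p ∈ S.Q' F i with ¬ 6 ≤ S.deg F p, (S.deg F p - 1) ≤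
              #{p ∈ S.Q' F i | ¬ 6 ≤ S.deg F p} * 4 := by
            rw [← smul_eq_mul]
            apply sum_le_card_nsmul
            intro p hp
            have := (mem_filter.mp hp).2
            omega
          have h4 := card_filter_add_card_filter_not (s := S.Q' F i) (fun p => 6 ≤ S.deg F p)
          interval_cases h5 : #{p ∈ S.Q' F i | 6 ≤ S.deg F p}
          · omega
          · omega
        obtain ⟨p, hp, q, hq, hpq⟩ := one_lt_card.mp hB
        rw [mem_filter] at hp hq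
        have h5 : ({p, q} : Finset α) ⊆ S.Q' F i := by
          intro a ha
          simp only [mem_insert, mem_singleton] at ha
          rcases ha with rfl | rfl
          · exact hp.1
          · exact hq.1
        have h7 : S.w F i p + S.w F i q ≤ ∑ p ∈ S.Q' F i, S.w F i p := by
          rw [← sum_pair hpq]
          exact sum_le_sum_of_subset_of_nonneg h5 (fun p hp _ => w_nonneg hi (hsub hp))
        have h8 := w_big hp.2 (he1 p)
        have h9 := w_big hq.2 (he1 q)
        linarith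
    push_cast
    linarith

end

section

open Classical

/-- neighbours -/
noncomputable def nb (S : Sys ι α) (F : Finset ι) (i : ι) : Finset ι := {j ∈ F | S.Adj i j}

lemma card_nb_le {F : Finset ι} {i : ι} (hi : i ∈ F) :
    (S.nb F i).card ≤ ∑ p ∈ S.Q i, (S.deg F p - 1) := by
  have h1 : S.nb F i ⊆ (S.Q i).biUnion (fun p => {j ∈ F | p ∈ S.Q j}.erase i) := by
    intro j hj
    unfold nb at hj
    rw [mem_filter] at hj
    obtain ⟨hj, hne, p, hp1, hp2⟩ := hj
    rw [mem_biUnion]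
    exact ⟨p, hp1, mem_erase.mpr ⟨hne.symm, mem_filter.mpr ⟨hj, hp2⟩⟩⟩
  calc _ ≤ _ := card_le_card h1
    _ ≤ _ := card_biUnion_le
    _ = _ := by
      apply sum_congr rfl
      intro p hp
      rw [card_erase_of_mem (mem_filter.mpr ⟨hi, hp⟩)]
      rfl

theorem low_degree_conn {F : Finset ι} {k : ℕ} (hF : S.Conn F) (hne : F.Nonempty)
    (hk : ∀ p, S.deg F p ≤ k) : ∃ i ∈ F, (S.nb F i).card ≤ k + 18 := by
  by_contra hcon
  push Not at hcon
  have h1 := main_ineq (S := S) _ F rfl hne hF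
  have h2 : ∀ i ∈ F, 6 * (S.e F i : ℚ) + S.tau F i ≤ 2 * ∑ p ∈ S.Q i, S.w F i p := by
    intro i hi
    apply share_ineq hk hi
    have := hcon i hi
    have := card_nb_le (S := S) hi
    omega
  have h3 := sum_le_sum h2
  rw [← mul_sum, ← sum_g] at h3
  have h4 : (2 * ((∑ p ∈ S.P, S.g F p : ℤ) : ℚ) + 12) ≤ ∑ i ∈ F, (6 * (S.e F i : ℚ) + S.tau F i) := by
    exact_mod_cast h1
  linarith

theorem low_degree {F : Finset ι} {k : ℕ} (hne : F.Nonempty)
    (hk : ∀ p, S.deg F p ≤ k) : ∃ i ∈ F, (S.nb F i).card ≤ k + 18 := by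
  -- a minimal nonempty closed subset
  have hex : ∃ m : ℕ, ∃ A ⊆ F, A.Nonempty ∧ (∀ i ∈ A, ∀ j ∈ F, S.Adj i j → j ∈ A) ∧ A.card = m :=
    ⟨_, F, Subset.rfl, hne, fun _ _ j hj _ => hj, rfl⟩
  obtain ⟨A, hAF, hAne, hAcl, hAm⟩ := Nat.find_spec hex
  have hmin : ∀ B ⊆ F, B.Nonempty → (∀ i ∈ B, ∀ j ∈ F, S.Adj i j → j ∈ B) → A.card ≤ B.card := by
    intro B h1 h2 h3
    rw [hAm]
    exact Nat.find_min' hex ⟨B, h1, h2, h3, rfl⟩
  have hconn : S.Conn A := by
    intro B hB hBne hBA
    by_contra hcon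
    push Not at hcon
    have h1 := hmin B (hB.trans hAF) hBne (by
      intro i hi j hj hij
      by_contra hjB
      exact hcon i hi j (hAcl i (hB hi) j hj hij) hjB hij)
    exact hBA (eq_of_subset_of_card_le hB h1)
  obtain ⟨i, hi, h⟩ := low_degree_conn hconn hAne
    (fun p => (card_le_card (filter_subset_filter _ hAF)).trans (hk p))
  refine ⟨i, hAF hi, ?_⟩
  have : S.nb F i = S.nb A i := by
    unfold nb
    ext j
    simp only [mem_filter]
    constructor
    · rintro ⟨hj, h⟩; exact ⟨hAcl i hi j hj h, h⟩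
    · rintro ⟨hj, h⟩; exact ⟨hAF hj, h⟩
  rwa [this]

theorem colour {k : ℕ} : ∀ (n : ℕ) (F : Finset ι), F.card = n → (∀ p, S.deg F p ≤ k) →
    ∃ f : ι → Fin (k + 19), ∀ i ∈ F, ∀ j ∈ F, S.Adj i j → f i ≠ f j := by
  intro n
  induction n with
  | zero =>
    intro F hF _
    rw [card_eq_zero] at hF
    subst hF
    exact ⟨fun _ => ⟨0, by omega⟩, fun i hi => absurd hi (notMem_empty _)⟩
  | succ n ih =>
    intro F hF hk
    obtain ⟨i, hi, hdeg⟩ := low_degree (S := S) (card_pos.mp (by omega : 0 < F.card)) hk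
    obtain ⟨f, hf⟩ := ih (F.erase i) (by rw [card_erase_of_mem hi]; omega)
      (fun p => (card_le_card (filter_subset_filter _ (erase_subset _ _))).trans (hk p))
    obtain ⟨c, hc⟩ : ∃ c : Fin (k + 19), c ∉ (S.nb F i).image f := by
      by_contra hcon
      push Not at hcon
      have h1 : (univ : Finset (Fin (k+19))) ⊆ (S.nb F i).image f := fun c _ => hcon c
      have h2 := card_le_card h1
      rw [card_univ, Fintype.card_fin] at h2
      have h3 := card_image_le (s := S.nb F i) (f := f)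
      omega
    refine ⟨Function.update f i c, ?_⟩
    have hic : ∀ j ∈ F, S.Adj i j → c ≠ f j := by
      intro j hj hij h
      exact hc (mem_image.mpr ⟨j, mem_filter.mpr ⟨hj, hij⟩, h.symm⟩)
    intro a ha b hb hab
    by_cases hai : a = i
    · subst hai
      rw [Function.update_self, Function.update_of_ne hab.1.symm]
      exact hic b hb hab
    · by_cases hbi : b = i
      · subst hbi
        rw [Function.update_self, Function.update_of_ne hai]
        exact (hic a ha hab.symm).symm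
      · rw [Function.update_of_ne hai, Function.update_of_ne hbi]
        exact hf a (mem_erase.mpr ⟨hai, ha⟩) b (mem_erase.mpr ⟨hbi, hb⟩) hab

end

end Sys

end Pool.Agent.W_MP_2cf721_co
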