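import Pool.Agent.W_MP_2cf721_co.Count
import Pool.Agent.W_MP_2cf721_co.Colour

set_option autoImplicit false

/-!
# Assembly
-/

open Set Topology Complex

namespace Pool.Agent.W_MP_2cf721_co

open Classical in
/-- the inequality for at least three mutually facing Jordan curves -/
theorem facing_ineq {κ : Type} [Fintype κ] (J : κ → Set ℂ) (hJ : ∀ i, IsJordan (J i))
    (hs : ∀ i j, i ≠ j → (J i ∩ J j).Subsingleton) (P : Finset ℂ)
    (hP : ∀ p, p ∈ P ↔ ∃ i j, i ≠ j ∧ p ∈ J i ∧ p ∈ J j) (hcard : 3 ≤ Fintype.card κ)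
    (hcon : ∀ i, ∃ p ∈ P, p ∈ J i)
    (hface : ∀ i j k, j ≠ i → k ≠ i → ∀ x ∈ J j, x ∉ J i → ∀ y ∈ J k, y ∉ J i →
      y ∈ cmp (J i) x) :
    2 * (∑ i, (P.filter (fun p => p ∈ J i)).card) + 6 ≤ 3 * (Fintype.card κ + P.card) := by
  have hloop : ∀ i, ∃ c, IsLoop c ∧ img c = J i ∧ c 0 ∈ P := by
    intro i
    obtain ⟨p, hp, hpi⟩ := hcon i
    obtain ⟨c, h1, h2, h3⟩ := (hJ i).2 p hpi
    exact ⟨c, h1, h2, h3 ▸ hp⟩
  choose c hc1 hc2 hc3 using hloop
  have hd : ∀ i, ∃ d, d ∉ J i ∧ ∀ j, j ≠ i → Disjoint (cmp (J i) d) (J j) := by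
    intro i
    obtain ⟨j, hji⟩ : ∃ j, j ≠ i := by
      have : 1 < Fintype.card κ := by omega
      exact Fintype.exists_ne_of_one_lt_card this i
    obtain ⟨x, hx, hxi⟩ := exists_diff hJ hs hji
    have key : ∀ a, a ∉ J i → x ∉ cmp (J i) a → ∀ k, k ≠ i → Disjoint (cmp (J i) a) (J k) := by
      intro a ha hxa k hki
      rw [Set.disjoint_left]
      intro z hz hzk
      have hzi : z ∉ J i := fun h => cmp_subset _ _ hz h
      have h1 := hface i j k hji hki x hx hxi z hzk hzi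
      apply hxa
      rw [← cmp_eq hz, cmp_eq h1]
      exact mem_cmp hxi
    obtain ⟨a, b, ha, hb, hab⟩ := jordan_sep (hJ i)
    by_cases h : x ∈ cmp (J i) a
    · refine ⟨b, hb, key b hb (fun h2 => hab ?_)⟩
      rw [← cmp_eq h, cmp_eq h2]
      exact mem_cmp hb
    · exact ⟨a, ha, key a ha h⟩
  choose d hd1 hd2 using hd
  have hT : ∀ i, {t | t ∈ Ico (0:ℝ) 1 ∧ c i t ∈ P}.Finite := by
    intro i
    apply Set.Finite.of_finite_image (f := c i)
    · apply P.finite_toSet.subset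
      rintro _ ⟨t, ht, rfl⟩
      exact ht.2
    · intro s hs t ht hst
      exact (hc1 i).injOn_Ico hs.1 ht.1 hst
  let X : Cfg κ :=
    { J := J
      hJ := hJ
      hs := hs
      P := P
      hP := hP
      c := c
      loop := hc1
      hc := hc2
      hc0 := hc3
      d := d
      hd := hd1
      hd2 := hd2
      T := fun i => (hT i).toFinset
      hT := fun i t => by simp
      hcard := hcard }
  have h1 := Cfg.inc_le (X := X)
  have h2 : ∀ i, (X.T i).card = (P.filter (fun p => p ∈ J i)).card := fun i => Cfg.card_T i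
  simp only [h2] at h1
  exact h1

section

variable {ι : Type} [Fintype ι] {J : ι → Set ℂ}

lemma contact_finite (hs : ∀ i j, i ≠ j → (J i ∩ J j).Subsingleton) :
    {p | ∃ i j, i ≠ j ∧ p ∈ J i ∧ p ∈ J j}.Finite := by
  have h : {p | ∃ i j, i ≠ j ∧ p ∈ J i ∧ p ∈ J j} ⊆
      ⋃ a : {a : ι × ι // a.1 ≠ a.2}, (J a.1.1 ∩ J a.1.2) := by
    rintro p ⟨i, j, hij, h1, h2⟩
    exact mem_iUnion.mpr ⟨⟨(i, j), hij⟩, h1, h2⟩
  exact (Set.finite_iUnion fun a : {a : ι × ι // a.1 ≠ a.2} => (hs _ _ a.2).finite).subset h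

open Classical in
/-- the combinatorial system of a family -/
noncomputable def sys (J : ι → Set ℂ) (hJ : ∀ i, IsJordan (J i))
    (hs : ∀ i j, i ≠ j → (J i ∩ J j).Subsingleton) (b : ι → ℂ) (hb : ∀ i, b i ∉ J i) :
    Sys ι ℂ where
  P := (contact_finite hs).toFinset
  Q i := (contact_finite hs).toFinset.filter (fun p => p ∈ J i)
  sub _ := Finset.filter_subset _ _
  side := side J b
  A1 := by
    intro i j hij p hpi hpj q hqi hqj
    rw [Finset.mem_filter] at hpi hpj hqi hqj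
    exact hs i j hij ⟨hpi.2, hpj.2⟩ ⟨hqi.2, hqj.2⟩
  A2 := fun i j k h1 h2 h3 => between hJ hs hb h1 h2 h3
  A3 := by
    intro i j k p hji hki h hpj hpk
    rw [Finset.mem_filter] at hpj hpk ⊢
    exact ⟨hpj.1, side_common hJ hs hb hji hki h hpj.2 hpk.2⟩
  A4 := by
    intro M hM hface hcon
    set P := (contact_finite hs).toFinset with hPdef
    have hPm : ∀ p, p ∈ P ↔ ∃ i j, i ≠ j ∧ p ∈ J i ∧ p ∈ J j := by
      intro p; rw [hPdef, Set.Finite.mem_toFinset]; rfl
    set PM := P.filter (fun p => 2 ≤ (M.filter (fun i => p ∈ P.filter (fun p => p ∈ J i))).card)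
      with hPM
    have h1 := facing_ineq (κ := {i // i ∈ M}) (fun i => J i.1) (fun i => hJ i.1)
      (fun i j hij => hs i.1 j.1 (fun h => hij (Subtype.ext h))) PM (by
        intro p
        constructor
        · intro hp
          rw [hPM, Finset.mem_filter] at hp
          obtain ⟨a, ha, b, hb, hab⟩ := Finset.one_lt_card.mp hp.2
          rw [Finset.mem_filter, Finset.mem_filter] at ha hb
          exact ⟨⟨a, ha.1⟩, ⟨b, hb.1⟩, fun h => hab (congrArg Subtype.val h), ha.2.2, hb.2.2⟩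
        · rintro ⟨⟨a, ha⟩, ⟨b, hb⟩, hab, hpa, hpb⟩
          have hab' : a ≠ b := fun h => hab (Subtype.ext h)
          have hpP : p ∈ P := (hPm p).mpr ⟨a, b, hab', hpa, hpb⟩
          rw [hPM, Finset.mem_filter]
          refine ⟨hpP, ?_⟩
          apply Finset.one_lt_card.mpr
          exact ⟨a, Finset.mem_filter.mpr ⟨ha, Finset.mem_filter.mpr ⟨hpP, hpa⟩⟩, b,
            Finset.mem_filter.mpr ⟨hb, Finset.mem_filter.mpr ⟨hpP, hpb⟩⟩, hab'⟩)
      (by rw [Fintype.card_coe]; exact hM)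
      (by
        rintro ⟨i, hi⟩
        obtain ⟨j, hj, hji, p, hpi, hpj⟩ := hcon i hi
        refine ⟨p, ?_, (Finset.mem_filter.mp hpi).2⟩
        rw [hPM, Finset.mem_filter]
        refine ⟨(Finset.mem_filter.mp hpi).1, ?_⟩
        apply Finset.one_lt_card.mpr
        exact ⟨i, Finset.mem_filter.mpr ⟨hi, hpi⟩, j, Finset.mem_filter.mpr ⟨hj, hpj⟩, hji.symm⟩)
      (by
        rintro ⟨i, hi⟩ ⟨j, hj⟩ ⟨k, hk⟩ hji hki x hx hxi y hy hyi
        have hji' : j ≠ i := fun h => hji (Subtype.ext h)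
        have hki' : k ≠ i := fun h => hki (Subtype.ext h)
        exact (side_eq_iff hJ hs hb hji' hki' hx hxi hy hyi).mp
          (hface i hi j hj k hk hji' hki'))
    rw [Fintype.card_coe] at h1
    have h2 : ∑ i : {i // i ∈ M}, (PM.filter (fun p => p ∈ J i.1)).card =
        ∑ p ∈ PM, (M.filter (fun i => p ∈ P.filter (fun p => p ∈ J i))).card := by
      rw [Finset.sum_coe_sort M (fun i => (PM.filter (fun p => p ∈ J i)).card)]
      simp only [Finset.card_filter]
      rw [Finset.sum_comm]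
      apply Finset.sum_congr rfl
      intro p hp
      apply Finset.sum_congr rfl
      intro i _
      have hpP : p ∈ P := (Finset.mem_filter.mp hp).1
      simp [hpP]
    rw [h2] at h1
    exact h1

end

/-- **Colouring simple families of Jordan curves.** -/
theorem colouring {ι : Type} [Fintype ι] (J : ι → Set ℂ) (hJ : ∀ i, IsJordan (J i))
    (hs : ∀ i j, i ≠ j → (J i ∩ J j).Subsingleton) (k : ℕ)
    (hk : ∀ p : ℂ, Set.ncard {i : ι | p ∈ J i} ≤ k) :
    ∃ f : ι → Fin (k + 19), ∀ i j, i ≠ j → (J i ∩ J j).Nonempty → f i ≠ f j := by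
  classical
  have hb : ∀ i, ∃ b, b ∉ J i := by
    intro i
    obtain ⟨a, b, ha, -, -⟩ := jordan_sep (hJ i)
    exact ⟨a, ha⟩
  choose b hb using hb
  obtain ⟨f, hf⟩ := Sys.colour (S := sys J hJ hs b hb) (k := k) _ Finset.univ rfl (by
    intro p
    refine le_trans ?_ (hk p)
    rw [Set.ncard_eq_toFinset_card']
    unfold Sys.deg
    apply Finset.card_le_card
    intro i hi
    rw [Finset.mem_filter] at hi
    rw [Set.mem_toFinset]
    exact (Finset.mem_filter.mp hi.2).2)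
  refine ⟨f, fun i j hij ⟨p, hpi, hpj⟩ => hf i (Finset.mem_univ _) j (Finset.mem_univ _)
    ⟨hij, p, ?_, ?_⟩⟩
  · exact Finset.mem_filter.mpr ⟨(contact_finite hs).mem_toFinset.mpr ⟨i, j, hij, hpi, hpj⟩, hpi⟩
  · exact Finset.mem_filter.mpr ⟨(contact_finite hs).mem_toFinset.mpr ⟨i, j, hij, hpi, hpj⟩, hpj⟩

end Pool.Agent.W_MP_2cf721_co
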