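import Pool.Agent.W_MP_2cf721_co.Log

set_option autoImplicit false

/-!
# Borsuk–Eilenberg separation criterion
-/

open Set Topology Complex

namespace Pool.Agent.W_MP_2cf721_co

/-- the component of `a` in the complement of `K` -/
noncomputable def cmp (K : Set ℂ) (a : ℂ) : Set ℂ := connectedComponentIn Kᶜ a

lemma cmp_subset (K : Set ℂ) (a : ℂ) : cmp K a ⊆ Kᶜ := connectedComponentIn_subset _ _

lemma mem_cmp {K : Set ℂ} {a : ℂ} (ha : a ∉ K) : a ∈ cmp K a := mem_connectedComponentIn ha

lemma isPreconnected_cmp (K : Set ℂ) (a : ℂ) : IsPreconnected (cmp K a) :=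
  isPreconnected_connectedComponentIn

lemma isOpen_cmp {K : Set ℂ} (hK : IsClosed K) (a : ℂ) : IsOpen (cmp K a) :=
  hK.isOpen_compl.connectedComponentIn

lemma cmp_eq {K : Set ℂ} {a b : ℂ} (h : b ∈ cmp K a) : cmp K b = cmp K a :=
  (connectedComponentIn_eq h).symm

lemma cmp_symm {K : Set ℂ} {a b : ℂ} (ha : a ∉ K) (h : b ∈ cmp K a) : a ∈ cmp K b := by
  rw [cmp_eq h]; exact mem_cmp ha

lemma notMem_of_mem_cmp {K : Set ℂ} {a b : ℂ} (h : b ∈ cmp K a) : a ∉ K := by
  have : (connectedComponentIn Kᶜ a).Nonempty := ⟨b, h⟩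
  exact connectedComponentIn_nonempty_iff.mp this

lemma subset_cmp {K S : Set ℂ} {a : ℂ} (hS : IsPreconnected S) (ha : a ∈ S) (h : Disjoint S K) :
    S ⊆ cmp K a :=
  hS.subset_connectedComponentIn ha (fun _ hx hK => h.ne_of_mem hx hK rfl)

/-- closure of a component meets `Kᶜ` only in the component -/
lemma closure_cmp_inter {K : Set ℂ} {a x : ℂ} (hx : x ∈ closure (cmp K a)) (hxK : x ∉ K) :
    x ∈ cmp K a := by
  by_cases hne : (cmp K a).Nonempty
  · obtain ⟨b, hb⟩ := hne
    have haK : a ∉ K := notMem_of_mem_cmp hb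
    have h1 : IsPreconnected (insert x (cmp K a)) :=
      (isPreconnected_cmp K a).subset_closure (subset_insert _ _)
        (insert_subset hx subset_closure)
    have h2 : insert x (cmp K a) ⊆ cmp K a := by
      apply h1.subset_connectedComponentIn (mem_insert_of_mem _ (mem_cmp haK))
      exact insert_subset hxK (cmp_subset K a)
    exact h2 (mem_insert _ _)
  · rw [Set.not_nonempty_iff_eq_empty] at hne
    rw [hne] at hx
    simp at hx

lemma frontier_cmp_subset {K : Set ℂ} (hK : IsClosed K) (a : ℂ) : frontier (cmp K a) ⊆ K := by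
  intro x hx
  by_contra hxK
  have h1 := closure_cmp_inter hx.1 hxK
  rw [(isOpen_cmp hK a).frontier_eq] at hx
  exact hx.2 h1

/-- an open preconnected set, disjoint from `K` and with frontier in `K`, is a component -/
lemma eq_cmp {K S : Set ℂ} {a : ℂ} (hS : IsPreconnected S) (hSo : IsOpen S) (ha : a ∈ S)
    (h : Disjoint S K) (hf : frontier S ⊆ K) : cmp K a = S := by
  apply subset_antisymm
  · refine (isPreconnected_cmp K a).subset_of_closure_inter_subset hSo
      ⟨a, ⟨mem_cmp (fun haK => h.ne_of_mem ha haK rfl), ha⟩⟩ ?_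
    rintro x ⟨hx1, hx2⟩
    by_contra hxS
    have : x ∈ frontier S := by rw [hSo.frontier_eq]; exact ⟨hx1, hxS⟩
    exact cmp_subset K a hx2 (hf this)
  · exact subset_cmp hS ha h

/-- `z ↦ (z - a)^k` has no continuous nonvanishing extension... -/
lemma winding_aux {a : ℂ} {R : ℝ} (hR : 0 < R) {k : ℤ} {L : ℂ → ℂ} (hL : Continuous L)
    (h : ∀ z, ‖z - a‖ = R → exp (L z) = (z - a) ^ k) : k = 0 := by
  have hc : Continuous (fun θ : ℝ => L (a + R * exp (θ * Complex.I))) := by
    apply hL.comp; fun_prop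
  have hc2 : Continuous (fun θ : ℝ => (k : ℂ) * (Real.log R + θ * Complex.I)) := by fun_prop
  have hn : ∀ θ : ℝ, ‖(a + R * exp (θ * Complex.I)) - a‖ = R := by
    intro θ
    rw [add_sub_cancel_left, norm_mul, norm_exp_ofReal_mul_I, mul_one, norm_real,
      Real.norm_of_nonneg hR.le]
  have he : ∀ θ : ℝ, exp (L (a + R * exp (θ * Complex.I)))
      = exp ((k : ℂ) * (Real.log R + θ * Complex.I)) := by
    intro θ
    rw [h _ (hn θ), add_sub_cancel_left, exp_int_mul, exp_add, ← Complex.ofReal_exp,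
      Real.exp_log hR]
  have h1 := log_unique isPreconnected_univ hc.continuousOn hc2.continuousOn (fun θ _ => he θ)
    (mem_univ (0:ℝ)) (mem_univ (2 * Real.pi))
  have h2 : exp (((2 * Real.pi : ℝ) : ℂ) * Complex.I) = 1 := by
    push_cast; exact exp_two_pi_mul_I
  simp only [h2, ofReal_zero, zero_mul, exp_zero, add_zero] at h1
  have h3 : (k : ℂ) * (((2 * Real.pi : ℝ) : ℂ) * Complex.I) = 0 := by linear_combination h1
  have h4 : (((2 * Real.pi : ℝ) : ℂ) * Complex.I) ≠ 0 := by
    simp [Real.pi_ne_zero]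
  have := (mul_eq_zero.mp h3).resolve_right h4
  exact_mod_cast this

/-- **Borsuk–Eilenberg**: if a product of powers of `z - a j` has a continuous logarithm on the
compact set `K` then the exponent of a point alone in a bounded component is zero. -/
theorem borsuk {K : Set ℂ} (hK : IsCompact K) {J : Type} [Fintype J] [DecidableEq J] (a : J → ℂ)
    (k : J → ℤ) (ha : ∀ j, a j ∉ K) (g : ℂ → ℂ) (hg : ContinuousOn g K)
    (hexp : ∀ z ∈ K, exp (g z) = ∏ j, (z - a j) ^ (k j)) (j₀ : J)
    (hb : Bornology.IsBounded (cmp K (a j₀))) (hd : ∀ j, j ≠ j₀ → a j ∉ cmp K (a j₀)) :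
    k j₀ = 0 := by
  classical
  set V := cmp K (a j₀) with hV
  have hVo : IsOpen V := isOpen_cmp hK.isClosed _
  have hfr : frontier V ⊆ K := frontier_cmp_subset hK.isClosed _
  have haV : a j₀ ∈ V := mem_cmp (ha j₀)
  obtain ⟨G, hG⟩ := ContinuousMap.exists_restrict_eq hK.isClosed
    (⟨K.domRestrict g, continuousOn_iff_continuous_domRestrict.mp hg⟩ : C(K, ℂ))
  have hGK : ∀ z ∈ K, G z = g z := by
    intro z hz
    have := congrArg (fun f : C(K, ℂ) => f ⟨z, hz⟩) hG
    simpa using this
  let F1 : ℂ → ℂ := fun z => exp (G z) * ∏ j ∈ Finset.univ.erase j₀, (z - a j) ^ (- k j)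
  let F2 : ℂ → ℂ := fun z => (z - a j₀) ^ (k j₀)
  have hcl : ∀ z ∈ closure V, z ∈ V ∨ z ∈ K := by
    intro z hz
    by_cases hzK : z ∈ K
    · exact Or.inr hzK
    · exact Or.inl (closure_cmp_inter hz hzK)
  have hne1 : ∀ z ∈ closure V, ∀ j ∈ Finset.univ.erase j₀, z - a j ≠ 0 := by
    intro z hz j hj h
    have hja : z = a j := sub_eq_zero.mp h
    rw [hja] at hz
    rcases hcl _ hz with h1 | h1
    · exact hd j (Finset.ne_of_mem_erase hj) h1
    · exact ha j h1
  have hne2 : ∀ z ∈ Vᶜ, z - a j₀ ≠ 0 := by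
    intro z hz h
    rw [sub_eq_zero.mp h] at hz
    exact hz haV
  have hF1c : ContinuousOn F1 (closure V) := by
    apply ContinuousOn.mul (Continuous.continuousOn (by fun_prop))
    apply continuousOn_finsetProd
    intro j hj
    apply ContinuousOn.zpow₀ (Continuous.continuousOn (by fun_prop))
    intro z hz
    exact Or.inl (hne1 z hz j hj)
  have hF2c : ContinuousOn F2 (closure Vᶜ) := by
    rw [hVo.isClosed_compl.closure_eq]
    apply ContinuousOn.zpow₀ (Continuous.continuousOn (by fun_prop))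
    intro z hz
    exact Or.inl (hne2 z hz)
  have hagree : ∀ z ∈ frontier V, F1 z = F2 z := by
    intro z hz
    have hzK := hfr hz
    have hzc : z ∈ closure V := frontier_subset_closure hz
    simp only [F1, F2]
    rw [hGK z hzK, hexp z hzK, ← Finset.mul_prod_erase _ _ (Finset.mem_univ j₀), mul_assoc,
      ← Finset.prod_mul_distrib]
    rw [Finset.prod_eq_one, mul_one]
    intro j hj
    rw [← zpow_add₀ (hne1 z hzc j hj)]
    simp
  have hH : Continuous (V.piecewise F1 F2) := continuous_piecewise hagree hF1c hF2c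
  have hH0 : ∀ z, V.piecewise F1 F2 z ≠ 0 := by
    intro z
    by_cases hz : z ∈ V
    · rw [piecewise_eq_of_mem _ _ _ hz]
      apply mul_ne_zero (exp_ne_zero _)
      rw [Finset.prod_ne_zero_iff]
      intro j hj
      exact zpow_ne_zero _ (hne1 z (subset_closure hz) j hj)
    · rw [piecewise_eq_of_notMem _ _ _ hz]
      exact zpow_ne_zero _ (hne2 z hz)
  obtain ⟨L, hL, hL2⟩ := exists_log_plane hH hH0
  obtain ⟨R, hR⟩ := hb.subset_ball (a j₀)
  have hRpos : 0 < R := by
    have := hR haV
    simpa using this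
  apply winding_aux (a := a j₀) hRpos hL
  intro z hz
  rw [hL2]
  have : z ∉ V := by
    intro hzV
    have := hR hzV
    rw [Metric.mem_ball, dist_eq_norm] at this
    linarith
  rw [piecewise_eq_of_notMem _ _ _ this]

/-- the outside of a disc is preconnected -/
lemma isPreconnected_outside {R : ℝ} (hR : 0 < R) : IsPreconnected {z : ℂ | R < ‖z‖} := by
  have : {z : ℂ | R < ‖z‖} = exp '' {z : ℂ | Real.log R < z.re} := by
    ext z
    simp only [mem_ofPred_eq, mem_image]
    constructor
    · intro hz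
      have hz0 : z ≠ 0 := by
        rintro rfl; simp at hz; linarith
      refine ⟨log z, ?_, exp_log hz0⟩
      rw [log_re]
      exact Real.log_lt_log hR hz
    · rintro ⟨w, hw, rfl⟩
      rw [norm_exp]
      rwa [← Real.log_lt_iff_lt_exp hR]
  rw [this]
  exact ((convex_halfSpace_re_gt _).isPreconnected).image _ continuous_exp.continuousOn

/-- there is only one unbounded component -/
lemma mem_cmp_of_unbounded {K : Set ℂ} (hK : IsCompact K) {a b : ℂ}
    (h1 : ¬ Bornology.IsBounded (cmp K a)) (h2 : ¬ Bornology.IsBounded (cmp K b)) :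
    b ∈ cmp K a := by
  obtain ⟨R, hR0, hR⟩ := hK.isBounded.subset_ball_lt 0 0
  have key : ∀ c, ¬ Bornology.IsBounded (cmp K c) → {z : ℂ | R < ‖z‖} ⊆ cmp K c := by
    intro c hc
    have hex : ∃ z ∈ cmp K c, R < ‖z‖ := by
      by_contra hcon
      push Not at hcon
      apply hc
      apply (Metric.isBounded_closedBall (x := (0:ℂ)) (r := R)).subset
      intro z hz
      simpa using hcon z hz
    obtain ⟨z, hz, hzR⟩ := hex
    rw [← cmp_eq hz]
    apply subset_cmp (isPreconnected_outside hR0) hzR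
    rw [Set.disjoint_left]
    intro w hw hwK
    have := hR hwK
    simp at this hw
    linarith
  have hw : ((R + 1 : ℝ) : ℂ) ∈ {z : ℂ | R < ‖z‖} := by
    simp only [mem_ofPred_eq, norm_real, Real.norm_eq_abs]
    rw [abs_of_pos (by linarith)]
    linarith
  have ha := key a h1 hw
  have hb := key b h2 hw
  have hbK : b ∉ K := notMem_of_mem_cmp hb
  have e1 := cmp_eq ha
  have e2 := cmp_eq hb
  rw [← e1, e2]
  exact mem_cmp hbK

/-- Borsuk–Eilenberg, symmetric form. -/
theorem borsuk' {K : Set ℂ} (hK : IsCompact K) {J : Type} [Fintype J] [DecidableEq J] (a : J → ℂ)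
    (k : J → ℤ) (ha : ∀ j, a j ∉ K) (g : ℂ → ℂ) (hg : ContinuousOn g K)
    (hexp : ∀ z ∈ K, exp (g z) = ∏ j, (z - a j) ^ (k j))
    (hd : ∀ i j, i ≠ j → a j ∉ cmp K (a i)) (hsum : ∑ j, k j = 0) :
    ∀ j, k j = 0 := by
  have hb : ∀ j, Bornology.IsBounded (cmp K (a j)) → k j = 0 := fun j hj =>
    borsuk hK a k ha g hg hexp j hj (fun i hi => hd j i (Ne.symm hi))
  intro j
  by_contra hj
  have hjb : ¬ Bornology.IsBounded (cmp K (a j)) := fun h => hj (hb j h)
  apply hj
  rw [← hsum]
  symm
  apply Finset.sum_eq_single j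
  · intro i _ hij
    by_contra hi
    have hib : ¬ Bornology.IsBounded (cmp K (a i)) := fun h => hi (hb i h)
    exact hd j i (Ne.symm hij) (mem_cmp_of_unbounded hK hjb hib)
  · intro h; exact absurd (Finset.mem_univ j) h

end Pool.Agent.W_MP_2cf721_co
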