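import Mathlib

set_option autoImplicit false

/-!
# The counting argument, abstractly
-/

open Finset

namespace Pool.Agent.W_MP_2cf721_co

/-- the combinatorial data of a family of Jordan curves `i : ι`: `Q i` is the set of contact
points on `i`, `side i j` is the side of `i` on which `j` lies. -/
structure Sys (ι α : Type*) [DecidableEq ι] [DecidableEq α] where
  P : Finset α
  Q : ι → Finset α
  sub : ∀ i, Q i ⊆ P
  side : ι → ι → Bool
  A1 : ∀ i j, i ≠ j → ∀ p, p ∈ Q i → p ∈ Q j → ∀ q, q ∈ Q i → q ∈ Q j → p = q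
  A2 : ∀ i j k, j ≠ i → k ≠ i → side i j ≠ side i k → side k i = side k j
  A3 : ∀ i j k p, j ≠ i → k ≠ i → side i j ≠ side i k → p ∈ Q j → p ∈ Q k → p ∈ Q i
  A4 : ∀ M : Finset ι, 3 ≤ M.card →
    (∀ i ∈ M, ∀ j ∈ M, ∀ k ∈ M, j ≠ i → k ≠ i → side i j = side i k) →
    (∀ i ∈ M, ∃ j ∈ M, j ≠ i ∧ ∃ p, p ∈ Q i ∧ p ∈ Q j) →
    2 * (∑ p ∈ P with 2 ≤ #{i ∈ M | p ∈ Q i}, #{i ∈ M | p ∈ Q i}) + 6 ≤
      3 * (M.card + #{p ∈ P | 2 ≤ #{i ∈ M | p ∈ Q i}})

namespace Sys

variable {ι α : Type*} [DecidableEq ι] [DecidableEq α] (S : Sys ι α)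

/-- number of curves of `F` through `p` -/
def deg (F : Finset ι) (p : α) : ℕ := #{i ∈ F | p ∈ S.Q i}

/-- number of empty sides of `i` -/
def e (F : Finset ι) (i : ι) : ℕ := #{s : Bool | ∀ j ∈ F, j ≠ i → S.side i j ≠ s}

/-- number of locally empty sides of `i` at `p` -/
def e1 (F : Finset ι) (i : ι) (p : α) : ℕ :=
  #{s : Bool | ∀ j ∈ F, j ≠ i → p ∈ S.Q j → S.side i j ≠ s}

/-- contact points on side `s` -/
def Ps (F : Finset ι) (i : ι) (s : Bool) : Finset α :=
  {p ∈ S.Q i | ∃ j ∈ F, j ≠ i ∧ p ∈ S.Q j ∧ S.side i j = s}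

def tau (F : Finset ι) (i : ι) : ℕ := #{s : Bool | (S.Ps F i s).card = 1}

def g (F : Finset ι) (p : α) : ℤ :=
  (∑ i ∈ F with p ∈ S.Q i, (1 + (S.e1 F i p : ℤ))) - 3 * (if ∃ i ∈ F, p ∈ S.Q i then 1 else 0)

/-- adjacency -/
def Adj (i j : ι) : Prop := i ≠ j ∧ ∃ p, p ∈ S.Q i ∧ p ∈ S.Q j

lemma Adj.symm {S : Sys ι α} {i j : ι} (h : S.Adj i j) : S.Adj j i :=
  ⟨h.1.symm, h.2.imp fun _ hp => ⟨hp.2, hp.1⟩⟩

/-- connectivity, by cuts -/
def Conn (F : Finset ι) : Prop :=
  ∀ A ⊆ F, A.Nonempty → A ≠ F → ∃ i ∈ A, ∃ j ∈ F, j ∉ A ∧ S.Adj i j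

/-- the curves of `F` on side `s` of `C` -/
def N (F : Finset ι) (C : ι) (s : Bool) : Finset ι := {j ∈ F | j ≠ C ∧ S.side C j = s}

variable {S}

lemma mem_N {F : Finset ι} {C : ι} {s : Bool} {j : ι} :
    j ∈ S.N F C s ↔ j ∈ F ∧ j ≠ C ∧ S.side C j = s := by
  simp [N]

section step

variable {F : Finset ι} {C : ι} {s : Bool}

/-- (a) -/
lemma far_empty (hmin : ∀ D ∈ F, ∀ t, (S.N F D t).Nonempty → (S.N F C s).card ≤ (S.N F D t).card)
    (hC : C ∈ F) {X : ι} (hX : X ∈ S.N F C s) {j : ι} (hj : j ∈ F) (hjX : j ≠ X) :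
    S.side X j = S.side X C := by
  rw [mem_N] at hX
  by_contra hcon
  have hne : (S.N F X (S.side X j)).Nonempty := ⟨j, mem_N.mpr ⟨hj, hjX, rfl⟩⟩
  have h1 := hmin X hX.1 _ hne
  have h2 : S.N F X (S.side X j) ⊂ S.N F C s := by
    rw [Finset.ssubset_iff_of_subset]
    · exact ⟨X, mem_N.mpr hX, fun h => (mem_N.mp h).2.1 rfl⟩
    · intro k hk
      rw [mem_N] at hk ⊢
      have hkC : k ≠ C := by
        rintro rfl
        exact hcon hk.2.2.symm
      refine ⟨hk.1, hkC, ?_⟩
      by_contra h3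
      have := S.A2 C k X hkC hX.2.1 (by rw [hX.2.2]; exact h3)
      exact hcon (by rw [this, hk.2.2])
  exact absurd (Finset.card_lt_card h2) (not_lt.mpr h1)

/-- (b) -/
lemma side_far {X : ι} (hX : X ∈ S.N F C s) {Y : ι} (hY : Y ∈ F) (hYN : Y ∉ S.N F C s)
    (hYC : Y ≠ C) : S.side Y X = S.side Y C := by
  rw [mem_N] at hX hYN
  refine (S.A2 C X Y hX.2.1 hYC ?_).symm
  rw [hX.2.2]
  intro h
  exact hYN ⟨hY, hYC, h.symm⟩

/-- (c) -/
lemma mem_C {X : ι} (hX : X ∈ S.N F C s) {Y : ι} (hY : Y ∈ F) (hYN : Y ∉ S.N F C s)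
    (hYC : Y ≠ C) {p : α} (h1 : p ∈ S.Q X) (h2 : p ∈ S.Q Y) : p ∈ S.Q C := by
  rw [mem_N] at hX hYN
  refine S.A3 C X Y p hX.2.1 hYC ?_ h1 h2
  rw [hX.2.2]
  intro h
  exact hYN ⟨hY, hYC, h.symm⟩

lemma card_bool_singleton {p : Bool → Prop} [DecidablePred p] {s : Bool} (h : ∀ t, p t ↔ t = s) :
    #{t : Bool | p t} = 1 := by
  have : ({t : Bool | p t} : Finset Bool) = {s} := by ext t; simp [h]
  rw [this, card_singleton]

lemma e_le_one {F : Finset ι} {i j : ι} (hj : j ∈ F) (hji : j ≠ i) : S.e F i ≤ 1 := by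
  unfold e
  calc _ ≤ #({!(S.side i j)} : Finset Bool) := by
        apply card_le_card
        intro t ht
        simp only [mem_filter, mem_univ, true_and] at ht
        have := ht j hj hji
        simp only [mem_singleton]
        revert this
        cases S.side i j <;> cases t <;> simp
    _ = 1 := card_singleton _

lemma e_eq_one {F : Finset ι} {i : ι} {t : Bool} (h : ∀ j ∈ F, j ≠ i → S.side i j = t)
    {j : ι} (hj : j ∈ F) (hji : j ≠ i) : S.e F i = 1 := by
  unfold e
  apply card_bool_singleton (s := !t)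
  intro u
  constructor
  · intro h1
    have := h1 j hj hji
    rw [h j hj hji] at this
    revert this
    cases t <;> cases u <;> simp
  · rintro rfl k hk hki
    rw [h k hk hki]
    cases t <;> simp

lemma e1_eq_one {F : Finset ι} {i : ι} {p : α} {t : Bool}
    (h : ∀ j ∈ F, j ≠ i → p ∈ S.Q j → S.side i j = t)
    {j : ι} (hj : j ∈ F) (hji : j ≠ i) (hp : p ∈ S.Q j) : S.e1 F i p = 1 := by
  unfold e1
  apply card_bool_singleton (s := !t)
  intro u
  constructor
  · intro h1
    have := h1 j hj hji hp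
    rw [h j hj hji hp] at this
    revert this
    cases t <;> cases u <;> simp
  · rintro rfl k hk hki hpk
    rw [h k hk hki hpk]
    cases t <;> simp

lemma e1_eq_two {F : Finset ι} {i : ι} {p : α} (h : ∀ j ∈ F, j ≠ i → p ∉ S.Q j) :
    S.e1 F i p = 2 := by
  unfold e1
  rw [Finset.filter_true_of_mem]
  · simp
  · intro t _ j hj hji hp
    exact absurd hp (h j hj hji)

lemma conn_sdiff (hF : S.Conn F) (hC : C ∈ F) : S.Conn (F \ S.N F C s) := by
  have hCF : C ∈ F \ S.N F C s := mem_sdiff.mpr ⟨hC, fun h => (mem_N.mp h).2.1 rfl⟩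
  -- first the case `C ∉ A`
  have key : ∀ A ⊆ F \ S.N F C s, A.Nonempty → C ∉ A →
      ∃ i ∈ A, ∃ j ∈ F \ S.N F C s, j ∉ A ∧ S.Adj i j := by
    intro A hA hne hCA
    obtain ⟨i, hi, j, hj, hjA, hij⟩ := hF A (hA.trans sdiff_subset) hne
      (fun h => hCA (h ▸ hC))
    have hiF := mem_sdiff.mp (hA hi)
    by_cases hjN : j ∈ S.N F C s
    · obtain ⟨hne, p, hp1, hp2⟩ := hij
      have hiC : i ≠ C := fun h => hCA (h ▸ hi)
      exact ⟨i, hi, C, hCF, hCA, hiC, p, hp1, mem_C hjN hiF.1 hiF.2 hiC hp2 hp1⟩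
    · exact ⟨i, hi, j, mem_sdiff.mpr ⟨hj, hjN⟩, hjA, hij⟩
  intro A hA hne hAF
  by_cases hCA : C ∈ A
  · have h1 : ((F \ S.N F C s) \ A).Nonempty := by
      rw [sdiff_nonempty]
      exact fun h => hAF (Subset.antisymm hA h)
    obtain ⟨i, hi, j, hj, hjA, hij⟩ := key _ sdiff_subset h1 (fun h => (mem_sdiff.mp h).2 hCA)
    have hjA' : j ∈ A := by
      by_contra h
      exact hjA (mem_sdiff.mpr ⟨hj, h⟩)
    exact ⟨j, hjA', i, (mem_sdiff.mp hi).1, (mem_sdiff.mp hi).2, hij.symm⟩
  · exact key A hA hne hCA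

lemma e_C (hN : (S.N F C s).Nonempty) : S.e (F \ S.N F C s) C = S.e F C + 1 := by
  unfold e
  have : ({t : Bool | ∀ j ∈ F \ S.N F C s, j ≠ C → S.side C j ≠ t} : Finset Bool) =
      insert s ({t : Bool | ∀ j ∈ F, j ≠ C → S.side C j ≠ t} : Finset Bool) := by
    ext t
    simp only [mem_filter, mem_univ, true_and, mem_insert, mem_sdiff, mem_N]
    constructor
    · intro h
      by_cases hts : t = s
      · exact Or.inl hts
      · right
        intro j hj hjC h1
        refine h j ⟨hj, fun h2 => hts (h1.symm.trans h2.2.2)⟩ hjC h1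
    · rintro (rfl | h) j ⟨hj, hj2⟩ hjC
      · exact fun h => hj2 ⟨hj, hjC, h⟩
      · exact h j hj hjC
  rw [this, card_insert_of_notMem]
  simp only [mem_filter, mem_univ, true_and]
  obtain ⟨X, hX⟩ := hN
  rw [mem_N] at hX
  exact fun h => h X hX.1 hX.2.1 hX.2.2

lemma e_Y (hC : C ∈ F) {Y : ι} (hY : Y ∈ F \ S.N F C s) (hYC : Y ≠ C) :
    S.e (F \ S.N F C s) Y = S.e F Y := by
  unfold e
  congr 1
  ext t
  simp only [mem_filter, mem_univ, true_and]
  rw [mem_sdiff] at hY
  constructor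
  · intro h j hj hjY
    by_cases hjN : j ∈ S.N F C s
    · rw [side_far hjN hY.1 hY.2 hYC]
      exact h C (mem_sdiff.mpr ⟨hC, fun h => (mem_N.mp h).2.1 rfl⟩) hYC.symm
    · exact h j (mem_sdiff.mpr ⟨hj, hjN⟩) hjY
  · intro h j hj hjY
    exact h j (mem_sdiff.mp hj).1 hjY

lemma e1_C {p : α} (hN : ∃ X ∈ S.N F C s, p ∈ S.Q X) :
    S.e1 (F \ S.N F C s) C p = S.e1 F C p + 1 := by
  unfold e1
  have : ({t : Bool | ∀ j ∈ F \ S.N F C s, j ≠ C → p ∈ S.Q j → S.side C j ≠ t} : Finset Bool) =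
      insert s ({t : Bool | ∀ j ∈ F, j ≠ C → p ∈ S.Q j → S.side C j ≠ t} : Finset Bool) := by
    ext t
    simp only [mem_filter, mem_univ, true_and, mem_insert, mem_sdiff, mem_N]
    constructor
    · intro h
      by_cases hts : t = s
      · exact Or.inl hts
      · right
        intro j hj hjC hp h1
        refine h j ⟨hj, fun h2 => hts (h1.symm.trans h2.2.2)⟩ hjC hp h1
    · rintro (rfl | h) j ⟨hj, hj2⟩ hjC hp
      · exact fun h => hj2 ⟨hj, hjC, h⟩
      · exact h j hj hjC hp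
  rw [this, card_insert_of_notMem]
  simp only [mem_filter, mem_univ, true_and]
  obtain ⟨X, hX, hp⟩ := hN
  rw [mem_N] at hX
  exact fun h => h X hX.1 hX.2.1 hp hX.2.2

lemma e1_C' {p : α} (hN : ∀ X ∈ S.N F C s, p ∉ S.Q X) {Y : ι} :
    S.e1 (F \ S.N F C s) Y p = S.e1 F Y p := by
  unfold e1
  congr 1
  ext t
  simp only [mem_filter, mem_univ, true_and]
  constructor
  · intro h j hj hjY hp
    exact h j (mem_sdiff.mpr ⟨hj, fun hjN => hN j hjN hp⟩) hjY hp
  · intro h j hj hjY
    exact h j (mem_sdiff.mp hj).1 hjY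

lemma e1_Y (hC : C ∈ F) {Y : ι} (hY : Y ∈ F \ S.N F C s) (hYC : Y ≠ C) {p : α}
    (hp : p ∈ S.Q Y) : S.e1 (F \ S.N F C s) Y p = S.e1 F Y p := by
  unfold e1
  congr 1
  ext t
  simp only [mem_filter, mem_univ, true_and]
  rw [mem_sdiff] at hY
  constructor
  · intro h j hj hjY hpj
    by_cases hjN : j ∈ S.N F C s
    · rw [side_far hjN hY.1 hY.2 hYC]
      exact h C (mem_sdiff.mpr ⟨hC, fun h => (mem_N.mp h).2.1 rfl⟩) hYC.symm
        (mem_C hjN hY.1 hY.2 hYC hpj hp)
    · exact h j (mem_sdiff.mpr ⟨hj, hjN⟩) hjY hpj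
  · intro h j hj hjY
    exact h j (mem_sdiff.mp hj).1 hjY

lemma Ps_Y (hC : C ∈ F) {Y : ι} (hY : Y ∈ F \ S.N F C s) (hYC : Y ≠ C) (t : Bool) :
    S.Ps (F \ S.N F C s) Y t = S.Ps F Y t := by
  unfold Ps
  apply filter_congr
  intro p hp
  have hY' := mem_sdiff.mp hY
  constructor
  · rintro ⟨j, hj, h⟩
    exact ⟨j, (mem_sdiff.mp hj).1, h⟩
  · rintro ⟨j, hj, hjY, hpj, hs⟩
    by_cases hjN : j ∈ S.N F C s
    · refine ⟨C, mem_sdiff.mpr ⟨hC, fun h => (mem_N.mp h).2.1 rfl⟩, hYC.symm,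
        mem_C hjN hY'.1 hY'.2 hYC hpj hp, ?_⟩
      rw [← side_far hjN hY'.1 hY'.2 hYC, hs]
    · exact ⟨j, mem_sdiff.mpr ⟨hj, hjN⟩, hjY, hpj, hs⟩

lemma Ps_C_s : S.Ps (F \ S.N F C s) C s = ∅ := by
  unfold Ps
  apply filter_false_of_mem
  rintro p - ⟨j, hj, hjC, -, h⟩
  rw [mem_sdiff, mem_N] at hj
  exact hj.2 ⟨hj.1, hjC, h⟩

lemma Ps_C_t {t : Bool} (ht : t ≠ s) : S.Ps (F \ S.N F C s) C t = S.Ps F C t := by
  unfold Ps
  apply filter_congr
  rintro p -
  constructor
  · rintro ⟨j, hj, h⟩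
    exact ⟨j, (mem_sdiff.mp hj).1, h⟩
  · rintro ⟨j, hj, hjC, hpj, hs⟩
    refine ⟨j, mem_sdiff.mpr ⟨hj, fun h => ?_⟩, hjC, hpj, hs⟩
    exact ht (hs.symm.trans (mem_N.mp h).2.2)

lemma tau_Y (hC : C ∈ F) {Y : ι} (hY : Y ∈ F \ S.N F C s) (hYC : Y ≠ C) :
    S.tau (F \ S.N F C s) Y = S.tau F Y := by
  unfold tau
  simp only [Ps_Y hC hY hYC]

lemma tau_C : S.tau (F \ S.N F C s) C + (if (S.Ps F C s).card = 1 then 1 else 0) = S.tau F C := by
  unfold tau
  have h : ∀ G : Finset ι, #{t : Bool | (S.Ps G C t).card = 1} =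
      (if (S.Ps G C s).card = 1 then 1 else 0) + (if (S.Ps G C (!s)).card = 1 then 1 else 0) := by
    intro G
    rw [card_filter]
    have : (univ : Finset Bool) = {s, !s} := by cases s <;> decide
    rw [this, sum_pair (by cases s <;> decide)]
  rw [h, h, Ps_C_s, Ps_C_t (by cases s <;> decide)]
  simp only [card_empty]
  norm_num
  exact Nat.add_comm _ _

lemma deg_insert {M : Finset ι} (hCM : C ∉ M) (p : α) :
    S.deg (insert C M) p = (if p ∈ S.Q C then 1 else 0) + S.deg M p := by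
  unfold deg
  rw [card_filter, card_filter, sum_insert hCM]

lemma g_step (hmin : ∀ D ∈ F, ∀ t, (S.N F D t).Nonempty → (S.N F C s).card ≤ (S.N F D t).card)
    (hC : C ∈ F) (p : α) :
    S.g F p = S.g (F \ S.N F C s) p +
      (if 2 ≤ S.deg (insert C (S.N F C s)) p then
        2 * (S.deg (insert C (S.N F C s)) p : ℤ) - 3 else 0) := by
  have hNF : S.N F C s ⊆ F := fun j hj => (mem_N.mp hj).1
  have hCN : C ∉ S.N F C s := fun h => (mem_N.mp h).2.1 rfl
  have hCF : C ∈ F \ S.N F C s := mem_sdiff.mpr ⟨hC, hCN⟩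
  rw [deg_insert hCN]
  unfold g
  rw [sum_filter, ← sum_sdiff hNF, sum_filter]
  by_cases hN : ∃ X ∈ S.N F C s, p ∈ S.Q X
  · obtain ⟨X, hX, hpX⟩ := hN
    have hXF := hNF hX
    have hXC : X ≠ C := (mem_N.mp hX).2.1
    have hdeg : 1 ≤ S.deg (S.N F C s) p :=
      card_pos.mpr ⟨X, mem_filter.mpr ⟨hX, hpX⟩⟩
    -- the sum over `N` when all terms are 2
    have hsum : (∀ Y ∈ S.N F C s, p ∈ S.Q Y → S.e1 F Y p = 1) →
        (∑ i ∈ S.N F C s, (if p ∈ S.Q i then (1 + (S.e1 F i p : ℤ)) else 0)) =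
          2 * (S.deg (S.N F C s) p : ℤ) := by
      intro h
      unfold deg
      rw [card_filter]
      push_cast
      rw [mul_sum]
      apply sum_congr rfl
      intro Y hY
      split_ifs with hp
      · rw [h Y hY hp]; norm_num
      · norm_num
    have hex : ∃ i ∈ F, p ∈ S.Q i := ⟨X, hXF, hpX⟩
    rw [if_pos hex]
    by_cases hpC : p ∈ S.Q C
    · have h1 := hsum (fun Y hY hp => e1_eq_one
        (fun j hj hjY _ => far_empty hmin hC hY hj hjY) hC (mem_N.mp hY).2.1.symm hpC)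
      rw [h1, if_pos (⟨C, hCF, hpC⟩ : ∃ i ∈ F \ S.N F C s, p ∈ S.Q i), if_pos hpC,
        if_pos (by omega)]
      have h2 : (∑ i ∈ F \ S.N F C s, (if p ∈ S.Q i then (1 + (S.e1 F i p : ℤ)) else 0)) + 1 =
          ∑ i ∈ F \ S.N F C s, (if p ∈ S.Q i then (1 + (S.e1 (F \ S.N F C s) i p : ℤ)) else 0) := by
        rw [← add_sum_erase _ _ hCF, ← add_sum_erase _ _ hCF, if_pos hpC, if_pos hpC,
          e1_C ⟨X, hX, hpX⟩]
        have : ∀ i ∈ (F \ S.N F C s).erase C, (if p ∈ S.Q i then (1 + (S.e1 F i p : ℤ)) else 0) =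
            (if p ∈ S.Q i then (1 + (S.e1 (F \ S.N F C s) i p : ℤ)) else 0) := by
          intro i hi
          rw [mem_erase] at hi
          split_ifs with hp
          · rw [e1_Y hC hi.2 hi.1 hp]
          · rfl
        rw [sum_congr rfl this]
        push_cast
        ring
      push_cast
      linarith
    · have hno : ∀ Y ∈ F \ S.N F C s, p ∉ S.Q Y := by
        intro Y hY hp
        have hY' := mem_sdiff.mp hY
        by_cases hYC : Y = C
        · exact hpC (hYC ▸ hp)
        · exact hpC (mem_C hX hY'.1 hY'.2 hYC hpX hp)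
      have hz : ∀ f : ι → ℤ, ∑ i ∈ F \ S.N F C s, (if p ∈ S.Q i then f i else 0) = 0 := by
        intro f
        apply sum_eq_zero
        intro i hi
        rw [if_neg (hno i hi)]
      rw [hz, hz, if_neg (fun ⟨i, hi, hp⟩ => hno i hi hp), if_neg hpC]
      by_cases hd : 2 ≤ S.deg (S.N F C s) p
      · rw [if_pos (by omega)]
        have h1 := hsum (fun Y hY hp => by
          have hex : ∃ Z ∈ S.N F C s, p ∈ S.Q Z ∧ Z ≠ Y := by
            by_contra hcon
            push Not at hcon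
            have : S.deg (S.N F C s) p ≤ 1 := by
              unfold deg
              rw [card_le_one]
              intro a ha b hb
              rw [mem_filter] at ha hb
              rw [hcon a ha.1 ha.2, hcon b hb.1 hb.2]
            omega
          obtain ⟨Z, hZ, hpZ, hZY⟩ := hex
          exact e1_eq_one (fun j hj hjY _ => far_empty hmin hC hY hj hjY) (hNF hZ) hZY hpZ)
        rw [h1]
        push_cast
        ring
      · rw [if_neg (by omega)]
        have hone : ∀ Z ∈ S.N F C s, p ∈ S.Q Z → Z = X := by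
          intro Z hZ hp
          by_contra hZX
          apply hd
          unfold deg
          have : ({Z, X} : Finset ι) ⊆ {i ∈ S.N F C s | p ∈ S.Q i} := by
            intro a ha
            simp only [mem_insert, mem_singleton] at ha
            rcases ha with rfl | rfl
            · exact mem_filter.mpr ⟨hZ, hp⟩
            · exact mem_filter.mpr ⟨hX, hpX⟩
          calc 2 = #({Z, X} : Finset ι) := (card_pair hZX).symm
            _ ≤ _ := card_le_card this
        have h2 : S.e1 F X p = 2 := by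
          apply e1_eq_two
          intro j hj hjX hp
          by_cases hjN : j ∈ S.N F C s
          · exact hjX (hone j hjN hp)
          · exact hno j (mem_sdiff.mpr ⟨hj, hjN⟩) hp
        have h3 : (∑ i ∈ S.N F C s, (if p ∈ S.Q i then (1 + (S.e1 F i p : ℤ)) else 0)) = 3 := by
          rw [sum_eq_single X]
          · rw [if_pos hpX, h2]; norm_num
          · intro Z hZ hZX
            rw [if_neg (fun hp => hZX (hone Z hZ hp))]
          · exact fun h => absurd hX h
        rw [h3]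
        norm_num
  · push Not at hN
    have h1 : (∑ i ∈ S.N F C s, (if p ∈ S.Q i then (1 + (S.e1 F i p : ℤ)) else 0)) = 0 := by
      apply sum_eq_zero
      intro i hi
      rw [if_neg (hN i hi)]
    have h2 : S.deg (S.N F C s) p = 0 := by
      unfold deg
      rw [card_eq_zero, filter_eq_empty_iff]
      exact fun i hi => hN i hi
    have h3 : (∃ i ∈ F, p ∈ S.Q i) ↔ (∃ i ∈ F \ S.N F C s, p ∈ S.Q i) := by
      constructor
      · rintro ⟨i, hi, hp⟩
        exact ⟨i, mem_sdiff.mpr ⟨hi, fun h => hN i h hp⟩, hp⟩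
      · rintro ⟨i, hi, hp⟩
        exact ⟨i, (mem_sdiff.mp hi).1, hp⟩
    have h4 : ¬ 2 ≤ (if p ∈ S.Q C then 1 else 0) + 0 := by split_ifs <;> omega
    rw [h1, h2, if_neg h4]
    simp only [e1_C' hN, h3]
    ring

end step

open Classical in
/-- the refined Euler inequality -/
theorem main_ineq : ∀ (n : ℕ) (F : Finset ι), F.card = n → F.Nonempty → S.Conn F →
    2 * ∑ p ∈ S.P, S.g F p + 12 ≤ ∑ i ∈ F, (6 * (S.e F i : ℤ) + S.tau F i) := by
  intro n
  induction n using Nat.strong_induction_on with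
  | _ n ih =>
  intro F hn hne hF
  by_cases h1 : F.card = 1
  · obtain ⟨C, rfl⟩ := card_eq_one.mp h1
    have he : S.e {C} C = 2 := by
      unfold e
      rw [Finset.filter_true_of_mem]
      · simp
      · intro t _ j hj hji
        exact absurd (mem_singleton.mp hj) hji
    have hg : ∀ p, S.g {C} p = 0 := by
      intro p
      unfold g
      by_cases hp : p ∈ S.Q C
      · rw [if_pos ⟨C, mem_singleton_self C, hp⟩, sum_filter, sum_singleton, if_pos hp,
          e1_eq_two (fun j hj hji => absurd (mem_singleton.mp hj) hji)]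
        norm_num
      · rw [if_neg, sum_filter, sum_singleton, if_neg hp]
        · norm_num
        · rintro ⟨i, hi, h⟩
          rw [mem_singleton.mp hi] at h
          exact hp h
    rw [sum_singleton, he, sum_eq_zero (fun p _ => hg p)]
    push_cast
    omega
  · have h2 : 2 ≤ F.card := by
      have := hne.card_pos
      omega
    -- choose the minimal nonempty `N`
    obtain ⟨C, s, hC, hNne, hmin⟩ : ∃ C s, C ∈ F ∧ (S.N F C s).Nonempty ∧
        ∀ D ∈ F, ∀ t, (S.N F D t).Nonempty → (S.N F C s).card ≤ (S.N F D t).card := by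
      have hex : ∃ m : ℕ, ∃ C s, C ∈ F ∧ (S.N F C s).Nonempty ∧ (S.N F C s).card = m := by
        obtain ⟨a, ha, b, hb, hab⟩ := one_lt_card.mp (by omega : 1 < F.card)
        exact ⟨_, a, S.side a b, ha, ⟨b, mem_N.mpr ⟨hb, hab.symm, rfl⟩⟩, rfl⟩
      obtain ⟨C, s, hC, hN, hm⟩ := Nat.find_spec hex
      refine ⟨C, s, hC, hN, fun D hD t ht => ?_⟩
      rw [hm]
      exact Nat.find_min' hex ⟨D, t, hD, ht, rfl⟩
    have hNF : S.N F C s ⊆ F := fun j hj => (mem_N.mp hj).1
    have hCN : C ∉ S.N F C s := fun h => (mem_N.mp h).2.1 rfl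
    have hCF : C ∈ F \ S.N F C s := mem_sdiff.mpr ⟨hC, hCN⟩
    have hcard : (F \ S.N F C s).card < n := by
      rw [← hn, card_sdiff_of_subset hNF]
      have := hNne.card_pos
      have := card_le_card hNF
      omega
    have hih := ih _ hcard _ rfl ⟨C, hCF⟩ (conn_sdiff hF hC)
    -- the sums
    have hgs : ∑ p ∈ S.P, S.g F p = ∑ p ∈ S.P, S.g (F \ S.N F C s) p +
        ∑ p ∈ S.P, (if 2 ≤ S.deg (insert C (S.N F C s)) p then
        2 * (S.deg (insert C (S.N F C s)) p : ℤ) - 3 else 0) := by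
      rw [← sum_add_distrib]
      exact sum_congr rfl fun p _ => g_step hmin hC p
    have heN : ∀ X ∈ S.N F C s, S.e F X = 1 := fun X hX =>
      e_eq_one (fun j hj hjX => far_empty hmin hC hX hj hjX) hC (mem_N.mp hX).2.1.symm
    have hes : ∑ i ∈ F, (6 * (S.e F i : ℤ) + S.tau F i) + 6 =
        ∑ i ∈ F \ S.N F C s, (6 * (S.e (F \ S.N F C s) i : ℤ) + S.tau (F \ S.N F C s) i) +
        6 * (S.N F C s).card + ∑ X ∈ S.N F C s, (S.tau F X : ℤ) +
        (if (S.Ps F C s).card = 1 then 1 else 0) := by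
      rw [← sum_sdiff hNF, ← add_sum_erase _ _ hCF, ← add_sum_erase _ _ hCF, e_C hNne, ← tau_C]
      have h3 : ∀ i ∈ (F \ S.N F C s).erase C, (6 * (S.e F i : ℤ) + S.tau F i) =
          (6 * (S.e (F \ S.N F C s) i : ℤ) + S.tau (F \ S.N F C s) i) := by
        intro i hi
        rw [mem_erase] at hi
        rw [e_Y hC hi.2 hi.1, tau_Y hC hi.2 hi.1]
      have h4 : ∑ X ∈ S.N F C s, (6 * (S.e F X : ℤ) + S.tau F X) =
          6 * (S.N F C s).card + ∑ X ∈ S.N F C s, (S.tau F X : ℤ) := by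
        rw [sum_add_distrib]
        congr 1
        rw [sum_congr rfl (fun X hX => by rw [heN X hX])]
        simp [mul_comm]
      rw [sum_congr rfl h3, h4]
      push_cast
      ring
    -- every member of `N` touches `C`
    have hadjC : ∀ X ∈ S.N F C s, (∃ j ∈ F, S.Adj X j) →
        ∃ j ∈ insert C (S.N F C s), j ≠ X ∧ ∃ p, p ∈ S.Q X ∧ p ∈ S.Q j := by
      rintro X hX ⟨j, hj, hne, p, hp1, hp2⟩
      by_cases hjN : j ∈ S.N F C s
      · exact ⟨j, mem_insert_of_mem hjN, hne.symm, p, hp1, hp2⟩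
      · refine ⟨C, mem_insert_self _ _, (mem_N.mp hX).2.1.symm, p, hp1, ?_⟩
        by_cases hjC : j = C
        · exact hjC ▸ hp2
        · exact mem_C hX hj hjN hjC hp1 hp2
    have hnb : ∀ X ∈ F, ∃ j ∈ F, S.Adj X j := by
      intro X hX
      obtain ⟨i, hi, j, hj, -, hij⟩ := hF {X} (singleton_subset_iff.mpr hX) (singleton_nonempty X)
        (fun h => h1 (by rw [← h, card_singleton]))
      rw [mem_singleton] at hi
      exact ⟨j, hj, hi ▸ hij⟩
    -- some member of `N` touches `C`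
    have hCadj : ∃ X ∈ S.N F C s, ∃ p, p ∈ S.Q C ∧ p ∈ S.Q X := by
      obtain ⟨i, hi, j, hj, hjN, hne, p, hp1, hp2⟩ := hF _ hNF hNne
        (fun h => hCN (h.symm ▸ hC))
      refine ⟨i, hi, p, ?_, hp1⟩
      by_cases hjC : j = C
      · exact hjC ▸ hp2
      · exact mem_C hi hj hjN hjC hp1 hp2
    have hcM : (insert C (S.N F C s)).card = (S.N F C s).card + 1 := card_insert_of_notMem hCN
    have hτ0 : 0 ≤ ∑ X ∈ S.N F C s, (S.tau F X : ℤ) := sum_nonneg fun _ _ => by positivity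
    have hfl : ∑ p ∈ S.P, (if 2 ≤ S.deg (insert C (S.N F C s)) p then
        2 * (S.deg (insert C (S.N F C s)) p : ℤ) - 3 else 0) =
        2 * (∑ p ∈ S.P with 2 ≤ S.deg (insert C (S.N F C s)) p,
          (S.deg (insert C (S.N F C s)) p : ℤ)) -
        3 * #{p ∈ S.P | 2 ≤ S.deg (insert C (S.N F C s)) p} := by
      rw [← sum_filter, sum_sub_distrib, mul_sum]
      congr 1
      simp [mul_comm]
    by_cases hm : 2 ≤ (S.N F C s).card
    · have h5 := S.A4 (insert C (S.N F C s)) (by omega) (by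
        intro i hi j hj k hk hji hki
        rw [mem_insert] at hi
        rcases hi with rfl | hi
        · rw [mem_insert] at hj hk
          rw [(mem_N.mp (hj.resolve_left hji)).2.2, (mem_N.mp (hk.resolve_left hki)).2.2]
        · have hsub : insert C (S.N F C s) ⊆ F := insert_subset hC hNF
          rw [far_empty hmin hC hi (hsub hj) hji, far_empty hmin hC hi (hsub hk) hki]) (by
        intro i hi
        rw [mem_insert] at hi
        rcases hi with rfl | hi
        · obtain ⟨X, hX, p, hp1, hp2⟩ := hCadj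
          exact ⟨X, mem_insert_of_mem hX, (mem_N.mp hX).2.1, p, hp1, hp2⟩
        · exact hadjC i hi (hnb i (hNF hi)))
      rw [hcM] at h5
      have h5' : 2 * (∑ p ∈ S.P with 2 ≤ S.deg (insert C (S.N F C s)) p,
          (S.deg (insert C (S.N F C s)) p : ℤ)) + 6 ≤ 3 * ((S.N F C s).card + 1 +
          #{p ∈ S.P | 2 ≤ S.deg (insert C (S.N F C s)) p}) := by
        exact_mod_cast h5
      have h6 : (0:ℤ) ≤ (if (S.Ps F C s).card = 1 then 1 else 0) := by split_ifs <;> norm_num
      rw [hgs, hfl]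
      linarith
    · have hm1 : (S.N F C s).card = 1 := by
        have := hNne.card_pos
        omega
      obtain ⟨X, hXe⟩ := card_eq_one.mp hm1
      obtain ⟨X', hX', p, hpC, hpX⟩ := hCadj
      have hXX : X' = X := by rw [hXe] at hX'; exact mem_singleton.mp hX'
      subst hXX
      have hXC : X' ≠ C := (mem_N.mp hX').2.1
      have h6 : (S.Ps F C s).card = 1 := by
        rw [card_eq_one]
        refine ⟨p, ?_⟩
        ext q
        simp only [Ps, mem_filter, mem_singleton]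
        constructor
        · rintro ⟨hq, j, hj, hjC, hqj, hs⟩
          have : j = X' := by
            have h : j ∈ S.N F C s := mem_N.mpr ⟨hj, hjC, hs⟩
            rw [hXe] at h
            exact mem_singleton.mp h
          subst this
          exact S.A1 j C hXC q hqj hq p hpX hpC
        · rintro rfl
          exact ⟨hpC, X', hNF hX', hXC, hpX, (mem_N.mp hX').2.2⟩
      have h7 : 1 ≤ S.tau F X' := by
        unfold tau
        rw [Nat.one_le_iff_ne_zero, ← Nat.pos_iff_ne_zero, card_pos]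
        refine ⟨S.side X' C, mem_filter.mpr ⟨mem_univ _, ?_⟩⟩
        rw [card_eq_one]
        refine ⟨p, ?_⟩
        ext q
        simp only [Ps, mem_filter, mem_singleton]
        constructor
        · rintro ⟨hq, j, hj, hjX, hqj, -⟩
          have hqC : q ∈ S.Q C := by
            by_cases hjC : j = C
            · exact hjC ▸ hqj
            · refine mem_C hX' hj ?_ hjC hq hqj
              rw [hXe, mem_singleton]
              exact hjX
          exact S.A1 X' C hXC q hq hqC p hpX hpC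
        · rintro rfl
          exact ⟨hpX, C, hC, hXC.symm, hpC, rfl⟩
      rw [hXe, sum_singleton, ← hXe, hm1, if_pos h6] at hes
      rw [Nat.cast_one, mul_one] at hes
      have h8 : ∑ p ∈ S.P, (if 2 ≤ S.deg (insert C (S.N F C s)) p then
          2 * (S.deg (insert C (S.N F C s)) p : ℤ) - 3 else 0) ≤ 1 := by
        rw [sum_eq_single p]
        · have h9 : S.deg (insert C (S.N F C s)) p ≤ 2 := by
            unfold deg
            calc _ ≤ (insert C (S.N F C s)).card := card_filter_le _ _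
              _ = 2 := by rw [hcM, hm1]
          have h9' : (S.deg (insert C (S.N F C s)) p : ℤ) ≤ 2 := by exact_mod_cast h9
          split_ifs <;> linarith
        · intro q _ hqp
          rw [if_neg]
          intro h2
          unfold deg at h2
          have h10 : q ∈ S.Q C ∧ q ∈ S.Q X' := by
            have h11 : #{i ∈ insert C (S.N F C s) | q ∈ S.Q i} = (insert C (S.N F C s)).card := by
              apply le_antisymm (card_filter_le _ _)
              rw [hcM, hm1]
              exact h2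
            rw [card_filter_eq_iff] at h11
            exact ⟨h11 C (mem_insert_self _ _), h11 X' (mem_insert_of_mem hX')⟩
          exact hqp (S.A1 X' C hXC q h10.2 h10.1 p hpX hpC)
        · intro h
          exact absurd (S.sub _ hpC) h
      rw [hgs]
      have h7' : (1:ℤ) ≤ S.tau F X' := by exact_mod_cast h7
      linarith

end Sys

end Pool.Agent.W_MP_2cf721_co
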