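import Pool.Agent.W_MP_2cf721_co.Region

set_option autoImplicit false

/-!
# The inequality for mutually facing curves: counting
-/

open Set Topology Complex

namespace Pool.Agent.W_MP_2cf721_co

namespace Cfg

variable {ι : Type} [Fintype ι] [DecidableEq ι] (X : Cfg ι)

/-- an additional point on the first arc -/
noncomputable def r (i : ι) : ℝ := nxt (X.T i) 0 / 2

noncomputable def T' (i : ι) : Finset ℝ := insert (X.r i) (X.T i)

variable {X}

lemma r_pos (i : ι) : 0 < X.r i := by
  have := lt_nxt (T := X.T i) (t := 0) zero_lt_one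
  unfold r; linarith

lemma r_lt (i : ι) : X.r i < nxt (X.T i) 0 := by
  have := lt_nxt (T := X.T i) (t := 0) zero_lt_one
  unfold r; linarith

lemma r_lt_one (i : ι) : X.r i < 1 := (r_lt i).trans_le (nxt_le_one zero_lt_one)

lemma r_notMem (i : ι) : X.r i ∉ X.T i := fun h =>
  notMem_Ioo_nxt (T := X.T i) (t := 0) zero_lt_one h ⟨r_pos i, r_lt i⟩

lemma T'_lt {i : ι} {t : ℝ} (ht : t ∈ X.T' i) : t < 1 := by
  rcases Finset.mem_insert.mp ht with rfl | h
  · exact r_lt_one i
  · exact T_lt h

lemma T'_nonneg {i : ι} {t : ℝ} (ht : t ∈ X.T' i) : 0 ≤ t := by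
  rcases Finset.mem_insert.mp ht with rfl | h
  · exact (r_pos i).le
  · exact T_nonneg h

lemma zero_mem_T' (i : ι) : (0:ℝ) ∈ X.T' i := Finset.mem_insert_of_mem (zero_mem_T i)

lemma card_T (i : ι) [DecidablePred (fun p => p ∈ X.J i)] :
    (X.T i).card = (X.P.filter (fun p => p ∈ X.J i)).card := by
  classical
  have h1 : (X.P.filter (fun p => p ∈ X.J i)) = (X.T i).image (X.c i) := by
    ext p
    simp only [Finset.mem_filter, Finset.mem_image]
    constructor
    · rintro ⟨hp, hpi⟩
      rw [← X.hc i, (X.loop i).img_eq] at hpi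
      obtain ⟨t, ht, rfl⟩ := hpi
      exact ⟨t, (X.hT i t).mpr ⟨ht, hp⟩, rfl⟩
    · rintro ⟨t, ht, rfl⟩
      have := (X.hT i t).mp ht
      exact ⟨this.2, c_mem i ⟨this.1.1, this.1.2.le⟩⟩
  rw [h1, Finset.card_image_of_injOn]
  intro s hs t ht hst
  exact (X.loop i).injOn_Ico ((X.hT i s).mp hs).1 ((X.hT i t).mp ht).1 hst

lemma exists_reps : ∃ S : Finset ℂ, Reps X.U S ∧
    (∑ i, (X.T i).card) + 2 ≤ S.card + X.P.card := by
  classical
  let E : Type := Σ i : ι, {t // t ∈ X.T' i}
  let e : E → ℝ → ℂ := fun a => sub (X.c a.1) a.2 (nxt (X.T' a.1) a.2)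
  let V : Finset ℂ := X.P ∪ Finset.univ.image (fun i => X.c i (X.r i))
  have hlt : ∀ a : E, (a.2 : ℝ) < nxt (X.T' a.1) a.2 := fun a => lt_nxt (T'_lt a.2.2)
  have h0 : ∀ a : E, (0:ℝ) ≤ a.2 := fun a => T'_nonneg a.2.2
  have h1 : ∀ a : E, nxt (X.T' a.1) a.2 ≤ 1 := fun a => nxt_le_one (T'_lt a.2.2)
  have hcV : ∀ i, ∀ t ∈ X.T' i, X.c i t ∈ V := by
    intro i t ht
    rcases Finset.mem_insert.mp ht with rfl | h
    · exact Finset.mem_union_right _ (Finset.mem_image.mpr ⟨i, Finset.mem_univ _, rfl⟩)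
    · exact Finset.mem_union_left _ ((X.hT i t).mp h).2
  have hun : (⋃ a : E, img (e a)) = X.U := by
    apply subset_antisymm
    · apply iUnion_subset
      intro a
      simp only [e]
      rw [img_sub _ (hlt a).le]
      rintro _ ⟨u, hu, rfl⟩
      exact J_subset a.1 (c_mem a.1 ⟨(h0 a).trans hu.1, hu.2.trans (h1 a)⟩)
    · intro z hz
      obtain ⟨i, hi⟩ := mem_iUnion.mp hz
      rw [← X.hc i, (X.loop i).img_eq] at hi
      obtain ⟨u, hu, rfl⟩ := hi
      obtain ⟨t, ht, htu, hut⟩ := exists_nxt (zero_mem_T' (X := X) i) (fun s hs => T'_lt hs)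
        hu.1 hu.2
      refine mem_iUnion.mpr ⟨⟨i, t, ht⟩, ?_⟩
      simp only [e]
      rw [img_sub _ (htu.trans hut.le)]
      exact ⟨u, ⟨htu, hut.le⟩, rfl⟩
  obtain ⟨S, hS, hcard⟩ := euler_lower e
    (fun a => continuousOn_sub (X.loop a.1).cont (h0 a) (hlt a).le (h1 a)) V
    (by
      obtain ⟨i⟩ : Nonempty ι := Fintype.card_pos_iff.mp (by have := X.hcard; omega)
      exact ⟨_, Finset.mem_union_left _ (X.hc0 i)⟩)
    (fun a => by simp only [e]; rw [sub_zero']; exact hcV _ _ a.2.2)
    (fun a => by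
      simp only [e]; rw [sub_one']
      rcases nxt_mem' (T := X.T' a.1) (T'_lt a.2.2) with h | h
      · rw [h, ← (X.loop a.1).closed]
        exact hcV _ _ (zero_mem_T' a.1)
      · exact hcV _ _ h)
    (fun a h => by
      simp only [e] at h
      rw [sub_zero', sub_one'] at h
      rcases (X.loop a.1).inj _ ⟨h0 a, (T'_lt a.2.2).le⟩ _ ⟨(h0 a).trans (hlt a).le, h1 a⟩ h with
        h | ⟨h2, h3⟩ | ⟨h2, -⟩
      · exact (hlt a).ne h
      · have h4 := nxt_le (T := X.T' a.1) (T'_lt a.2.2)
          (Or.inr (Finset.mem_insert_self (X.r a.1) (X.T a.1))) (by rw [h2]; exact r_pos a.1)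
        rw [h3] at h4
        exact absurd (r_lt_one a.1) (not_lt.mpr h4)
      · exact (T'_lt a.2.2).ne h2)
    (by
      rintro ⟨i, t, ht⟩ ⟨j, t', ht'⟩ hab u hu v hv huv
      simp only [e, sub] at huv
      have hlt1 := hlt ⟨i, t, ht⟩
      have hlt2 := hlt ⟨j, t', ht'⟩
      have h01 := h0 ⟨i, t, ht⟩
      have h02 := h0 ⟨j, t', ht'⟩
      have h11 := h1 ⟨i, t, ht⟩
      have h12 := h1 ⟨j, t', ht'⟩
      simp only at hlt1 hlt2 h01 h02 h11 h12
      by_contra hcon
      push Not at hcon
      have hx : t + u * (nxt (X.T' i) t - t) ∈ Ioo t (nxt (X.T' i) t) := by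
        constructor
        · have : 0 < u * (nxt (X.T' i) t - t) :=
            mul_pos (lt_of_le_of_ne hu.1 hcon.1.symm) (by linarith)
          linarith
        · have : u * (nxt (X.T' i) t - t) < 1 * (nxt (X.T' i) t - t) :=
            mul_lt_mul_of_pos_right (lt_of_le_of_ne hu.2 hcon.2) (by linarith)
          linarith
      have hy := mem_sub hlt2.le hv
      set x := t + u * (nxt (X.T' i) t - t)
      set y := t' + v * (nxt (X.T' j) t' - t')
      have hx0 : 0 < x := h01.trans_lt hx.1
      have hx1 : x < 1 := hx.2.trans_le h11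
      have hy01 : y ∈ Icc (0:ℝ) 1 := ⟨h02.trans hy.1, hy.2.trans h12⟩
      by_cases hij : i = j
      · subst hij
        have hxy : x = y := by
          rcases (X.loop i).inj x ⟨hx0.le, hx1.le⟩ y hy01 huv with h | ⟨h, -⟩ | ⟨h, -⟩
          · exact h
          · exact absurd h hx0.ne'
          · exact absurd h hx1.ne
        have htt : t ≠ t' := by
          rintro rfl
          exact hab rfl
        rcases lt_or_gt_of_ne htt with h | h
        · have := nxt_le_of_lt (T'_lt ht) ht' h
          linarith [hx.2, hy.1]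
        · have := nxt_le_of_lt (T'_lt ht') ht h
          linarith [hx.1, hy.2]
      · have h3 : X.c i x ∈ X.J j := by rw [huv]; exact c_mem j hy01
        have h4 := mem_T hij ⟨hx0.le, hx1⟩ h3
        exact notMem_Ioo_nxt (T'_lt ht) (Finset.mem_insert_of_mem h4) hx)
  rw [hun] at hS
  refine ⟨S, hS, ?_⟩
  have hE : Fintype.card E = (∑ i, (X.T i).card) + Fintype.card ι := by
    simp only [E, Fintype.card_sigma, Fintype.card_coe]
    have : ∀ i, (X.T' i).card = (X.T i).card + 1 := fun i =>
      Finset.card_insert_of_notMem (r_notMem i)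
    simp only [this, Finset.sum_add_distrib, Finset.sum_const, Finset.card_univ, smul_eq_mul,
      mul_one]
  have hV : V.card ≤ X.P.card + Fintype.card ι := by
    refine (Finset.card_union_le _ _).trans ?_
    gcongr
    exact Finset.card_image_le.trans (le_of_eq Finset.card_univ)
  omega

theorem inc_le : 2 * (∑ i, (X.T i).card) + 6 ≤ 3 * (Fintype.card ι + X.P.card) := by
  classical
  obtain ⟨S, hS, hcard⟩ := exists_reps (X := X)
  set G : Finset ℂ := S.filter (fun s => ∀ i, s ∉ X.D i) with hG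
  have h1 : S.card ≤ G.card + Fintype.card ι := by
    rw [← Finset.card_filter_add_card_filter_not (s := S) (fun s => ∀ i, s ∉ X.D i)]
    gcongr
    have h2 : S.filter (fun s => ¬ ∀ i, s ∉ X.D i) ⊆
        Finset.univ.biUnion (fun i => S.filter (fun s => s ∈ X.D i)) := by
      intro s hs
      rw [Finset.mem_filter] at hs
      obtain ⟨hs1, hs2⟩ := hs
      push Not at hs2
      obtain ⟨i, hi⟩ := hs2
      exact Finset.mem_biUnion.mpr ⟨i, Finset.mem_univ _, Finset.mem_filter.mpr ⟨hs1, hi⟩⟩
    refine (Finset.card_le_card h2).trans (Finset.card_biUnion_le.trans ?_)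
    calc ∑ i, (S.filter (fun s => s ∈ X.D i)).card ≤ ∑ _i : ι, 1 := by
          apply Finset.sum_le_sum
          intro i _
          rw [Finset.card_le_one]
          intro a ha b hb
          rw [Finset.mem_filter] at ha hb
          by_contra hab
          have h3 : cmp X.U (X.d i) = X.D i := cmp_d (J_subset i) Subset.rfl
          rw [← h3] at ha hb
          apply hS.2 a ha.1 b hb.1 hab
          rw [cmp_eq ha.2]
          exact hb.2
      _ = Fintype.card ι := by simp
  have h2 : G.card * 3 ≤ (Finset.univ.sigma X.T).card * 1 := by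
    apply Finset.card_mul_le_card_mul (fun s (a : Σ _ : ι, ℝ) => X.adj s a.1 a.2)
    · intro s hs
      rw [hG, Finset.mem_filter] at hs
      have hsU := hS.1 s hs.1
      by_contra hcon
      push Not at hcon
      set B : Finset (Σ _ : ι, ℝ) :=
        Finset.bipartiteAbove (fun s (a : Σ _ : ι, ℝ) => X.adj s a.1 a.2) (Finset.univ.sigma X.T) s
        with hB
      have h3 : (B.image (fun a => a.1)).card ≤ 2 := Finset.card_image_le.trans (by omega)
      obtain ⟨B', hB'1, -, hB'2⟩ := Finset.exists_subsuperset_card_eq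
        (Finset.subset_univ (B.image (fun a => a.1))) h3
        (by rw [Finset.card_univ]; have := X.hcard; omega)
      obtain ⟨x, y, hxy, rfl⟩ := Finset.card_eq_two.mp hB'2
      apply three_curves hsU hs.2 hxy
      intro i hix hiy t ht hadj
      have h4 : i ∈ B.image (fun a => a.1) := by
        rw [Finset.mem_image]
        refine ⟨⟨i, t⟩, ?_, rfl⟩
        rw [hB, Finset.mem_bipartiteAbove]
        exact ⟨Finset.mem_sigma.mpr ⟨Finset.mem_univ _, ht⟩, hadj⟩
      have h5 := hB'1 h4
      simp only [Finset.mem_insert, Finset.mem_singleton] at h5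
      rcases h5 with h5 | h5
      · exact hix h5
      · exact hiy h5
    · rintro ⟨i, t⟩ ha
      rw [Finset.mem_sigma] at ha
      rw [Finset.card_le_one]
      intro a ha1 b hb1
      rw [Finset.mem_bipartiteBelow] at ha1 hb1
      by_contra hab
      have ha2 := Finset.mem_filter.mp ha1.1
      have hb2 := Finset.mem_filter.mp hb1.1
      exact arc_unique (hS.1 a ha2.1) (hS.1 b hb2.1) (hS.2 a ha2.1 b hb2.1 hab) (ha2.2 i)
        (hb2.2 i) ha.2 ha1.2 hb1.2
  rw [Finset.card_sigma] at h2
  omega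

end Cfg

end Pool.Agent.W_MP_2cf721_co
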