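import Pool.Agent.W_MP_2cf721_co.Glue

set_option autoImplicit false

/-!
# A lower bound for the number of components of the complement of a planar graph
-/

open Set Topology Complex

namespace Pool.Agent.W_MP_2cf721_co

/-- an arc between distinct points cannot be crossed freely: if `z₀ • L` (the logarithm along the
arc `e`) extends through the interior of the arc then `z₀ = 0` -/
lemma arc_contra {p q : ℂ} (hpq : p ≠ q) {k : ℤ} {Φ : ℝ → ℂ} (hΦ : Continuous Φ)
    (hper : Φ 0 = Φ (2 * Real.pi))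
    (hexp : ∀ θ : ℝ, exp (Φ θ) = ((q - (p + (‖q - p‖ / 2 : ℝ) * exp (θ * Complex.I))) /
      (p - (p + (‖q - p‖ / 2 : ℝ) * exp (θ * Complex.I)))) ^ k) : k = 0 := by
  set r : ℝ := ‖q - p‖ / 2 with hr
  have hqp : q - p ≠ 0 := sub_ne_zero.mpr hpq.symm
  have hnpos : 0 < ‖q - p‖ := norm_pos_iff.mpr hqp
  have hrpos : 0 < r := by positivity
  have hrC : (r : ℂ) ≠ 0 := by exact_mod_cast hrpos.ne'
  let u : ℝ → ℂ := fun θ => (r / (q - p)) * exp (θ * Complex.I)
  have hu : ∀ θ, ‖u θ‖ = 1 / 2 := by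
    intro θ
    simp only [u, norm_mul, norm_div, norm_exp_ofReal_mul_I, mul_one, norm_real,
      Real.norm_of_nonneg hrpos.le]
    rw [hr]; field_simp
  have huc : Continuous u := by simp only [u]; fun_prop
  have hslit : ∀ θ, 1 - u θ ∈ slitPlane := by
    intro θ
    left
    have h1 : (u θ).re ≤ ‖u θ‖ := re_le_norm _
    rw [hu] at h1
    simp only [sub_re, one_re]
    linarith
  have h1u : ∀ θ, 1 - u θ ≠ 0 := fun θ => slitPlane_ne_zero (hslit θ)
  let Ψ : ℝ → ℂ := fun θ => (k : ℂ) * (log (1 - u θ) + log ((q - p) / (-r)) + -(θ * Complex.I))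
  have hΨc : Continuous Ψ := by
    have : Continuous (fun θ => log (1 - u θ)) := by
      rw [continuous_iff_continuousAt]
      intro θ
      exact (continuous_const.sub huc).continuousAt.clog (hslit θ)
    simp only [Ψ]
    fun_prop
  have he : ∀ θ, exp (Φ θ) = exp (Ψ θ) := by
    intro θ
    rw [hexp]
    simp only [Ψ]
    rw [exp_int_mul, exp_add, exp_add, exp_log (h1u θ),
      exp_log (div_ne_zero hqp (neg_ne_zero.mpr hrC)), exp_neg]
    congr 1
    simp only [u]
    have := exp_ne_zero (θ * Complex.I)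
    field_simp
    ring
  have h1 := log_unique isPreconnected_univ hΦ.continuousOn hΨc.continuousOn (fun θ _ => he θ)
    (mem_univ (0:ℝ)) (mem_univ (2 * Real.pi))
  have h2 : exp (((2 * Real.pi : ℝ) : ℂ) * Complex.I) = 1 := by
    push_cast; exact exp_two_pi_mul_I
  simp only [Ψ, u, h2, hper, ofReal_zero, zero_mul, exp_zero, neg_zero, add_zero] at h1
  have h3 : (k : ℂ) * (((2 * Real.pi : ℝ) : ℂ) * Complex.I) = 0 := by linear_combination -h1
  have h4 : (((2 * Real.pi : ℝ) : ℂ) * Complex.I) ≠ 0 := by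
    simp [Real.pi_ne_zero]
  have := (mul_eq_zero.mp h3).resolve_right h4
  exact_mod_cast this

/-- predicate: finite set of points in pairwise different components of `Uᶜ` -/
def Reps (U : Set ℂ) (S : Finset ℂ) : Prop :=
  (∀ s ∈ S, s ∉ U) ∧ ∀ s ∈ S, ∀ t ∈ S, s ≠ t → t ∉ cmp U s

/-- **Euler's inequality** `F ≥ E - V + 2`. -/
theorem euler_lower {E : Type} [Fintype E] [DecidableEq E] (e : E → ℝ → ℂ)
    (he : ∀ i, ContinuousOn (e i) (Icc 0 1)) (V : Finset ℂ) (hV : V.Nonempty)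
    (h0 : ∀ i, e i 0 ∈ V) (h1 : ∀ i, e i 1 ∈ V) (hne : ∀ i, e i 0 ≠ e i 1)
    (hdis : ∀ i j, i ≠ j → ∀ s ∈ Icc (0:ℝ) 1, ∀ t ∈ Icc (0:ℝ) 1, e i s = e j t → s = 0 ∨ s = 1) :
    ∃ S : Finset ℂ, Reps (⋃ i, img (e i)) S ∧ Fintype.card E + 2 ≤ S.card + V.card := by
  classical
  by_contra hcon
  push Not at hcon
  set U : Set ℂ := ⋃ i, img (e i) with hU
  have hUc : IsCompact U := isCompact_iUnion fun i => isCompact_img (he i)
  have hI0 : (0:ℝ) ∈ Icc (0:ℝ) 1 := ⟨le_rfl, zero_le_one⟩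
  have hI1 : (1:ℝ) ∈ Icc (0:ℝ) 1 := ⟨zero_le_one, le_rfl⟩
  have hend0 : ∀ a, a ∉ U → ∀ i, e i 0 - a ≠ 0 := by
    intro a ha i h
    apply ha
    rw [← sub_eq_zero.mp h]
    exact mem_iUnion.mpr ⟨i, 0, hI0, rfl⟩
  have hend1 : ∀ a, a ∉ U → ∀ i, e i 1 - a ≠ 0 := by
    intro a ha i h
    apply ha
    rw [← sub_eq_zero.mp h]
    exact mem_iUnion.mpr ⟨i, 1, hI1, rfl⟩
  -- a maximal set of representatives
  obtain ⟨S, hS, hmax⟩ : ∃ S, Reps U S ∧ ∀ T, Reps U T → T.card ≤ S.card := by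
    let A : Set ℕ := {n | ∃ S, Reps U S ∧ S.card = n}
    have hA : A.Nonempty := ⟨0, ∅, by simp [Reps], rfl⟩
    have hb : BddAbove A := by
      refine ⟨Fintype.card E + 2, ?_⟩
      rintro n ⟨S, hS, rfl⟩
      have := hcon S hS
      omega
    obtain ⟨S, hS, hSc⟩ := Nat.sSup_mem hA hb
    refine ⟨S, hS, fun T hT => ?_⟩
    rw [hSc]
    exact le_csSup hb ⟨T, hT, rfl⟩
  have hcover : ∀ a, a ∉ U → ∃ s ∈ S, a ∈ cmp U s := by
    intro a ha
    by_contra hno
    push Not at hno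
    have haS : a ∉ S := fun h => hno a h (mem_cmp ha)
    have : Reps U (insert a S) := by
      refine ⟨?_, ?_⟩
      · intro s hs
        rcases Finset.mem_insert.mp hs with rfl | hs
        · exact ha
        · exact hS.1 s hs
      · intro s hs t ht hst
        rcases Finset.mem_insert.mp hs with hsa | hs'
        · rcases Finset.mem_insert.mp ht with hta | ht'
          · exact absurd (hsa.trans hta.symm) hst
          · intro h
            rw [hsa] at h
            exact hno t ht' (cmp_symm ha h)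
        · rcases Finset.mem_insert.mp ht with hta | ht'
          · rw [hta]; exact hno s hs'
          · exact hS.2 s hs' t ht' hst
    have := hmax _ this
    rw [Finset.card_insert_of_notMem haS] at this
    omega
  obtain ⟨s₀, hs₀⟩ : S.Nonempty := by
    obtain ⟨a, ha⟩ := (Set.ne_univ_iff_exists_notMem U).mp hUc.ne_univ
    obtain ⟨s, hs, -⟩ := hcover a ha
    exact ⟨s, hs⟩
  obtain ⟨v₀, hv₀⟩ := hV
  have hs₀U := hS.1 s₀ hs₀
  have hL := fun i => exists_arcLog (he i)
  choose L hLc hLe using hL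
  have himg : ∀ a, a ∉ U → ∀ i, a ∉ img (e i) := fun a ha i h => ha (mem_iUnion.mpr ⟨i, h⟩)
  -- the integers `N s i`
  let lam : ℂ → ℂ → ℂ := fun s v => log ((v - s) / (v - s₀))
  have hN : ∀ s : {s // s ∈ S}, ∀ i, ∃ n : ℤ, L i s - L i s₀
      = lam s (e i 1) - lam s (e i 0) + n * (2 * Real.pi * Complex.I) := by
    intro s i
    apply exp_eq_exp_iff_exists_int.mp
    have hsU := hS.1 s s.2
    rw [exp_sub, exp_sub, hLe i _ (himg _ hsU i), hLe i _ (himg _ hs₀U i)]
    simp only [lam]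
    rw [exp_log (div_ne_zero (hend1 _ hsU i) (hend1 _ hs₀U i)),
      exp_log (div_ne_zero (hend0 _ hsU i) (hend0 _ hs₀U i))]
    rw [div_div_div_comm]
  choose N hN using hN
  -- the linear system
  have hcard : Fintype.card ({v // v ∈ V.erase v₀} ⊕ {s // s ∈ S.erase s₀}) < Fintype.card E := by
    rw [Fintype.card_sum, Fintype.card_coe, Fintype.card_coe, Finset.card_erase_of_mem hv₀,
      Finset.card_erase_of_mem hs₀]
    have h2 := hcon S hS
    have h3 : 0 < V.card := Finset.card_pos.mpr ⟨v₀, hv₀⟩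
    have h4 : 0 < S.card := Finset.card_pos.mpr ⟨s₀, hs₀⟩
    omega
  let bd : E → ℂ → ℤ := fun i v => (if e i 1 = v then 1 else 0) - (if e i 0 = v then 1 else 0)
  obtain ⟨z, hz0, hz⟩ := exists_int_ker hcard
    (fun x i => Sum.elim (fun v : {v // v ∈ V.erase v₀} => bd i v)
      (fun s : {s // s ∈ S.erase s₀} => N ⟨s, Finset.mem_of_mem_erase s.2⟩ i) x)
  have hbd : ∀ v ∈ V, ∑ i, z i * bd i v = 0 := by
    have hb1 : ∀ v ∈ V.erase v₀, ∑ i, z i * bd i v = 0 := by
      intro v hv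
      exact hz (Sum.inl ⟨v, hv⟩)
    intro v hv
    by_cases hvv : v = v₀
    · subst hvv
      have h2 : ∑ w ∈ V, ∑ i, z i * bd i w = 0 := by
        rw [Finset.sum_comm]
        apply Finset.sum_eq_zero
        intro i _
        rw [← Finset.mul_sum]
        simp only [bd, Finset.sum_sub_distrib, Finset.sum_ite_eq, h0 i, h1 i, if_true, sub_self,
          mul_zero]
      rw [← Finset.add_sum_erase _ _ hv, Finset.sum_eq_zero hb1, add_zero] at h2
      exact h2
    · exact hb1 v (Finset.mem_erase.mpr ⟨hvv, hv⟩)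
  have hadd : ∀ φ : ℂ → ℂ, ∑ i, (z i : ℂ) * (φ (e i 1) - φ (e i 0)) = 0 := by
    intro φ
    have h2 : ∀ i, (φ (e i 1) - φ (e i 0)) = ∑ v ∈ V, (bd i v : ℂ) * φ v := by
      intro i
      simp only [bd]
      push_cast
      simp only [sub_mul, Finset.sum_sub_distrib, ite_mul, one_mul, zero_mul, Finset.sum_ite_eq,
        h0 i, h1 i, if_true]
    simp only [h2, Finset.mul_sum]
    rw [Finset.sum_comm]
    apply Finset.sum_eq_zero
    intro v hv
    have h3 : ((∑ i, z i * bd i v : ℤ) : ℂ) = 0 := by rw [hbd v hv]; simp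
    push_cast at h3
    have h4 : ∑ i, (z i : ℂ) * ((bd i v : ℂ) * φ v) = (∑ i, (z i : ℂ) * (bd i v : ℂ)) * φ v := by
      rw [Finset.sum_mul]
      exact Finset.sum_congr rfl fun i _ => by ring
    rw [h4, h3, zero_mul]
  have hmul : ∀ a, (∀ i, e i 0 - a ≠ 0) → (∀ i, e i 1 - a ≠ 0) →
      ∏ i, ((e i 1 - a) / (e i 0 - a)) ^ (z i) = 1 := by
    intro a ha0 ha1
    have h2 := hadd (fun v => log (v - a))
    have h3 := congrArg exp h2
    rw [exp_sum, exp_zero] at h3
    rw [← h3]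
    apply Finset.prod_congr rfl
    intro i _
    rw [exp_int_mul, exp_sub, exp_log (ha1 i), exp_log (ha0 i)]
  let h : ℂ → ℂ := fun a => ∑ i, (z i : ℂ) * L i a
  have hhe : ∀ a, a ∉ U → exp (h a) = 1 := by
    intro a ha
    simp only [h]
    rw [exp_sum, ← hmul a (hend0 a ha) (hend1 a ha)]
    apply Finset.prod_congr rfl
    intro i _
    rw [exp_int_mul, hLe i a (himg a ha i)]
  have hhc : ContinuousOn h Uᶜ := by
    apply continuousOn_finsetSum
    intro i _
    exact continuousOn_const.mul ((hLc i).mono (fun a ha => himg a ha i))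
  have hhS : ∀ s ∈ S, h s = h s₀ := by
    intro s hs
    by_cases hss : s = s₀
    · rw [hss]
    have h2 := hz (Sum.inr ⟨s, Finset.mem_erase.mpr ⟨hss, hs⟩⟩)
    simp only [Sum.elim_inr] at h2
    rw [← sub_eq_zero]
    simp only [h]
    rw [← Finset.sum_sub_distrib]
    have h3 : ∀ i, (z i : ℂ) * L i s - (z i : ℂ) * L i s₀
        = (z i : ℂ) * (lam s (e i 1) - lam s (e i 0))
          + ((z i * N ⟨s, hs⟩ i : ℤ) : ℂ) * (2 * Real.pi * Complex.I) := by
      intro i
      rw [← mul_sub, hN ⟨s, hs⟩ i]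
      push_cast
      ring
    simp only [h3]
    rw [Finset.sum_add_distrib, hadd, ← Finset.sum_mul, ← Int.cast_sum, h2]
    simp
  have hhconst : ∀ a, a ∉ U → h a = h s₀ := by
    intro a ha
    obtain ⟨s, hs, has⟩ := hcover a ha
    rw [← hhS s hs]
    have h2 := log_unique (isPreconnected_cmp U s) (hhc.mono (cmp_subset U s))
      (continuousOn_const (c := (0:ℂ))) (fun x hx => by rw [hhe x (cmp_subset U s hx), exp_zero])
      has (mem_cmp (hS.1 s hs))
    simpa using h2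
  -- the contradiction
  obtain ⟨i₀, hi₀⟩ : ∃ i, z i ≠ 0 := by
    by_contra hno
    push Not at hno
    exact hz0 (funext hno)
  apply hi₀
  set p := e i₀ 0 with hp
  set q := e i₀ 1 with hq
  have hpq : p ≠ q := hne i₀
  have hqp : q - p ≠ 0 := sub_ne_zero.mpr hpq.symm
  have hnpos : 0 < ‖q - p‖ := norm_pos_iff.mpr hqp
  let w : ℝ → ℂ := fun θ => p + (‖q - p‖ / 2 : ℝ) * exp (θ * Complex.I)
  have hwc : Continuous w := by simp only [w]; fun_prop
  have hwp : ∀ θ, ‖w θ - p‖ = ‖q - p‖ / 2 := by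
    intro θ
    simp only [w, add_sub_cancel_left, norm_mul, norm_exp_ofReal_mul_I, mul_one, norm_real]
    rw [Real.norm_of_nonneg (by positivity)]
  have hwp' : ∀ θ, w θ ≠ p := by
    intro θ h
    have := hwp θ
    rw [h, sub_self, norm_zero] at this
    linarith
  have hwq' : ∀ θ, w θ ≠ q := by
    intro θ h
    have := hwp θ
    rw [h] at this
    linarith
  let U' : Set ℂ := ⋃ i : {i // i ≠ i₀}, img (e i)
  have hU'c : IsClosed U' :=
    isClosed_iUnion_of_finite fun i => (isCompact_img (he i)).isClosed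
  have hUU : ∀ a, a ∉ img (e i₀) → a ∉ U' → a ∉ U := by
    intro a ha1 ha2 ha3
    obtain ⟨i, hi⟩ := mem_iUnion.mp ha3
    by_cases hii : i = i₀
    · rw [hii] at hi; exact ha1 hi
    · exact ha2 (mem_iUnion.mpr ⟨⟨i, hii⟩, hi⟩)
  have hor : ∀ θ, w θ ∉ img (e i₀) ∨ w θ ∉ U' := by
    intro θ
    by_contra hno
    push Not at hno
    obtain ⟨⟨s, hs, hs2⟩, h3⟩ := hno
    obtain ⟨⟨i, hii⟩, t, ht, ht2⟩ := mem_iUnion.mp h3
    rcases hdis i₀ i (Ne.symm hii) s hs t ht (hs2.trans ht2.symm) with rfl | rfl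
    · exact hwp' θ hs2.symm
    · exact hwq' θ hs2.symm
  let Φ1 : ℝ → ℂ := fun θ => (z i₀ : ℂ) * L i₀ (w θ)
  let Φ2 : ℝ → ℂ := fun θ => h s₀ - ∑ i ∈ Finset.univ.erase i₀, (z i : ℂ) * L i (w θ)
  let Φ : ℝ → ℂ := fun θ => if w θ ∉ img (e i₀) then Φ1 θ else Φ2 θ
  have hΦ2 : ∀ θ, w θ ∉ U' → Φ θ = Φ2 θ := by
    intro θ hθ
    by_cases h2 : w θ ∉ img (e i₀)
    · simp only [Φ, if_pos h2, Φ1, Φ2]
      have h3 := hhconst (w θ) (hUU _ h2 hθ)
      rw [← h3]
      simp only [h]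
      rw [← Finset.add_sum_erase _ _ (Finset.mem_univ i₀)]
      ring
    · simp only [Φ, if_neg h2]
  have hnU' : ∀ θ, w θ ∉ U' → ∀ i ∈ Finset.univ.erase i₀, w θ ∉ img (e i) := by
    intro θ hθ i hi h3
    exact hθ (mem_iUnion.mpr ⟨⟨i, Finset.ne_of_mem_erase hi⟩, h3⟩)
  have hΦc : Continuous Φ := by
    rw [continuous_iff_continuousAt]
    intro θ
    rcases hor θ with h2 | h2
    · have hopen : IsOpen {θ | w θ ∉ img (e i₀)} :=
        (isCompact_img (he i₀)).isClosed.isOpen_compl.preimage hwc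
      have hev : Φ =ᶠ[𝓝 θ] Φ1 := by
        filter_upwards [hopen.mem_nhds h2] with x hx
        exact if_pos hx
      refine ContinuousAt.congr ?_ hev.symm
      apply continuousAt_const.mul
      exact ((hLc i₀).continuousAt
        ((isCompact_img (he i₀)).isClosed.isOpen_compl.mem_nhds h2)).comp hwc.continuousAt
    · have hopen : IsOpen {θ | w θ ∉ U'} := hU'c.isOpen_compl.preimage hwc
      have hev : Φ =ᶠ[𝓝 θ] Φ2 := by
        filter_upwards [hopen.mem_nhds h2] with x hx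
        exact hΦ2 x hx
      refine ContinuousAt.congr ?_ hev.symm
      apply continuousAt_const.sub
      apply tendsto_finsetSum
      intro i hi
      apply ContinuousAt.mul continuousAt_const
      exact ((hLc i).continuousAt
        ((isCompact_img (he i)).isClosed.isOpen_compl.mem_nhds (hnU' θ h2 i hi))).comp
        hwc.continuousAt
  have hper : Φ 0 = Φ (2 * Real.pi) := by
    have hw2 : w 0 = w (2 * Real.pi) := by
      simp only [w]
      push_cast
      rw [exp_two_pi_mul_I]; simp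
    simp only [Φ, Φ1, Φ2, hw2]
  apply arc_contra hpq hΦc hper
  intro θ
  change exp (Φ θ) = ((q - w θ) / (p - w θ)) ^ z i₀
  rcases hor θ with h2 | h2
  · have : Φ θ = Φ1 θ := if_pos h2
    rw [this]
    simp only [Φ1]
    rw [exp_int_mul, hLe i₀ _ h2]
  · rw [hΦ2 θ h2]
    have ha0 : ∀ i, e i 0 - w θ ≠ 0 := by
      intro i h3
      have h3 := sub_eq_zero.mp h3
      by_cases hii : i = i₀
      · rw [hii] at h3; exact hwp' θ h3.symm
      · exact hnU' θ h2 i (Finset.mem_erase.mpr ⟨hii, Finset.mem_univ _⟩) ⟨0, hI0, h3⟩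
    have ha1 : ∀ i, e i 1 - w θ ≠ 0 := by
      intro i h3
      have h3 := sub_eq_zero.mp h3
      by_cases hii : i = i₀
      · rw [hii] at h3; exact hwq' θ h3.symm
      · exact hnU' θ h2 i (Finset.mem_erase.mpr ⟨hii, Finset.mem_univ _⟩) ⟨1, hI1, h3⟩
    have h4 := hmul (w θ) ha0 ha1
    rw [← Finset.mul_prod_erase _ _ (Finset.mem_univ i₀)] at h4
    simp only [Φ2]
    rw [exp_sub, hhe s₀ hs₀U, exp_sum]
    have h5 : ∏ i ∈ Finset.univ.erase i₀, exp ((z i : ℂ) * L i (w θ))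
        = ∏ i ∈ Finset.univ.erase i₀, ((e i 1 - w θ) / (e i 0 - w θ)) ^ (z i) := by
      apply Finset.prod_congr rfl
      intro i hi
      rw [exp_int_mul, hLe i _ (hnU' θ h2 i hi)]
    rw [h5]
    have h6 : ∏ i ∈ Finset.univ.erase i₀, ((e i 1 - w θ) / (e i 0 - w θ)) ^ (z i) ≠ 0 := by
      rw [Finset.prod_ne_zero_iff]
      intro i _
      exact zpow_ne_zero _ (div_ne_zero (ha1 i) (ha0 i))
    rw [div_eq_iff h6, ← h4]

end Pool.Agent.W_MP_2cf721_co
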