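import Pool.Agent.W_MP_2cf721_co.Borsuk

set_option autoImplicit false

/-!
# Gluing continuous functions along paths, and the separation lemma
-/

open Set Topology Complex

namespace Pool.Agent.W_MP_2cf721_co

lemma glue {r : ℕ} {K0 : Set ℂ} (hK0 : IsClosed K0) {g0 : ℂ → ℂ} (hg0 : ContinuousOn g0 K0)
    (e : Fin r → ℝ → ℂ) (he : ∀ i, ContinuousOn (e i) (Icc 0 1)) (G : Fin r → ℝ → ℂ)
    (hG : ∀ i, ContinuousOn (G i) (Icc 0 1))
    (h0 : ∀ i, ∀ t ∈ Icc (0:ℝ) 1, e i t ∈ K0 → G i t = g0 (e i t))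
    (h1 : ∀ i j, ∀ s ∈ Icc (0:ℝ) 1, ∀ t ∈ Icc (0:ℝ) 1, e i s = e j t → G i s = G j t) :
    ∃ g : ℂ → ℂ, ContinuousOn g (K0 ∪ ⋃ i, img (e i)) ∧ (∀ z ∈ K0, g z = g0 z) ∧
      ∀ i, ∀ t ∈ Icc (0:ℝ) 1, g (e i t) = G i t := by
  classical
  let g : ℂ → ℂ := fun z => if z ∈ K0 then g0 z else
    if h : ∃ p : Fin r × ℝ, p.2 ∈ Icc (0:ℝ) 1 ∧ e p.1 p.2 = z then G h.choose.1 h.choose.2 else 0
  have hgK : ∀ z ∈ K0, g z = g0 z := fun z hz => if_pos hz
  have hge : ∀ i, ∀ t ∈ Icc (0:ℝ) 1, g (e i t) = G i t := by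
    intro i t ht
    by_cases hz : e i t ∈ K0
    · rw [hgK _ hz, h0 i t ht hz]
    · have hex : ∃ p : Fin r × ℝ, p.2 ∈ Icc (0:ℝ) 1 ∧ e p.1 p.2 = e i t := ⟨(i, t), ht, rfl⟩
      simp only [g, if_neg hz, dif_pos hex]
      exact h1 _ _ _ hex.choose_spec.1 _ ht hex.choose_spec.2
  refine ⟨g, ?_, hgK, hge⟩
  rw [continuousOn_iff_isClosed]
  intro T hT
  refine ⟨(K0 ∩ g0 ⁻¹' T) ∪ ⋃ i, e i '' (Icc (0:ℝ) 1 ∩ G i ⁻¹' T), ?_, ?_⟩
  · apply IsClosed.union (hg0.preimage_isClosed_of_isClosed hK0 hT)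
    apply isClosed_iUnion_of_finite
    intro i
    have h2 : IsCompact (Icc (0:ℝ) 1 ∩ G i ⁻¹' T) :=
      isCompact_Icc.of_isClosed_subset ((hG i).preimage_isClosed_of_isClosed isClosed_Icc hT)
        inter_subset_left
    exact (h2.image_of_continuousOn ((he i).mono inter_subset_left)).isClosed
  · ext z
    simp only [mem_inter_iff, mem_preimage, mem_union, mem_iUnion, mem_image, img]
    constructor
    · rintro ⟨hz, hz2⟩
      refine ⟨?_, hz2⟩
      rcases hz2 with hz2 | ⟨i, t, ht, rfl⟩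
      · left; rw [hgK z hz2] at hz; exact ⟨hz2, hz⟩
      · right; rw [hge i t ht] at hz; exact ⟨i, t, ⟨ht, hz⟩, rfl⟩
    · rintro ⟨hz, hz2⟩
      refine ⟨?_, hz2⟩
      rcases hz with ⟨hz, hz3⟩ | ⟨i, t, ⟨ht, ht2⟩, rfl⟩
      · rw [hgK z hz]; exact hz3
      · rw [hge i t ht]; exact ht2

/-- if `b` is in the component of `a` in `Kᶜ` then `(z - b)/(z - a)` has a continuous
logarithm on `K`. -/
lemma exists_log_of_mem_cmp {K : Set ℂ} (hK : IsClosed K) {a b : ℂ} (h : b ∈ cmp K a) :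
    ∃ g : ℂ → ℂ, ContinuousOn g K ∧ ∀ z ∈ K, exp (g z) = (z - b) / (z - a) := by
  have haK := notMem_of_mem_cmp h
  have h1 : IsPathConnected (cmp K a) :=
    (isOpen_cmp hK a).isConnected_iff_isPathConnected.mp
      ⟨⟨a, mem_cmp haK⟩, isPreconnected_cmp K a⟩
  obtain ⟨γ, hγ⟩ := h1.joinedIn a (mem_cmp haK) b h
  have hc : Continuous (γ.extend) := γ.continuous_extend
  have himg : img γ.extend ⊆ Kᶜ := by
    rintro _ ⟨t, ht, rfl⟩
    rw [γ.extend_apply ht]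
    exact cmp_subset K a (hγ _)
  obtain ⟨L, hL, hL2⟩ := exists_arcLog hc.continuousOn
  refine ⟨L, hL.mono (fun z hz hz2 => himg hz2 hz), ?_⟩
  intro z hz
  rw [hL2 z (fun hz2 => himg hz2 hz)]
  simp only [Path.extend_one, Path.extend_zero]
  rw [← neg_sub z b, ← neg_sub z a, neg_div_neg_eq]

/-- A nonzero integer vector in the kernel of an integer matrix with more columns than rows. -/
lemma exists_int_ker {ρ μ : Type} [Fintype ρ] [Fintype μ] (h : Fintype.card ρ < Fintype.card μ)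
    (A : ρ → μ → ℤ) :
    ∃ k : μ → ℤ, k ≠ 0 ∧ ∀ i, ∑ j, k j * A i j = 0 := by
  classical
  let f : (μ → ℚ) →ₗ[ℚ] (ρ → ℚ) := Matrix.mulVecLin (Matrix.of fun i j => (A i j : ℚ))
  have hf : LinearMap.ker f ≠ ⊥ := by
    apply LinearMap.ker_ne_bot_of_finrank_lt
    simpa using h
  obtain ⟨v, hv, hv0⟩ := (Submodule.ne_bot_iff _).mp hf
  obtain ⟨b, hb⟩ := IsLocalization.exist_integer_multiples_of_finite (nonZeroDivisors ℤ) v
  have hb0 : (b : ℤ) ≠ 0 := nonZeroDivisors.coe_ne_zero b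
  choose k hk using hb
  refine ⟨k, ?_, ?_⟩
  · intro hk0
    apply hv0
    funext j
    have := hk j
    rw [hk0] at this
    simp at this
    tauto
  · intro i
    have h1 := congrFun hv i
    simp only [f, Matrix.mulVecLin_apply, Matrix.mulVec, dotProduct, Matrix.of_apply,
      Pi.zero_apply] at h1
    have h2 : ((∑ j, k j * A i j : ℤ) : ℚ) = (b : ℤ) * ∑ j, (A i j : ℚ) * v j := by
      push_cast
      rw [Finset.mul_sum]
      apply Finset.sum_congr rfl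
      intro j _
      have := hk j
      simp only [algebraMap_int_eq, eq_intCast, zsmul_eq_mul] at this
      rw [this]; ring
    rw [h1, mul_zero] at h2
    exact_mod_cast h2

lemma prod_zpow_sum {ι : Type*} (s : Finset ι) {a : ℂ} (ha : a ≠ 0) (f : ι → ℤ) :
    ∏ i ∈ s, a ^ f i = a ^ (∑ i ∈ s, f i) := by
  classical
  induction s using Finset.induction_on with
  | empty => simp
  | insert i s hi ih => rw [Finset.prod_insert hi, Finset.sum_insert hi, zpow_add₀ ha, ih]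

/-- **Separation lemma**: attaching `r < m` paths (or loops) to a compact set `K0` cannot
separate pairwise `m + 1` points of one component of the complement of `K0`. -/
theorem sep {m r : ℕ} (hr : r < m) {K0 : Set ℂ} (hK0 : IsCompact K0) (a : Fin (m + 1) → ℂ)
    (hcomp : ∀ j, a j ∈ cmp K0 (a 0)) (e : Fin r → ℝ → ℂ)
    (he : ∀ i, ContinuousOn (e i) (Icc 0 1)) (he0 : ∀ i, e i 0 ∈ K0) (he1 : ∀ i, e i 1 ∈ K0)
    (hin : ∀ i, ∀ t ∈ Icc (0:ℝ) 1, e i t ∈ K0 → t = 0 ∨ t = 1)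
    (hinj : ∀ i, ∀ s ∈ Icc (0:ℝ) 1, ∀ t ∈ Icc (0:ℝ) 1, e i s = e i t → s = t ∨ e i s ∈ K0)
    (hdis : ∀ i j, i ≠ j → ∀ s ∈ Icc (0:ℝ) 1, ∀ t ∈ Icc (0:ℝ) 1, e i s = e j t → e i s ∈ K0)
    (ha : ∀ j, a j ∉ K0 ∪ ⋃ i, img (e i)) :
    ∃ i j, i ≠ j ∧ a j ∈ cmp (K0 ∪ ⋃ i, img (e i)) (a i) := by
  classical
  by_contra hcon
  push Not at hcon
  set K : Set ℂ := K0 ∪ ⋃ i, img (e i) with hKdef
  have hKc : IsCompact K := hK0.union (isCompact_iUnion fun i => isCompact_img (he i))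
  have hK0K : K0 ⊆ K := subset_union_left
  have heK : ∀ i, ∀ t ∈ Icc (0:ℝ) 1, e i t ∈ K := fun i t ht =>
    Or.inr (mem_iUnion.mpr ⟨i, t, ht, rfl⟩)
  have hne : ∀ z ∈ K, ∀ j, z - a j ≠ 0 := by
    intro z hz j h
    rw [sub_eq_zero.mp h] at hz
    exact ha j hz
  have hI0 : (0:ℝ) ∈ Icc (0:ℝ) 1 := ⟨le_rfl, zero_le_one⟩
  have hI1 : (1:ℝ) ∈ Icc (0:ℝ) 1 := ⟨zero_le_one, le_rfl⟩
  have hg : ∀ j : Fin m, ∃ g : ℂ → ℂ, ContinuousOn g K0 ∧
      ∀ z ∈ K0, exp (g z) = (z - a j.succ) / (z - a 0) := fun j =>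
    exists_log_of_mem_cmp hK0.isClosed (hcomp j.succ)
  choose g hgc hge using hg
  have hG : ∀ (j : Fin m) (i : Fin r), ∃ G : ℝ → ℂ, ContinuousOn G (Icc 0 1) ∧
      (∀ t ∈ Icc (0:ℝ) 1, exp (G t) = (e i t - a j.succ) / (e i t - a 0)) ∧ G 0 = g j (e i 0) := by
    intro j i
    apply exists_log_Icc
    · apply ContinuousOn.div ((he i).sub continuousOn_const) ((he i).sub continuousOn_const)
      intro t ht
      exact hne _ (heK i t ht) 0
    · intro t ht
      exact div_ne_zero (hne _ (heK i t ht) _) (hne _ (heK i t ht) _)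
    · exact hge j _ (he0 i)
  choose G hGc hGe hG0 using hG
  have hn : ∀ (j : Fin m) (i : Fin r), ∃ n : ℤ, G j i 1 = g j (e i 1) + n * (2 * Real.pi * Complex.I) := by
    intro j i
    apply exp_eq_exp_iff_exists_int.mp
    rw [hGe j i 1 hI1, hge j _ (he1 i)]
  choose n hn using hn
  obtain ⟨k, hk0, hk⟩ := exists_int_ker (by simpa using hr) (fun i j => n j i)
  let g0 : ℂ → ℂ := fun z => ∑ j, (k j : ℂ) * g j z
  let GG : Fin r → ℝ → ℂ := fun i t => ∑ j, (k j : ℂ) * G j i t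
  have hg0c : ContinuousOn g0 K0 :=
    continuousOn_finsetSum _ (fun j _ => continuousOn_const.mul (hgc j))
  have hGGc : ∀ i, ContinuousOn (GG i) (Icc 0 1) := fun i =>
    continuousOn_finsetSum _ (fun j _ => continuousOn_const.mul (hGc j i))
  have h0 : ∀ i, ∀ t ∈ Icc (0:ℝ) 1, e i t ∈ K0 → GG i t = g0 (e i t) := by
    intro i t ht htK
    rcases hin i t ht htK with rfl | rfl
    · simp only [GG, g0, hG0]
    · simp only [GG, g0, hn, mul_add, Finset.sum_add_distrib]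
      have h2 : ((∑ j, k j * n j i : ℤ) : ℂ) = 0 := by exact_mod_cast hk i
      push_cast at h2
      have h3 : ∑ x, (k x : ℂ) * ((n x i : ℂ) * (2 * Real.pi * Complex.I))
          = (∑ j, (k j : ℂ) * (n j i : ℂ)) * (2 * Real.pi * Complex.I) := by
        rw [Finset.sum_mul]
        apply Finset.sum_congr rfl
        intro x _; ring
      rw [h3, h2, zero_mul, add_zero]
  have h1 : ∀ i j, ∀ s ∈ Icc (0:ℝ) 1, ∀ t ∈ Icc (0:ℝ) 1, e i s = e j t → GG i s = GG j t := by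
    intro i j s hs t ht hst
    have hcase : (i = j ∧ s = t) ∨ e i s ∈ K0 := by
      by_cases hij : i = j
      · subst hij
        rcases hinj i s hs t ht hst with h | h
        · exact Or.inl ⟨rfl, h⟩
        · exact Or.inr h
      · exact Or.inr (hdis i j hij s hs t ht hst)
    rcases hcase with ⟨rfl, rfl⟩ | h
    · rfl
    · rw [h0 i s hs h, h0 j t ht (hst ▸ h), hst]
  obtain ⟨gg, hggc, hggK, hgge⟩ := glue hK0.isClosed hg0c e he GG hGGc h0 h1
  let k' : Fin (m + 1) → ℤ := Fin.cons (- ∑ j, k j) k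
  have hval : ∀ z, (∀ j, z - a j ≠ 0) → ∀ w : Fin m → ℂ,
      (∀ j, exp (w j) = (z - a j.succ) / (z - a 0)) →
      exp (∑ j, (k j : ℂ) * w j) = ∏ j, (z - a j) ^ (k' j) := by
    intro z hz w hw
    rw [exp_sum, Fin.prod_univ_succ]
    simp only [k', Fin.cons_zero, Fin.cons_succ]
    have h2 : ∀ j, exp ((k j : ℂ) * w j) = (z - a j.succ) ^ (k j) * (z - a 0) ^ (-k j) := by
      intro j
      rw [exp_int_mul, hw j, div_zpow, zpow_neg, div_eq_mul_inv]
    simp only [h2, Finset.prod_mul_distrib]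
    rw [mul_comm]
    congr 1
    rw [← Finset.sum_neg_distrib]
    exact prod_zpow_sum _ (hz 0) _
  have hexp : ∀ z ∈ K, exp (gg z) = ∏ j, (z - a j) ^ (k' j) := by
    intro z hz
    rcases hz with hz | hz
    · rw [hggK z hz]
      exact hval z (hne z (Or.inl hz)) (fun j => g j z) (fun j => hge j z hz)
    · obtain ⟨i, t, ht, rfl⟩ := mem_iUnion.mp hz
      rw [hgge i t ht]
      exact hval _ (hne _ (heK i t ht)) (fun j => G j i t) (fun j => hGe j i t ht)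
  have hsum : ∑ j, k' j = 0 := by
    rw [Fin.sum_univ_succ]
    simp [k']
  have hfin := borsuk' hKc a k' ha gg hggc hexp (fun i j hij => hcon i j hij) hsum
  apply hk0
  funext j
  have := hfin j.succ
  simpa [k'] using this

end Pool.Agent.W_MP_2cf721_co
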