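import Pool.Agent.W_MP_2cf721_co.Euler

set_option autoImplicit false

/-!
# Jordan curves
-/

open Set Topology Complex

namespace Pool.Agent.W_MP_2cf721_co

lemma zI : (0:ℝ) ∈ Icc (0:ℝ) 1 := ⟨le_rfl, zero_le_one⟩
lemma oI : (1:ℝ) ∈ Icc (0:ℝ) 1 := ⟨zero_le_one, le_rfl⟩

/-- `c` is a simple loop -/
structure IsLoop (c : ℝ → ℂ) : Prop where
  cont : ContinuousOn c (Icc 0 1)
  closed : c 0 = c 1
  inj : ∀ s ∈ Icc (0:ℝ) 1, ∀ t ∈ Icc (0:ℝ) 1, c s = c t → s = t ∨ (s = 0 ∧ t = 1) ∨ (s = 1 ∧ t = 0)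

/-- Jordan curves, as sets; every point can be taken as base point -/
def IsJordan (J : Set ℂ) : Prop := J.Nonempty ∧ ∀ z ∈ J, ∃ c, IsLoop c ∧ img c = J ∧ c 0 = z

lemma isJordan_range {γ : Circle → ℂ} (hc : Continuous γ) (hi : Function.Injective γ) :
    IsJordan (range γ) := by
  refine ⟨range_nonempty γ, ?_⟩
  rintro _ ⟨w, rfl⟩
  refine ⟨fun t => γ (w * Circle.exp (2 * Real.pi * t)), ⟨?_, ?_, ?_⟩, ?_, ?_⟩
  · apply Continuous.continuousOn
    apply hc.comp
    exact continuous_const.mul (Circle.exp.continuous.comp (by fun_prop))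
  · congr 2
    rw [Circle.exp_eq_exp]
    exact ⟨-1, by push_cast; ring⟩
  · intro s hs t ht hst
    have h1 := mul_left_cancel (hi hst)
    rw [Circle.exp_eq_exp] at h1
    obtain ⟨m, hm⟩ := h1
    have h2 : s = t + m := by
      have : (2 * Real.pi) * s = (2 * Real.pi) * (t + m) := by rw [hm]; ring
      exact mul_left_cancel₀ (by positivity) this
    have h3 : (m : ℝ) ≤ 1 := by linarith [hs.2, ht.1]
    have h4 : (-1 : ℝ) ≤ m := by linarith [hs.1, ht.2]
    have h5 : m ≤ 1 := by exact_mod_cast h3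
    have h6 : -1 ≤ m := by exact_mod_cast h4
    have h7 : m = -1 ∨ m = 0 ∨ m = 1 := by omega
    rcases h7 with rfl | rfl | rfl
    · right; left
      push_cast at h2
      exact ⟨by linarith [hs.1, ht.2], by linarith [hs.1, ht.2]⟩
    · left; simpa using h2
    · right; right
      push_cast at h2
      exact ⟨by linarith [hs.2, ht.1], by linarith [hs.2, ht.1]⟩
  · ext z
    constructor
    · rintro ⟨t, -, rfl⟩; exact ⟨_, rfl⟩
    · rintro ⟨v, rfl⟩
      obtain ⟨x, hx⟩ := Circle.exp_surjective (w⁻¹ * v)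
      refine ⟨Int.fract (x / (2 * Real.pi)), ⟨Int.fract_nonneg _, (Int.fract_lt_one _).le⟩, ?_⟩
      simp only
      congr 1
      rw [← eq_inv_mul_iff_mul_eq, ← hx, Circle.exp_eq_exp]
      refine ⟨-⌊x / (2 * Real.pi)⌋, ?_⟩
      rw [Int.fract]
      push_cast
      have := Real.pi_pos
      field_simp
      ring
  · simp

lemma IsJordan.isCompact {J : Set ℂ} (h : IsJordan J) : IsCompact J := by
  obtain ⟨z, hz⟩ := h.1
  obtain ⟨c, hc, rfl, -⟩ := h.2 z hz
  exact isCompact_img hc.cont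

lemma IsJordan.isClosed {J : Set ℂ} (h : IsJordan J) : IsClosed J := h.isCompact.isClosed

/-- restriction of a path to `[a,b]`, reparametrised -/
def sub (c : ℝ → ℂ) (a b : ℝ) : ℝ → ℂ := fun s => c (a + s * (b - a))

lemma sub_zero' (c : ℝ → ℂ) (a b : ℝ) : sub c a b 0 = c a := by simp [sub]
lemma sub_one' (c : ℝ → ℂ) (a b : ℝ) : sub c a b 1 = c b := by simp [sub]

lemma mem_sub {a b s : ℝ} (hab : a ≤ b) (hs : s ∈ Icc (0:ℝ) 1) : a + s * (b - a) ∈ Icc a b := by
  constructor
  · nlinarith [hs.1]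
  · nlinarith [hs.2]

lemma continuousOn_sub {c : ℝ → ℂ} (hc : ContinuousOn c (Icc 0 1)) {a b : ℝ} (ha : 0 ≤ a)
    (hab : a ≤ b) (hb : b ≤ 1) : ContinuousOn (sub c a b) (Icc 0 1) := by
  apply hc.comp (Continuous.continuousOn (by fun_prop))
  intro s hs
  have := mem_sub hab hs
  exact ⟨ha.trans this.1, this.2.trans hb⟩

lemma img_sub (c : ℝ → ℂ) {a b : ℝ} (hab : a ≤ b) : img (sub c a b) = c '' Icc a b := by
  ext z
  constructor
  · rintro ⟨s, hs, rfl⟩
    exact ⟨_, mem_sub hab hs, rfl⟩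
  · rintro ⟨t, ht, rfl⟩
    rcases hab.eq_or_lt with rfl | hlt
    · refine ⟨0, zI, ?_⟩
      rw [sub_zero']
      rw [le_antisymm ht.2 ht.1]
    · refine ⟨(t - a) / (b - a), ⟨div_nonneg (by linarith [ht.1]) (by linarith),
        (div_le_one (by linarith)).mpr (by linarith [ht.2])⟩, ?_⟩
      have : b - a ≠ 0 := by linarith
      simp only [sub]
      congr 1
      field_simp
      ring

/-- the complement of a finite set is connected -/
lemma mem_cmp_finite {K : Set ℂ} (hK : K.Finite) {a b : ℂ} (ha : a ∉ K) (hb : b ∉ K) :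
    b ∈ cmp K a := by
  have h1 : IsPathConnected Kᶜ := hK.countable.isPathConnected_compl_of_one_lt_rank
    (by rw [rank_real_complex]; exact Nat.one_lt_ofNat)
  exact subset_cmp h1.isConnected.isPreconnected ha disjoint_compl_left hb

/-- an arc does not separate the plane -/
lemma arc_nonsep {e : ℝ → ℂ} (he : ContinuousOn e (Icc 0 1)) (hinj : InjOn e (Icc 0 1)) {a b : ℂ}
    (ha : a ∉ img e) (hb : b ∉ img e) : b ∈ cmp (img e) a := by
  by_contra hcon
  have hne : ∀ t ∈ Icc (0:ℝ) 1, ∀ c, c ∉ img e → e t - c ≠ 0 := by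
    intro t ht c hc h
    exact hc ⟨t, ht, sub_eq_zero.mp h⟩
  obtain ⟨G, hGc, hGe, -⟩ := exists_log_Icc (h := fun t => (e t - b) / (e t - a))
    (w := log ((e 0 - b) / (e 0 - a)))
    ((he.sub continuousOn_const).div (he.sub continuousOn_const) (fun t ht => hne t ht a ha))
    (fun t ht => div_ne_zero (hne t ht b hb) (hne t ht a ha))
    (exp_log (div_ne_zero (hne 0 zI b hb) (hne 0 zI a ha)))
  obtain ⟨g, hg, -, hg2⟩ := glue (r := 1) (K0 := ∅) isClosed_empty (g0 := fun _ => 0)
    continuousOn_const (fun _ => e) (fun _ => he) (fun _ => G) (fun _ => hGc)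
    (fun _ t _ h => absurd h (notMem_empty _))
    (fun _ _ s hs t ht h => by rw [hinj hs ht h])
  have hg' : ContinuousOn g (img e) := hg.mono (by
    intro z hz; right; exact mem_iUnion.mpr ⟨0, hz⟩)
  have hcon' : a ∉ cmp (img e) b := fun h => hcon (cmp_symm hb h)
  have := borsuk' (isCompact_img he) (J := Fin 2) ![a, b] ![-1, 1]
    (by intro j; fin_cases j; exacts [ha, hb]) g hg'
    (by
      rintro _ ⟨t, ht, rfl⟩
      rw [hg2 0 t ht, hGe t ht, Fin.prod_univ_two]
      simp [div_eq_mul_inv, mul_comm])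
    (by
      intro i j hij
      fin_cases i <;> fin_cases j
      · exact absurd rfl hij
      · exact hcon
      · exact hcon'
      · exact absurd rfl hij)
    (by simp [Fin.sum_univ_two]) 1
  simp at this

/-- a Jordan curve has at most two sides -/
lemma jordan_two {J : Set ℂ} (hJ : IsJordan J) {a b d : ℂ} (ha : a ∉ J) (hb : b ∉ J) (hd : d ∉ J)
    (hab : b ∉ cmp J a) (had : d ∉ cmp J a) : d ∈ cmp J b := by
  obtain ⟨z, hz⟩ := hJ.1
  obtain ⟨c, hc, hcJ, hcz⟩ := hJ.2 z hz
  have hKK : ({z} : Set ℂ) ∪ ⋃ _i : Fin 1, img c = J := by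
    rw [iUnion_const, hcJ]
    exact union_eq_self_of_subset_left (singleton_subset_iff.mpr hz)
  have hpt : ∀ x, x ∉ J → x ∉ ({z} : Set ℂ) := by
    rintro x hx rfl; exact hx hz
  obtain ⟨i, j, hij, h⟩ := sep (m := 2) (r := 1) (by norm_num) (K0 := {z}) isCompact_singleton
    ![a, b, d] (by
      intro j
      apply mem_cmp_finite (finite_singleton z) (hpt a ha)
      fin_cases j
      exacts [hpt a ha, hpt b hb, hpt d hd])
    (fun _ => c) (fun _ => hc.cont) (fun _ => by rw [hcz]; rfl)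
    (fun _ => by rw [← hc.closed, hcz]; rfl)
    (by
      intro _ t ht h
      rw [mem_singleton_iff, ← hcz] at h
      rcases hc.inj t ht 0 zI h with h | h | h
      · exact Or.inl h
      · linarith [h.2]
      · exact Or.inr h.1)
    (by
      intro _ s hs t ht h
      rcases hc.inj s hs t ht h with h | h | h
      · exact Or.inl h
      · right; rw [h.1, hcz]; rfl
      · right; rw [h.1, ← hc.closed, hcz]; rfl)
    (by intro i j hij; exact absurd (Subsingleton.elim i j) hij)
    (by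
      rw [hKK]
      intro j; fin_cases j
      exacts [ha, hb, hd])
  rw [hKK] at h
  fin_cases i <;> fin_cases j
  · exact absurd rfl hij
  · exact absurd h hab
  · exact absurd h had
  · exact absurd (cmp_symm hb h) hab
  · exact absurd rfl hij
  · exact h
  · exact absurd (cmp_symm hd h) had
  · exact cmp_symm hd h
  · exact absurd rfl hij

/-- a Jordan curve separates the plane -/
lemma jordan_sep {J : Set ℂ} (hJ : IsJordan J) : ∃ a b, a ∉ J ∧ b ∉ J ∧ b ∉ cmp J a := by
  classical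
  obtain ⟨z, hz⟩ := hJ.1
  obtain ⟨c, hc, hcJ, hcz⟩ := hJ.2 z hz
  have hhalf : (1/2 : ℝ) ∈ Icc (0:ℝ) 1 := by constructor <;> norm_num
  have hne : c 0 ≠ c (1/2) := by
    intro h
    rcases hc.inj 0 zI _ hhalf h with h | h | h
    · norm_num at h
    · norm_num at h
    · norm_num at h
  obtain ⟨S, hS, hcard⟩ := euler_lower (E := Fin 2) ![sub c 0 (1/2), sub c (1/2) 1]
    (by
      intro i; fin_cases i
      · exact continuousOn_sub hc.cont (by norm_num) (by norm_num) (by norm_num)
      · exact continuousOn_sub hc.cont (by norm_num) (by norm_num) (by norm_num))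
    {c 0, c (1/2)} ⟨c 0, by simp⟩
    (by
      intro i; fin_cases i
      · simp [sub_zero']
      · simp [sub_zero'])
    (by
      intro i; fin_cases i
      · simp [sub_one']
      · simp [sub_one', ← hc.closed])
    (by
      intro i; fin_cases i
      · simpa [sub_zero', sub_one'] using hne
      · simpa [sub_zero', sub_one', ← hc.closed] using hne.symm)
    (by
      have key : ∀ s ∈ Icc (0:ℝ) 1, ∀ t ∈ Icc (0:ℝ) 1, sub c 0 (1/2) s = sub c (1/2) 1 t →
          (s = 0 ∧ t = 1) ∨ (s = 1 ∧ t = 0) := by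
        intro s hs t ht h
        simp only [sub] at h
        have h1 : (0 + s * (1/2 - 0) : ℝ) ∈ Icc (0:ℝ) 1 := ⟨by linarith [hs.1], by linarith [hs.2]⟩
        have h2 : (1/2 + t * (1 - 1/2) : ℝ) ∈ Icc (0:ℝ) 1 := ⟨by linarith [ht.1], by linarith [ht.2]⟩
        rcases hc.inj _ h1 _ h2 h with h | h | h
        · right
          exact ⟨by linarith [hs.2, ht.1], by linarith [hs.2, ht.1]⟩
        · left
          exact ⟨by linarith [h.1], by linarith [h.2]⟩
        · exfalso; linarith [h.2, ht.1]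
      intro i j hij s hs t ht h
      fin_cases i <;> fin_cases j
      · exact absurd rfl hij
      · rcases key s hs t ht h with h | h
        · exact Or.inl h.1
        · exact Or.inr h.1
      · rcases key t ht s hs h.symm with h | h
        · exact Or.inr h.2
        · exact Or.inl h.2
      · exact absurd rfl hij)
  have hU : (⋃ i, img ((![sub c 0 (1/2), sub c (1/2) 1] : Fin 2 → ℝ → ℂ) i)) = J := by
    rw [← hcJ]
    ext x
    simp only [mem_iUnion, Fin.exists_fin_two, Matrix.cons_val_zero, Matrix.cons_val_one]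
    rw [img_sub c (by norm_num : (0:ℝ) ≤ 1/2), img_sub c (by norm_num : (1/2:ℝ) ≤ 1), ← mem_union,
      ← image_union, Icc_union_Icc_eq_Icc (by norm_num) (by norm_num)]
    rfl
  rw [hU] at hS
  have hV : ({c 0, c (1/2)} : Finset ℂ).card ≤ 2 := Finset.card_le_two
  rw [Fintype.card_fin] at hcard
  have : 1 < S.card := by omega
  obtain ⟨a, ha, b, hb, hab⟩ := Finset.one_lt_card.mp this
  exact ⟨a, b, hS.1 a ha, hS.1 b hb, hS.2 a ha b hb hab⟩

/-- every point of a Jordan curve is in the closure of each side -/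
lemma jordan_closure {J : Set ℂ} (hJ : IsJordan J) {a : ℂ} (ha : a ∉ J) :
    J ⊆ closure (cmp J a) := by
  intro z hz
  by_contra hcon
  obtain ⟨c, hc, hcJ, hcz⟩ := hJ.2 z hz
  set S := cmp J a with hS
  have hopen : IsOpen (closure S)ᶜ := isClosed_closure.isOpen_compl
  have h0 : ∀ᶠ t in 𝓝[Icc 0 1] (0:ℝ), c t ∈ (closure S)ᶜ :=
    (hc.cont 0 zI).eventually (hopen.mem_nhds (by rw [hcz]; exact hcon))
  have h1 : ∀ᶠ t in 𝓝[Icc 0 1] (1:ℝ), c t ∈ (closure S)ᶜ :=
    (hc.cont 1 oI).eventually (hopen.mem_nhds (by rw [← hc.closed, hcz]; exact hcon))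
  obtain ⟨ε1, hε1, h0⟩ := Metric.mem_nhdsWithin_iff.mp h0
  obtain ⟨ε2, hε2, h1⟩ := Metric.mem_nhdsWithin_iff.mp h1
  obtain ⟨ε, hε, hεa, hεb, hεc⟩ : ∃ ε : ℝ, 0 < ε ∧ ε < 1/2 ∧ ε < ε1 ∧ ε < ε2 := by
    refine ⟨min (1/4) (min (ε1/2) (ε2/2)), ?_, ?_, ?_, ?_⟩
    · positivity
    · exact lt_of_le_of_lt (min_le_left _ _) (by norm_num)
    · exact lt_of_le_of_lt ((min_le_right _ _).trans (min_le_left _ _)) (by linarith)
    · exact lt_of_le_of_lt ((min_le_right _ _).trans (min_le_right _ _)) (by linarith)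
  have hmid : ∀ x ∈ closure S ∩ J, x ∈ c '' Icc ε (1 - ε) := by
    rintro x ⟨hx, hxJ⟩
    rw [← hcJ] at hxJ
    obtain ⟨t, ht, rfl⟩ := hxJ
    refine ⟨t, ⟨?_, ?_⟩, rfl⟩
    · by_contra hlt
      push Not at hlt
      refine h0 (a := t) ⟨?_, ht⟩ hx
      rw [Metric.mem_ball, Real.dist_eq, sub_zero, abs_of_nonneg ht.1]
      linarith
    · by_contra hlt
      push Not at hlt
      refine h1 (a := t) ⟨?_, ht⟩ hx
      rw [Metric.mem_ball, Real.dist_eq, abs_sub_comm, abs_of_nonneg (by linarith [ht.2])]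
      linarith
  let e := sub c ε (1 - ε)
  have himg : img e = c '' Icc ε (1 - ε) := img_sub c (by linarith)
  have hec : ContinuousOn e (Icc 0 1) := continuousOn_sub hc.cont hε.le (by linarith) (by linarith)
  have hei : InjOn e (Icc 0 1) := by
    intro s hs t ht hst
    have m1 := mem_sub (a := ε) (b := 1 - ε) (by linarith) hs
    have m2 := mem_sub (a := ε) (b := 1 - ε) (by linarith) ht
    rcases hc.inj _ ⟨by linarith [m1.1], by linarith [m1.2]⟩ _ ⟨by linarith [m2.1], by linarith [m2.2]⟩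
      hst with h | h | h
    · have : (s - t) * (1 - ε - ε) = 0 := by linarith
      rcases mul_eq_zero.mp this with h | h
      · linarith
      · linarith
    · linarith [h.1, m1.1]
    · linarith [h.2, m2.1]
  have hsub : img e ⊆ J := by
    rw [himg, ← hcJ]
    exact image_mono (Icc_subset_Icc hε.le (by linarith))
  have hzA : z ∉ img e := by
    rw [himg]
    rintro ⟨t, ht, h⟩
    rw [← hcz] at h
    rcases hc.inj t ⟨by linarith [ht.1], by linarith [ht.2]⟩ 0 zI h with h | h | h
    · linarith [ht.1]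
    · linarith [h.2]
    · linarith [h.1, ht.2]
  have hSeq : cmp (img e) a = S := by
    apply eq_cmp (isPreconnected_cmp J a) (isOpen_cmp hJ.isClosed a) (mem_cmp ha)
    · rw [Set.disjoint_left]
      intro x hx hx2
      exact cmp_subset J a hx (hsub hx2)
    · intro x hx
      rw [himg]
      exact hmid x ⟨hx.1, frontier_cmp_subset hJ.isClosed a hx⟩
  have h2 : z ∈ S := by
    rw [← hSeq]
    exact arc_nonsep hec hei (fun h => ha (hsub h)) hzA
  exact cmp_subset J a h2 hz

end Pool.Agent.W_MP_2cf721_co
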