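import Mathlib

set_option autoImplicit false

/-!
# Continuous logarithms

Basic tools: uniqueness of continuous logarithms, existence on `ℂ` and on `[0,1]`,
and the logarithm of `(e 1 - a) / (e 0 - a)` as a function of `a` off the path `e`.
-/

open Set Topology Complex

namespace Pool.Agent.W_MP_2cf721_co

/-- Two continuous logarithms of the same function on a preconnected set differ by a constant. -/
lemma log_unique {X : Type*} [TopologicalSpace X] {S : Set X} (hS : IsPreconnected S) {f g : X → ℂ}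
    (hf : ContinuousOn f S) (hg : ContinuousOn g S) (h : ∀ x ∈ S, exp (f x) = exp (g x))
    {x y : X} (hx : x ∈ S) (hy : y ∈ S) : f x - g x = f y - g y := by
  let Z : AddSubgroup ℂ := AddSubgroup.zmultiples (2 * Real.pi * Complex.I)
  have hd : DiscreteTopology (Z : Set ℂ) := NormedSpace.discreteTopology_zmultiples _
  have hm : MapsTo (fun x => f x - g x) S (Z : Set ℂ) := by
    intro z hz
    obtain ⟨n, hn⟩ := exp_eq_exp_iff_exists_int.mp (h z hz)
    simp only [SetLike.mem_coe, Z, AddSubgroup.mem_zmultiples_iff]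
    refine ⟨n, ?_⟩
    rw [hn]; simp
  exact hS.constant_of_mapsTo (isDiscrete_iff_discreteTopology.mpr hd) (hf.sub hg) hm hx hy

/-- continuous logarithm on the plane -/
lemma exists_log_plane {h : ℂ → ℂ} (hc : Continuous h) (h0 : ∀ z, h z ≠ 0) :
    ∃ L : ℂ → ℂ, Continuous L ∧ ∀ z, exp (L z) = h z := by
  obtain ⟨F, ⟨-, hF⟩, -⟩ := isCoveringMapOn_exp.existsUnique_continuousMap_lifts
    (⟨h, hc⟩ : C(ℂ, ℂ)) (a₀ := 0) (e₀ := log (h 0)) (exp_log (h0 0))
    (fun a => by simpa using h0 a)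
  exact ⟨F, F.continuous, fun z => congrFun hF z⟩

/-- continuous logarithm on `ℝ` -/
lemma exists_log_real {h : ℝ → ℂ} (hc : Continuous h) (h0 : ∀ t, h t ≠ 0) {t₀ : ℝ} {w : ℂ}
    (hw : exp w = h t₀) :
    ∃ L : ℝ → ℂ, Continuous L ∧ (∀ t, exp (L t) = h t) ∧ L t₀ = w := by
  obtain ⟨F, ⟨hF0, hF⟩, -⟩ := isCoveringMapOn_exp.existsUnique_continuousMap_lifts
    (⟨h, hc⟩ : C(ℝ, ℂ)) (a₀ := t₀) (e₀ := w) hw
    (fun a => by simpa using h0 a)
  exact ⟨F, F.continuous, fun z => congrFun hF z, hF0⟩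

/-- continuous logarithm on `[0,1]` -/
lemma exists_log_Icc {h : ℝ → ℂ} (hc : ContinuousOn h (Icc 0 1)) (h0 : ∀ t ∈ Icc (0:ℝ) 1, h t ≠ 0)
    {w : ℂ} (hw : exp w = h 0) :
    ∃ L : ℝ → ℂ, ContinuousOn L (Icc 0 1) ∧ (∀ t ∈ Icc (0:ℝ) 1, exp (L t) = h t) ∧ L 0 = w := by
  have hc' : Continuous (IccExtend (zero_le_one' ℝ) ((Icc (0:ℝ) 1).domRestrict h)) :=
    (continuousOn_iff_continuous_domRestrict.mp hc).Icc_extend'
  obtain ⟨L, hL, hL1, hL2⟩ := exists_log_real (t₀ := 0) (w := w) hc'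
    (fun t => h0 _ (projIcc 0 1 zero_le_one t).2)
    (by rw [IccExtend_of_mem _ _ (left_mem_Icc.2 zero_le_one)]; exact hw)
  refine ⟨L, hL.continuousOn, fun t ht => ?_, hL2⟩
  rw [hL1 t, IccExtend_of_mem _ _ ht]; rfl

/-- image of the unit interval under a path -/
def img (e : ℝ → ℂ) : Set ℂ := e '' Icc (0:ℝ) 1

lemma isCompact_img {e : ℝ → ℂ} (he : ContinuousOn e (Icc 0 1)) : IsCompact (img e) :=
  isCompact_Icc.image_of_continuousOn he

/-- the logarithm of `(e 1 - a)/(e 0 - a)` obtained by following the path `e`. -/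
lemma exists_arcLog {e : ℝ → ℂ} (he : ContinuousOn e (Icc 0 1)) :
    ∃ L : ℂ → ℂ, ContinuousOn L (img e)ᶜ ∧ ∀ a, a ∉ img e → exp (L a) = (e 1 - a) / (e 0 - a) := by
  classical
  let Ω : Set ℂ := (img e)ᶜ
  have h1 : ∀ (t : unitInterval) (a : Ω), e t - a ≠ 0 := by
    intro t a h
    exact a.2 ⟨t, t.2, sub_eq_zero.mp h⟩
  have hcont : Continuous (fun p : unitInterval × Ω => (e p.1 - p.2) / (e 0 - p.2)) := by
    have h2 : Continuous (fun p : unitInterval × Ω => e p.1) := by
      have := continuousOn_iff_continuous_domRestrict.mp he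
      exact this.comp continuous_fst
    refine Continuous.div (h2.sub (continuous_subtype_val.comp continuous_snd))
      (continuous_const.sub (continuous_subtype_val.comp continuous_snd)) ?_
    intro p
    have := h1 0 p.2
    simpa using this
  let H : C(unitInterval × Ω, {z : ℂ // z ≠ 0}) :=
    ⟨fun p => ⟨(e p.1 - p.2) / (e 0 - p.2), div_ne_zero (h1 p.1 p.2) (by simpa using h1 0 p.2)⟩,
      hcont.subtype_mk _⟩
  let f : C(Ω, ℂ) := ⟨fun _ => 0, continuous_const⟩
  have H0 : ∀ a, H (0, a) = (fun z : ℂ ↦ (⟨_, z.exp_ne_zero⟩ : {z : ℂ // z ≠ 0})) (f a) := by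
    intro a
    apply Subtype.ext
    have := h1 0 a
    simp only [H, f, ContinuousMap.coe_mk, exp_zero, unitInterval, Set.Icc.coe_zero] at this ⊢
    exact div_self this
  let Φ := isCoveringMap_exp.liftHomotopy H f H0
  have hΦ : ∀ p, exp (Φ p) = (e p.1 - p.2) / (e 0 - p.2) := by
    intro p
    have := congrFun (isCoveringMap_exp.liftHomotopy_lifts H f H0) p
    have := congrArg Subtype.val this
    exact this
  refine ⟨fun a => if h : a ∈ Ω then Φ (1, ⟨a, h⟩) else 0, ?_, ?_⟩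
  · rw [continuousOn_iff_continuous_domRestrict]
    have : ((img e)ᶜ).domRestrict (fun a => if h : a ∈ Ω then Φ (1, ⟨a, h⟩) else 0)
        = fun a : Ω => Φ (1, a) := by
      funext a
      simp only [Set.domRestrict_apply]
      rw [dif_pos a.2]
    rw [this]
    exact Φ.continuous.comp (continuous_const.prodMk continuous_id)
  · intro a ha
    have ha' : a ∈ Ω := ha
    simp only [dif_pos ha']
    rw [hΦ]
    simp

end Pool.Agent.W_MP_2cf721_co
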