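import Mathlib

set_option autoImplicit false

/-!
# Subdivisions of `[0,1]`
-/

open Set

namespace Pool.Agent.W_MP_2cf721_co

/-- the next element of `T ∪ {1}` after `t` -/
noncomputable def nxt (T : Finset ℝ) (t : ℝ) : ℝ :=
  if h : ((insert 1 T).filter (fun s => t < s)).Nonempty then
    ((insert 1 T).filter (fun s => t < s)).min' h else 1

variable {T : Finset ℝ} {t : ℝ}

lemma nxt_nonempty (ht : t < 1) : ((insert 1 T).filter (fun s => t < s)).Nonempty :=
  ⟨1, Finset.mem_filter.mpr ⟨Finset.mem_insert_self _ _, ht⟩⟩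

lemma nxt_mem (ht : t < 1) : nxt T t ∈ (insert 1 T).filter (fun s => t < s) := by
  unfold nxt
  rw [dif_pos (nxt_nonempty ht)]
  exact Finset.min'_mem _ _

lemma lt_nxt (ht : t < 1) : t < nxt T t := (Finset.mem_filter.mp (nxt_mem ht)).2

lemma nxt_mem' (ht : t < 1) : nxt T t = 1 ∨ nxt T t ∈ T :=
  Finset.mem_insert.mp (Finset.mem_filter.mp (nxt_mem ht)).1

lemma nxt_le (ht : t < 1) {s : ℝ} (hs : s = 1 ∨ s ∈ T) (hts : t < s) : nxt T t ≤ s := by
  unfold nxt
  rw [dif_pos (nxt_nonempty ht)]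
  apply Finset.min'_le
  exact Finset.mem_filter.mpr ⟨Finset.mem_insert.mpr hs, hts⟩

lemma nxt_le_one (ht : t < 1) : nxt T t ≤ 1 := nxt_le ht (Or.inl rfl) ht

lemma notMem_Ioo_nxt (ht : t < 1) {s : ℝ} (hs : s ∈ T) : s ∉ Ioo t (nxt T t) := by
  rintro ⟨h1, h2⟩
  exact absurd (nxt_le ht (Or.inr hs) h1) (not_le.mpr h2)

/-- the intervals cover `[0,1)` -/
lemma exists_nxt (h0 : (0:ℝ) ∈ T) (hT : ∀ s ∈ T, s < 1) {u : ℝ} (hu : 0 ≤ u) (hu1 : u < 1) :
    ∃ t ∈ T, t ≤ u ∧ u < nxt T t := by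
  have hne : (T.filter (fun s => s ≤ u)).Nonempty := ⟨0, Finset.mem_filter.mpr ⟨h0, hu⟩⟩
  have hm := Finset.max'_mem _ hne
  set t := (T.filter (fun s => s ≤ u)).max' hne with ht
  rw [Finset.mem_filter] at hm
  refine ⟨t, hm.1, hm.2, ?_⟩
  by_contra hcon
  push Not at hcon
  have ht1 := hT t hm.1
  have h2 := lt_nxt (T := T) ht1
  rcases nxt_mem' (T := T) ht1 with h | h
  · rw [h] at hcon; linarith
  · have : nxt T t ≤ t := by
      rw [ht]
      apply Finset.le_max'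
      exact Finset.mem_filter.mpr ⟨h, hcon⟩
    linarith

/-- two different intervals of the subdivision are ordered -/
lemma nxt_le_of_lt {s : ℝ} (ht1 : t < 1) (hs : s ∈ T) (h : t < s) : nxt T t ≤ s :=
  nxt_le ht1 (Or.inr hs) h

end Pool.Agent.W_MP_2cf721_co
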