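import Pool.Agent.W_MP_2cf721_co.Sides
import Pool.Agent.W_MP_2cf721_co.Next

set_option autoImplicit false

/-!
# The inequality for mutually facing curves
-/

open Set Topology Complex

namespace Pool.Agent.W_MP_2cf721_co

/-- a family of at least three mutually facing Jordan curves with parametrisations; `d i` is a
point on the side of `J i` free of the other curves -/
structure Cfg (ι : Type) [Fintype ι] [DecidableEq ι] where
  J : ι → Set ℂ
  hJ : ∀ i, IsJordan (J i)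
  hs : ∀ i j, i ≠ j → (J i ∩ J j).Subsingleton
  P : Finset ℂ
  hP : ∀ p, p ∈ P ↔ ∃ i j, i ≠ j ∧ p ∈ J i ∧ p ∈ J j
  c : ι → ℝ → ℂ
  loop : ∀ i, IsLoop (c i)
  hc : ∀ i, img (c i) = J i
  hc0 : ∀ i, c i 0 ∈ P
  d : ι → ℂ
  hd : ∀ i, d i ∉ J i
  hd2 : ∀ i j, j ≠ i → Disjoint (cmp (J i) (d i)) (J j)
  T : ι → Finset ℝ
  hT : ∀ i t, t ∈ T i ↔ t ∈ Ico (0:ℝ) 1 ∧ c i t ∈ P
  hcard : 3 ≤ Fintype.card ι

namespace Cfg

variable {ι : Type} [Fintype ι] [DecidableEq ι] (X : Cfg ι)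

/-- the union of the curves -/
def U : Set ℂ := ⋃ i, X.J i

/-- the free side of `J i` -/
def D (i : ι) : Set ℂ := cmp (X.J i) (X.d i)

def adj (s : ℂ) (i : ι) (t : ℝ) : Prop :=
  (closure (cmp X.U s) ∩ X.c i '' Ioo t (nxt (X.T i) t)).Nonempty

variable {X}

lemma J_subset (i : ι) : X.J i ⊆ X.U := subset_iUnion _ i

lemma c_mem (i : ι) {t : ℝ} (ht : t ∈ Icc (0:ℝ) 1) : X.c i t ∈ X.J i := by
  rw [← X.hc i]; exact ⟨t, ht, rfl⟩

lemma isCompact_U : IsCompact X.U := isCompact_iUnion fun i => (X.hJ i).isCompact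

lemma disj_D (i : ι) : Disjoint (X.D i) X.U := by
  rw [U, disjoint_iUnion_right]
  intro j
  by_cases h : j = i
  · subst h
    exact Set.disjoint_left.mpr fun z hz hz' => cmp_subset _ _ hz hz'
  · exact X.hd2 i j h

lemma d_mem (i : ι) : X.d i ∈ X.D i := mem_cmp (X.hd i)

lemma frontier_D (i : ι) : frontier (X.D i) ⊆ X.J i := frontier_cmp_subset (X.hJ i).isClosed _

lemma cmp_d {K : Set ℂ} {i : ι} (hK : X.J i ⊆ K) (hKU : K ⊆ X.U) : cmp K (X.d i) = X.D i :=
  eq_cmp (isPreconnected_cmp _ _) (isOpen_cmp (X.hJ i).isClosed _) (d_mem i)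
    ((disj_D i).mono_right hKU) ((frontier_D i).trans hK)

lemma d_notMem (i j : ι) (hij : i ≠ j) : X.d j ∉ X.D i := by
  intro h
  have h1 : cmp X.U (X.d i) = X.D i := cmp_d (J_subset i) Subset.rfl
  have h2 : cmp X.U (X.d j) = X.D j := cmp_d (J_subset j) Subset.rfl
  have h3 : X.D j = X.D i := by
    rw [← h1] at h
    rw [← h2, cmp_eq h, h1]
  have h4 : X.J i ⊆ X.J j := by
    intro z hz
    have h5 : z ∈ closure (X.D i) := jordan_closure (X.hJ i) (X.hd i) hz
    apply frontier_D j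
    have ho : IsOpen (X.D j) := isOpen_cmp (X.hJ j).isClosed (X.d j)
    rw [ho.frontier_eq, h3]
    exact ⟨h5, fun h6 => (disj_D i).ne_of_mem h6 (J_subset i hz) rfl⟩
  have h5 : (X.J i ∩ X.J j) = X.J i := inter_eq_left.mpr h4
  have h6 := (X.hs i j hij).finite
  rw [h5] at h6
  exact (X.hJ i).infinite h6

lemma T_lt {i : ι} {t : ℝ} (ht : t ∈ X.T i) : t < 1 := ((X.hT i t).mp ht).1.2
lemma T_nonneg {i : ι} {t : ℝ} (ht : t ∈ X.T i) : 0 ≤ t := ((X.hT i t).mp ht).1.1
lemma zero_mem_T (i : ι) : (0:ℝ) ∈ X.T i := (X.hT i 0).mpr ⟨⟨le_rfl, zero_lt_one⟩, X.hc0 i⟩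

lemma mem_T {i j : ι} (hij : i ≠ j) {u : ℝ} (hu : u ∈ Ico (0:ℝ) 1) (h : X.c i u ∈ X.J j) :
    u ∈ X.T i :=
  (X.hT i u).mpr ⟨hu, (X.hP _).mpr ⟨i, j, hij, c_mem i ⟨hu.1, hu.2.le⟩, h⟩⟩

/-- an arc touches at most one gap -/
lemma arc_unique {s s' : ℂ} (hs : s ∉ X.U) (hs' : s' ∉ X.U) (hne : s' ∉ cmp X.U s) {i : ι}
    (hsi : s ∉ X.D i) (hsi' : s' ∉ X.D i) {t : ℝ} (ht : t ∈ X.T i) (h1 : X.adj s i t)
    (h2 : X.adj s' i t) : False := by
  set v := nxt (X.T i) t with hv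
  have ht1 := T_lt ht
  have ht0 := T_nonneg ht
  have htv : t < v := lt_nxt ht1
  have hv1 : v ≤ 1 := nxt_le_one ht1
  set K0 : Set ℂ := (⋃ j : {j // j ≠ i}, X.J j) ∪ X.c i '' (Icc 0 t ∪ Icc v 1) with hK0
  have hcont := (X.loop i).cont
  have hK0c : IsCompact K0 := by
    refine (isCompact_iUnion fun j : {j // j ≠ i} => (X.hJ j).isCompact).union ?_
    apply (isCompact_Icc.union isCompact_Icc).image_of_continuousOn
    apply hcont.mono
    rintro u (hu | hu)
    · exact ⟨hu.1, hu.2.trans ht1.le⟩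
    · exact ⟨(ht0.trans htv.le).trans hu.1, hu.2⟩
  have hin : ∀ u ∈ Ioo t v, X.c i u ∉ K0 := by
    intro u hu hK
    have hu1 : u < 1 := hu.2.trans_le hv1
    have hu0 : 0 < u := ht0.trans_lt hu.1
    rcases hK with hK | ⟨w, hw, hwu⟩
    · obtain ⟨⟨j, hj⟩, hz⟩ := mem_iUnion.mp hK
      exact notMem_Ioo_nxt ht1 (mem_T hj.symm ⟨hu0.le, hu1⟩ hz) hu
    · have hw01 : w ∈ Icc (0:ℝ) 1 := by
        rcases hw with hw | hw
        · exact ⟨hw.1, hw.2.trans ht1.le⟩
        · exact ⟨(ht0.trans htv.le).trans hw.1, hw.2⟩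
      rcases (X.loop i).inj w hw01 u ⟨hu0.le, hu1.le⟩ hwu with h | ⟨-, h⟩ | ⟨-, h⟩
      · subst h
        rcases hw with hw | hw
        · exact absurd hw.2 (not_le.mpr hu.1)
        · exact absurd hw.1 (not_le.mpr hu.2)
      · exact hu1.ne h
      · exact hu0.ne' h
  have hK0U : K0 ∪ ⋃ _i : Fin 1, img (sub (X.c i) t v) = X.U := by
    rw [iUnion_const, img_sub _ htv.le]
    apply subset_antisymm
    · rintro z ((hz | ⟨u, hu, rfl⟩) | ⟨u, hu, rfl⟩)
      · obtain ⟨⟨j, hj⟩, hz⟩ := mem_iUnion.mp hz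
        exact J_subset j hz
      · apply J_subset i
        apply c_mem
        rcases hu with hu | hu
        · exact ⟨hu.1, hu.2.trans ht1.le⟩
        · exact ⟨(ht0.trans htv.le).trans hu.1, hu.2⟩
      · apply J_subset i
        apply c_mem
        exact ⟨ht0.trans hu.1, hu.2.trans hv1⟩
    · intro z hz
      obtain ⟨j, hz⟩ := mem_iUnion.mp hz
      by_cases hj : j = i
      · subst hj
        rw [← X.hc j] at hz
        obtain ⟨u, hu, rfl⟩ := hz
        rcases le_total u t with h | h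
        · left; right; exact ⟨u, Or.inl ⟨hu.1, h⟩, rfl⟩
        · rcases le_total u v with h' | h'
          · right; exact ⟨u, ⟨h, h'⟩, rfl⟩
          · left; right; exact ⟨u, Or.inr ⟨h', hu.2⟩, rfl⟩
      · left; left
        exact mem_iUnion.mpr ⟨⟨j, hj⟩, hz⟩
  have hK0sub : K0 ⊆ X.U := by rw [← hK0U]; exact subset_union_left
  -- the component of the arc
  obtain ⟨x0, hx0, hx0A⟩ := h1
  set W := cmp K0 x0 with hW
  have hAd : Disjoint (X.c i '' Ioo t v) K0 := by
    rw [Set.disjoint_left]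
    rintro _ ⟨u, hu, rfl⟩ h
    exact hin u hu h
  have hApre : IsPreconnected (X.c i '' Ioo t v) := by
    apply isPreconnected_Ioo.image
    apply hcont.mono
    intro u hu
    exact ⟨ht0.trans hu.1.le, hu.2.le.trans hv1⟩
  have hAW : X.c i '' Ioo t v ⊆ W := subset_cmp hApre hx0A hAd
  have hWo : IsOpen W := isOpen_cmp hK0c.isClosed _
  have key : ∀ q, q ∉ X.U → (closure (cmp X.U q) ∩ X.c i '' Ioo t v).Nonempty → q ∈ W := by
    rintro q hq ⟨y, hy, hyA⟩
    obtain ⟨z, hzW, hzq⟩ := mem_closure_iff.mp hy W hWo (hAW hyA)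
    have h3 : cmp X.U q ⊆ cmp K0 z := subset_cmp (isPreconnected_cmp _ _) hzq
      (Set.disjoint_left.mpr fun a ha ha' => cmp_subset _ _ ha (hK0sub ha'))
    rw [cmp_eq hzW] at h3
    exact h3 (mem_cmp hq)
  have hsW : s ∈ W := key s hs ⟨x0, hx0, hx0A⟩
  have hsW' : s' ∈ W := key s' hs' h2
  have hdU : X.d i ∉ X.U := fun h => (disj_D i).ne_of_mem (d_mem i) h rfl
  have hcd : cmp X.U (X.d i) = X.D i := cmp_d (J_subset i) Subset.rfl
  have hdW : X.d i ∈ W := by
    apply key _ hdU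
    rw [hcd]
    obtain ⟨u, hu, rfl⟩ := hx0A
    refine ⟨_, jordan_closure (X.hJ i) (X.hd i) (c_mem i ?_), ⟨u, hu, rfl⟩⟩
    exact ⟨ht0.trans hu.1.le, hu.2.le.trans hv1⟩
  have hWs : cmp K0 s = W := cmp_eq hsW
  obtain ⟨a, b, hab, h⟩ := sep (m := 2) (r := 1) (by norm_num) hK0c ![s, s', X.d i] (by
      intro j
      change _ ∈ cmp K0 s
      rw [hWs]
      fin_cases j
      exacts [hsW, hsW', hdW])
    (fun _ => sub (X.c i) t v) (fun _ => continuousOn_sub hcont ht0 htv.le hv1)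
    (fun _ => by rw [sub_zero']; exact Or.inr ⟨t, Or.inl ⟨ht0, le_rfl⟩, rfl⟩)
    (fun _ => by rw [sub_one']; exact Or.inr ⟨v, Or.inr ⟨le_rfl, hv1⟩, rfl⟩)
    (by
      intro _ u hu hK
      by_contra hcon
      push Not at hcon
      refine hin (t + u * (v - t)) ⟨?_, ?_⟩ hK
      · have : 0 < u * (v - t) := mul_pos (lt_of_le_of_ne hu.1 hcon.1.symm) (by linarith)
        linarith
      · have : u * (v - t) < 1 * (v - t) :=
          mul_lt_mul_of_pos_right (lt_of_le_of_ne hu.2 hcon.2) (by linarith)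
        linarith)
    (by
      intro _ u hu w hw huw
      have hu' := mem_sub htv.le hu
      have hw' := mem_sub htv.le hw
      have hI : Icc t v ⊆ Icc (0:ℝ) 1 := Icc_subset_Icc ht0 hv1
      rcases (X.loop i).inj _ (hI hu') _ (hI hw') huw with h | ⟨h, -⟩ | ⟨h, -⟩
      · left
        have h3 : u * (v - t) = w * (v - t) := by linarith
        exact mul_right_cancel₀ (by linarith) h3
      · right
        change X.c i _ ∈ K0
        rw [h]
        exact Or.inr ⟨0, Or.inl ⟨le_rfl, ht0⟩, rfl⟩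
      · right
        change X.c i _ ∈ K0
        rw [h]
        exact Or.inr ⟨1, Or.inr ⟨hv1, le_rfl⟩, rfl⟩)
    (by intro a b hab; exact absurd (Subsingleton.elim a b) hab)
    (by
      rw [hK0U]
      intro j
      fin_cases j
      exacts [hs, hs', hdU])
  rw [hK0U] at h
  fin_cases a <;> fin_cases b
  · exact hab rfl
  · exact hne h
  · have h' : X.d i ∈ cmp X.U s := h
    have := cmp_symm hs h'
    rw [hcd] at this
    exact hsi this
  · exact hne (cmp_symm hs' h)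
  · exact hab rfl
  · have h' : X.d i ∈ cmp X.U s' := h
    have := cmp_symm hs' h'
    rw [hcd] at this
    exact hsi' this
  · have h' : s ∈ cmp X.U (X.d i) := h
    rw [hcd] at h'
    exact hsi h'
  · have h' : s' ∈ cmp X.U (X.d i) := h
    rw [hcd] at h'
    exact hsi' h'
  · exact hab rfl

/-- two loops based at the common point, if any -/
lemma exists_loops {x y : ι} (hxy : x ≠ y) : ∃ c₁ c₂ : ℝ → ℂ, IsLoop c₁ ∧ IsLoop c₂ ∧
    img c₁ = X.J x ∧ img c₂ = X.J y ∧ ∀ z, z ∈ X.J x → z ∈ X.J y → c₁ 0 = z ∧ c₂ 0 = z := by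
  rcases (X.J x ∩ X.J y).eq_empty_or_nonempty with he | ⟨z, hz⟩
  · refine ⟨X.c x, X.c y, X.loop x, X.loop y, X.hc x, X.hc y, fun z h1 h2 => ?_⟩
    have : z ∈ X.J x ∩ X.J y := ⟨h1, h2⟩
    rw [he] at this
    exact absurd this (notMem_empty z)
  · obtain ⟨c₁, h1, h1', h1''⟩ := (X.hJ x).2 z hz.1
    obtain ⟨c₂, h2, h2', h2''⟩ := (X.hJ y).2 z hz.2
    refine ⟨c₁, c₂, h1, h2, h1', h2', fun w hw1 hw2 => ?_⟩
    rw [h1'', h2'', X.hs x y hxy ⟨hw1, hw2⟩ hz]
    exact ⟨rfl, rfl⟩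

/-- a gap touches at least three curves -/
lemma three_curves {s : ℂ} (hs : s ∉ X.U) (hsD : ∀ i, s ∉ X.D i) {x y : ι} (hxy : x ≠ y)
    (h : ∀ i, i ≠ x → i ≠ y → ∀ t ∈ X.T i, ¬ X.adj s i t) : False := by
  classical
  set K : Set ℂ := X.J x ∪ X.J y ∪ X.P with hK
  have hPU : (X.P : Set ℂ) ⊆ X.U := by
    intro p hp
    obtain ⟨i, j, -, h1, -⟩ := (X.hP p).mp hp
    exact J_subset i h1
  have hKU : K ⊆ X.U := union_subset (union_subset (J_subset x) (J_subset y)) hPU
  have hxK : X.J x ⊆ K := fun z hz => Or.inl (Or.inl hz)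
  have hyK : X.J y ⊆ K := fun z hz => Or.inl (Or.inr hz)
  have hfr : frontier (cmp X.U s) ⊆ K := by
    intro z hz
    have hzU := frontier_cmp_subset isCompact_U.isClosed s hz
    obtain ⟨j, hzj⟩ := mem_iUnion.mp hzU
    by_cases hjx : j = x
    · exact hxK (hjx ▸ hzj)
    · by_cases hjy : j = y
      · exact hyK (hjy ▸ hzj)
      · rw [← X.hc j, (X.loop j).img_eq] at hzj
        obtain ⟨u, hu, rfl⟩ := hzj
        obtain ⟨t, ht, htu, hut⟩ := exists_nxt (zero_mem_T (X := X) j) (fun s hs => T_lt hs)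
          hu.1 hu.2
        rcases htu.eq_or_lt with h1 | h1
        · right
          rw [← h1]
          exact ((X.hT j t).mp ht).2
        · exact absurd ⟨_, hz.1, u, ⟨h1, hut⟩, rfl⟩ (h j hjx hjy t ht)
  have hcs : cmp K s = cmp X.U s := eq_cmp (isPreconnected_cmp _ _)
    (isOpen_cmp isCompact_U.isClosed _) (mem_cmp hs)
    (Set.disjoint_left.mpr fun a ha ha' => cmp_subset _ _ ha (hKU ha')) hfr
  have hcx : cmp K (X.d x) = X.D x := cmp_d hxK hKU
  have hcy : cmp K (X.d y) = X.D y := cmp_d hyK hKU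
  obtain ⟨w, hwx, hwy⟩ : ∃ w, w ≠ x ∧ w ≠ y := by
    have : ({x, y} : Finset ι).card < Fintype.card ι := by
      rw [Finset.card_pair hxy]
      have := X.hcard
      omega
    rw [← Finset.card_univ] at this
    obtain ⟨w, hw⟩ := Finset.exists_mem_notMem_of_card_lt_card this
    simp only [Finset.mem_insert, Finset.mem_singleton, not_or] at hw
    exact ⟨w, hw.2.1, hw.2.2⟩
  obtain ⟨w', hw', hw'K⟩ := (X.hJ w).diff_nonempty (T := K) (by
    rw [hK, inter_union_distrib_left, inter_union_distrib_left]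
    exact ((X.hs w x hwx).finite.union (X.hs w y hwy).finite).union
      ((X.P.finite_toSet).subset inter_subset_right))
  obtain ⟨c₁, c₂, hl1, hl2, hi1, hi2, hcom⟩ := exists_loops (X := X) hxy
  have hc1 : ∀ u ∈ Icc (0:ℝ) 1, c₁ u ∈ X.J x := fun u hu => by rw [← hi1]; exact ⟨u, hu, rfl⟩
  have hc2 : ∀ u ∈ Icc (0:ℝ) 1, c₂ u ∈ X.J y := fun u hu => by rw [← hi2]; exact ⟨u, hu, rfl⟩
  set K0 : Set ℂ := ((X.P : Set ℂ) \ (X.J x ∪ X.J y)) ∪ {c₁ 0, c₂ 0} with hK0
  have hK0f : K0.Finite :=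
    (X.P.finite_toSet.subset sdiff_subset).union (by simp)
  have hm1 : c₁ 0 ∈ K0 := Or.inr (Or.inl rfl)
  have hm2 : c₂ 0 ∈ K0 := Or.inr (Or.inr rfl)
  have hend : ∀ (c : ℝ → ℂ), IsLoop c → ∀ u ∈ Icc (0:ℝ) 1, c u = c 0 → u = 0 ∨ u = 1 := by
    intro c hc u hu h
    rcases hc.inj u hu 0 zI h with h | ⟨h, -⟩ | ⟨h, -⟩
    · exact Or.inl h
    · exact Or.inl h
    · exact Or.inr h
  have hE : K0 ∪ ⋃ i : Fin 2, img ((![c₁, c₂] : Fin 2 → ℝ → ℂ) i) = K := by
    have : (⋃ i : Fin 2, img ((![c₁, c₂] : Fin 2 → ℝ → ℂ) i)) = X.J x ∪ X.J y := by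
      ext z
      simp only [mem_iUnion, Fin.exists_fin_two, mem_union]
      change (z ∈ img c₁ ∨ z ∈ img c₂) ↔ _
      rw [hi1, hi2]
    rw [this]
    apply subset_antisymm
    · rintro z ((hz | (rfl | rfl)) | hz)
      · exact Or.inr hz.1
      · exact hxK (hc1 0 zI)
      · exact hyK (hc2 0 zI)
      · exact Or.inl hz
    · rintro z (hz | hz)
      · exact Or.inr hz
      · by_cases hz' : z ∈ X.J x ∪ X.J y
        · exact Or.inr hz'
        · exact Or.inl (Or.inl ⟨hz, hz'⟩)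
  have hK0K : K0 ⊆ K := by rw [← hE]; exact subset_union_left
  have hsK : s ∉ K := fun h => hs (hKU h)
  have hdxK : X.d x ∉ K := fun h => (disj_D x).ne_of_mem (d_mem x) (hKU h) rfl
  have hdyK : X.d y ∉ K := fun h => (disj_D y).ne_of_mem (d_mem y) (hKU h) rfl
  obtain ⟨a, b, hab, h⟩ := sep (m := 3) (r := 2) (by norm_num) hK0f.isCompact
    ![s, X.d x, X.d y, w'] (by
      intro j
      apply mem_cmp_finite hK0f (fun h => hsK (hK0K h))
      fin_cases j
      exacts [fun h => hsK (hK0K h), fun h => hdxK (hK0K h), fun h => hdyK (hK0K h),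
        fun h => hw'K (hK0K h)])
    ![c₁, c₂] (by
      intro i
      fin_cases i
      exacts [hl1.cont, hl2.cont])
    (by
      intro i
      fin_cases i
      exacts [hm1, hm2])
    (by
      intro i
      fin_cases i
      · change c₁ 1 ∈ K0
        rw [← hl1.closed]; exact hm1
      · change c₂ 1 ∈ K0
        rw [← hl2.closed]; exact hm2)
    (by
      intro i u hu hK
      fin_cases i
      · change c₁ u ∈ K0 at hK
        rcases hK with hK | (hK | hK)
        · exact absurd (Or.inl (hc1 u hu)) hK.2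
        · exact hend c₁ hl1 u hu hK
        · have h1 : c₁ u ∈ X.J y := by
            rw [show c₁ u = c₂ 0 from hK]; exact hc2 0 zI
          exact hend c₁ hl1 u hu (hcom _ (hc1 u hu) h1).1.symm
      · change c₂ u ∈ K0 at hK
        rcases hK with hK | (hK | hK)
        · exact absurd (Or.inr (hc2 u hu)) hK.2
        · have h1 : c₂ u ∈ X.J x := by
            rw [show c₂ u = c₁ 0 from hK]; exact hc1 0 zI
          exact hend c₂ hl2 u hu (hcom _ h1 (hc2 u hu)).2.symm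
        · exact hend c₂ hl2 u hu hK)
    (by
      have key : ∀ c : ℝ → ℂ, IsLoop c → c 0 ∈ K0 → ∀ s ∈ Icc (0:ℝ) 1, ∀ t ∈ Icc (0:ℝ) 1,
          c s = c t → s = t ∨ c s ∈ K0 := by
        intro c hc h0 s hs t ht hst
        rcases hc.inj s hs t ht hst with h | ⟨h, -⟩ | ⟨h, -⟩
        · exact Or.inl h
        · right; rw [h]; exact h0
        · right; rw [h, ← hc.closed]; exact h0
      intro i
      fin_cases i
      · exact key c₁ hl1 hm1
      · exact key c₂ hl2 hm2)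
    (by
      intro i j hij u hu v hv huv
      fin_cases i <;> fin_cases j
      · exact absurd rfl hij
      · change c₁ u = c₂ v at huv
        change c₁ u ∈ K0
        have h1 : c₁ u ∈ X.J y := by rw [huv]; exact hc2 v hv
        rw [← (hcom _ (hc1 u hu) h1).1]
        exact hm1
      · change c₂ u = c₁ v at huv
        change c₂ u ∈ K0
        have h1 : c₂ u ∈ X.J x := by rw [huv]; exact hc1 v hv
        rw [← (hcom _ h1 (hc2 u hu)).2]
        exact hm2
      · exact absurd rfl hij)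
    (by
      rw [hE]
      intro j
      fin_cases j
      exacts [hsK, hdxK, hdyK, hw'K])
  rw [hE] at h
  have n01 : X.d x ∉ cmp K s := fun h => hsD x (hcx ▸ cmp_symm hsK h)
  have n02 : X.d y ∉ cmp K s := fun h => hsD y (hcy ▸ cmp_symm hsK h)
  have n12 : X.d y ∉ cmp K (X.d x) := by rw [hcx]; exact d_notMem x y hxy
  have hw'U : w' ∈ X.U := J_subset w hw'
  have n03 : w' ∉ cmp K s := by rw [hcs]; exact fun h => cmp_subset _ _ h hw'U
  have n13 : w' ∉ cmp K (X.d x) := by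
    rw [hcx]; exact fun h => (disj_D x).ne_of_mem h hw'U rfl
  have n23 : w' ∉ cmp K (X.d y) := by
    rw [hcy]; exact fun h => (disj_D y).ne_of_mem h hw'U rfl
  fin_cases a <;> fin_cases b
  · exact hab rfl
  · exact n01 h
  · exact n02 h
  · exact n03 h
  · exact n01 (cmp_symm hdxK h)
  · exact hab rfl
  · exact n12 h
  · exact n13 h
  · exact n02 (cmp_symm hdyK h)
  · exact n12 (cmp_symm hdyK h)
  · exact hab rfl
  · exact n23 h
  · exact n03 (cmp_symm hw'K h)
  · exact n13 (cmp_symm hw'K h)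
  · exact n23 (cmp_symm hw'K h)
  · exact hab rfl

end Cfg

end Pool.Agent.W_MP_2cf721_co
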