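import Pool.Agent.W_MP_2cf721_co.Jordan

set_option autoImplicit false

/-!
# Sides of Jordan curves
-/

open Set Topology Complex

namespace Pool.Agent.W_MP_2cf721_co

lemma IsLoop.injOn_Ico {c : ℝ → ℂ} (h : IsLoop c) : InjOn c (Ico 0 1) := by
  intro s hs t ht hst
  rcases h.inj s ⟨hs.1, hs.2.le⟩ t ⟨ht.1, ht.2.le⟩ hst with h | ⟨_, h⟩ | ⟨h, _⟩
  · exact h
  · exact absurd h ht.2.ne
  · exact absurd h hs.2.ne

lemma IsLoop.img_eq {c : ℝ → ℂ} (h : IsLoop c) : img c = c '' Ico 0 1 := by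
  ext z
  constructor
  · rintro ⟨t, ht, rfl⟩
    rcases ht.2.eq_or_lt with h1 | h1
    · exact ⟨0, ⟨le_rfl, zero_lt_one⟩, by rw [h1, h.closed]⟩
    · exact ⟨t, ⟨ht.1, h1⟩, rfl⟩
  · rintro ⟨t, ht, rfl⟩
    exact ⟨t, ⟨ht.1, ht.2.le⟩, rfl⟩

lemma IsLoop.img_diff {c : ℝ → ℂ} (h : IsLoop c) : img c \ {c 0} = c '' Ioo 0 1 := by
  rw [h.img_eq]
  ext z
  constructor
  · rintro ⟨⟨t, ht, rfl⟩, h2⟩
    refine ⟨t, ⟨lt_of_le_of_ne ht.1 ?_, ht.2⟩, rfl⟩
    rintro rfl
    exact h2 rfl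
  · rintro ⟨t, ht, rfl⟩
    refine ⟨⟨t, ⟨ht.1.le, ht.2⟩, rfl⟩, fun h2 => ?_⟩
    have := h.injOn_Ico ⟨ht.1.le, ht.2⟩ ⟨le_rfl, zero_lt_one⟩ h2
    exact ht.1.ne' this

lemma IsJordan.infinite {J : Set ℂ} (h : IsJordan J) : J.Infinite := by
  obtain ⟨z, hz⟩ := h.1
  obtain ⟨c, hc, rfl, -⟩ := h.2 z hz
  rw [hc.img_eq]
  exact (Ico_infinite zero_lt_one).image hc.injOn_Ico

lemma IsJordan.diff_nonempty {J T : Set ℂ} (h : IsJordan J) (hT : (J ∩ T).Finite) :
    ∃ x ∈ J, x ∉ T := by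
  have h1 : (J \ T).Nonempty := by
    have : (J \ (J ∩ T)).Nonempty := (h.infinite.sdiff hT).nonempty
    rwa [sdiff_self_inter] at this
  obtain ⟨x, hx⟩ := h1
  exact ⟨x, hx.1, hx.2⟩

lemma diff_preconnected {X T : Set ℂ} (hX : IsJordan X) (h : (X ∩ T).Subsingleton) :
    IsPreconnected (X \ T) := by
  rcases (X ∩ T).eq_empty_or_nonempty with he | ⟨z, hz⟩
  · have h1 : X \ T = X := by rw [← sdiff_self_inter, he, sdiff_empty]
    rw [h1]
    obtain ⟨z, hz⟩ := hX.1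
    obtain ⟨c, hc, hcX, -⟩ := hX.2 z hz
    rw [← hcX]
    exact isPreconnected_Icc.image _ hc.cont
  · obtain ⟨c, hc, hcX, hc0⟩ := hX.2 z hz.1
    have h1 : X \ T = img c \ {c 0} := by
      rw [← sdiff_self_inter, h.eq_singleton_of_mem hz, hcX, hc0]
    rw [h1, hc.img_diff]
    exact isPreconnected_Ioo.image _ (hc.cont.mono Ioo_subset_Icc_self)

section

variable {ι : Type*} {J : ι → Set ℂ}

/-- if `X` meets `I` in at most a point then `X` is in one side of `I` -/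
lemma diff_subset_cmp {X I : Set ℂ} (hX : IsJordan X) (h : (X ∩ I).Subsingleton) {x : ℂ}
    (hx : x ∈ X) (hxI : x ∉ I) : X \ I ⊆ cmp I x :=
  subset_cmp (diff_preconnected hX h) ⟨hx, hxI⟩ disjoint_sdiff_left

open Classical in
/-- the side of `J i` on which `J j` lies (`b i` is a base point) -/
noncomputable def side (J : ι → Set ℂ) (b : ι → ℂ) (i j : ι) : Bool :=
  decide (J j \ J i ⊆ cmp (J i) (b i))

variable (hJ : ∀ i, IsJordan (J i)) (hs : ∀ i j, i ≠ j → (J i ∩ J j).Subsingleton)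

include hJ hs

lemma exists_diff {i j : ι} (hij : j ≠ i) : ∃ x ∈ J j, x ∉ J i :=
  (hJ j).diff_nonempty ((hs j i hij).finite)

lemma side_true_iff {b : ι → ℂ} {i j : ι} (hji : j ≠ i) {x : ℂ}
    (hx : x ∈ J j) (hxi : x ∉ J i) : side J b i j = true ↔ x ∈ cmp (J i) (b i) := by
  unfold side
  simp only [decide_eq_true_eq]
  constructor
  · exact fun h => h ⟨hx, hxi⟩
  · intro h
    rw [← cmp_eq h]
    exact diff_subset_cmp (hJ j) (hs j i hji) hx hxi

lemma side_eq_iff {b : ι → ℂ} (hb : ∀ i, b i ∉ J i) {i j k : ι} (hji : j ≠ i) (hki : k ≠ i)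
    {x y : ℂ} (hx : x ∈ J j) (hxi : x ∉ J i) (hy : y ∈ J k) (hyi : y ∉ J i) :
    side J b i j = side J b i k ↔ y ∈ cmp (J i) x := by
  have h1 := side_true_iff hJ hs (b := b) hji hx hxi
  have h2 := side_true_iff hJ hs (b := b) hki hy hyi
  constructor
  · intro h
    rcases Bool.eq_false_or_eq_true (side J b i j) with h3 | h3
    · rw [cmp_eq (h1.mp h3)]
      exact h2.mp (h.symm.trans h3)
    · have h4 : x ∉ cmp (J i) (b i) := fun h5 => by
        rw [h1.mpr h5] at h3; exact absurd h3 (by decide)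
      have h4' : y ∉ cmp (J i) (b i) := fun h5 => by
        rw [h, h2.mpr h5] at h3; exact absurd h3 (by decide)
      exact jordan_two (hJ i) (hb i) hxi hyi h4 h4'
  · intro h
    rw [Bool.eq_iff_iff, h1, h2]
    constructor
    · intro h3; rwa [cmp_eq h3] at h
    · intro h3
      have := cmp_symm hxi h
      rwa [cmp_eq h3] at this

/-- if `J j` and `J k` are on different sides of `J i`, then `J i` and `J j` are on the same side
of `J k` -/
lemma between {b : ι → ℂ} (hb : ∀ i, b i ∉ J i) {i j k : ι} (hji : j ≠ i) (hki : k ≠ i)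
    (h : side J b i j ≠ side J b i k) : side J b k i = side J b k j := by
  have hjk : j ≠ k := by rintro rfl; exact h rfl
  obtain ⟨x, hx, hxi⟩ := exists_diff hJ hs hji
  obtain ⟨y, hy, hyi⟩ := exists_diff hJ hs hki
  have h1 : y ∉ cmp (J i) x := fun h2 => h ((side_eq_iff hJ hs hb hji hki hx hxi hy hyi).mpr h2)
  have hjS : J j \ J i ⊆ cmp (J i) x := diff_subset_cmp (hJ j) (hs j i hji) hx hxi
  have hkS : J k \ J i ⊆ cmp (J i) y := diff_subset_cmp (hJ k) (hs k i hki) hy hyi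
  have hdis : Disjoint (cmp (J i) x) (J k) := by
    rw [Set.disjoint_left]
    intro z hz hzk
    have hzi : z ∉ J i := cmp_subset _ _ hz
    have hzy := hkS ⟨hzk, hzi⟩
    apply h1
    rw [← cmp_eq hz, cmp_eq hzy]
    exact mem_cmp hyi
  -- the connected set
  have hT : IsPreconnected (cmp (J i) x ∪ (J i \ J k)) := by
    apply (isPreconnected_cmp (J i) x).subset_closure subset_union_left
    apply union_subset subset_closure
    exact sdiff_subset.trans (jordan_closure (hJ i) hxi)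
  have hTd : Disjoint (cmp (J i) x ∪ (J i \ J k)) (J k) :=
    disjoint_union_left.mpr ⟨hdis, disjoint_sdiff_left⟩
  obtain ⟨u, hu, huk⟩ := exists_diff hJ hs (i := k) (j := i) hki.symm
  obtain ⟨v, hv, hvk⟩ := exists_diff hJ hs (i := k) (j := j) hjk
  rw [side_eq_iff hJ hs hb hki.symm hjk hu huk hv hvk]
  refine subset_cmp hT (Or.inr ⟨hu, huk⟩) hTd ?_
  by_cases hvi : v ∈ J i
  · exact Or.inr ⟨hvi, hvk⟩
  · exact Or.inl (hjS ⟨hv, hvi⟩)

lemma side_common {b : ι → ℂ} (hb : ∀ i, b i ∉ J i) {i j k : ι} {p : ℂ} (hji : j ≠ i) (hki : k ≠ i)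
    (h : side J b i j ≠ side J b i k) (hpj : p ∈ J j) (hpk : p ∈ J k) : p ∈ J i := by
  by_contra hpi
  exact h ((side_eq_iff hJ hs hb hji hki hpj hpi hpk hpi).mpr (mem_cmp hpi))

end

end Pool.Agent.W_MP_2cf721_co
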